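import Pool.Agent.helper20.AL.Defs

/-!
# AL-DGraph: bipartite graphs with `2 p ^ ℓ` vertices, `p ^ (ℓ + 1)` edges and girth at least `2 (ℓ + 1)`, `ℓ = 1, 2, 3`
-/

set_option autoImplicit false

namespace Pool.Agent.helper20.AL

/-- The bipartite graph of a relation. -/
def dgB {P : Type} (R : P → P → Prop) : SimpleGraph (P ⊕ P) where
  Adj x y := (∃ a b, x = .inl a ∧ y = .inr b ∧ R a b) ∨ (∃ a b, y = .inl a ∧ x = .inr b ∧ R a b)
  symm := ⟨fun _ _ h => h.symm⟩
  loopless := ⟨by
    rintro x (⟨a, b, h1, h2, -⟩ | ⟨a, b, h1, h2, -⟩) <;> rw [h1] at h2 <;> simp at h2⟩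

theorem dgB_lr {P : Type} {R : P → P → Prop} {a b : P} :
    (dgB R).Adj (.inl a) (.inr b) ↔ R a b := by
  simp [dgB]

theorem dgB_rl {P : Type} {R : P → P → Prop} {a b : P} :
    (dgB R).Adj (.inr b) (.inl a) ↔ R a b := by
  simp [dgB]

theorem dgB_ll {P : Type} {R : P → P → Prop} {a b : P} :
    ¬ (dgB R).Adj (.inl a) (.inl b) := by
  simp [dgB]

theorem dgB_rr {P : Type} {R : P → P → Prop} {a b : P} :
    ¬ (dgB R).Adj (.inr a) (.inr b) := by
  simp [dgB]

theorem dgB_card {P Y : Type} [Fintype P] [Fintype Y] (R : P → P → Prop) (f : P → Y → P)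
    (hf : ∀ a b, R a b ↔ ∃ y, f a y = b) (hinj : ∀ a y y', f a y = f a y' → y = y') :
    (dgB R).edgeSet.ncard = Fintype.card P * Fintype.card Y := by
  have h1 : (dgB R).edgeSet =
      Set.range (fun x : P × Y => (s(Sum.inl x.1, Sum.inr (f x.1 x.2)) : Sym2 (P ⊕ P))) := by
    ext e
    induction e using Sym2.ind with
    | _ x y =>
      rw [SimpleGraph.mem_edgeSet, Set.mem_range]
      constructor
      · rintro (⟨a, b, rfl, rfl, h⟩ | ⟨a, b, rfl, rfl, h⟩)
        · obtain ⟨y, rfl⟩ := (hf a b).1 h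
          exact ⟨(a, y), rfl⟩
        · obtain ⟨y, rfl⟩ := (hf a b).1 h
          exact ⟨(a, y), Sym2.eq_swap⟩
      · rintro ⟨⟨a, y'⟩, h⟩
        rw [Sym2.eq_iff] at h
        rcases h with ⟨rfl, rfl⟩ | ⟨rfl, rfl⟩
        · exact dgB_lr.2 ((hf _ _).2 ⟨_, rfl⟩)
        · exact dgB_rl.2 ((hf _ _).2 ⟨_, rfl⟩)
  rw [h1, ← Nat.card_coe_set_eq, Nat.card_range_of_injective, Nat.card_eq_fintype_card,
    Fintype.card_prod]
  rintro ⟨a, y⟩ ⟨a', y'⟩ h
  simp only [Sym2.eq_iff, Sum.inl.injEq, Sum.inr.injEq, reduceCtorEq, false_and, or_false] at h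
  obtain ⟨rfl, h⟩ := h
  rw [hinj a y y' h]

theorem dgB_girth {P : Type} (R : P → P → Prop) (ℓ : ℕ) (h3 : ℓ ≤ 3)
    (hq : 2 ≤ ℓ → ∀ a a' b b', R a b → R a' b → R a' b' → R a b' → a = a' ∨ b = b')
    (hh : 3 ≤ ℓ → ∀ x y z b c d, R x b → R y b → R y c → R z c → R z d → R x d →
      x = y ∨ y = z ∨ b = c) : Girth (dgB R) (2 * (ℓ + 1)) := by
  intro r u hr hs hc hi
  by_contra hlt
  rw [not_le] at hlt
  have alt : ∀ i < r, (u (i + 1)).isLeft = !(u i).isLeft := by
    intro i h
    rcases hs i h with ⟨a, b, e1, e2, -⟩ | ⟨a, b, e1, e2, -⟩ <;> rw [e1, e2] <;> rfl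
  have h8 : r < 8 := by omega
  have h0 := congrArg Sum.isLeft hc
  interval_cases r
  · rw [alt 2 (by omega), alt 1 (by omega), alt 0 (by omega)] at h0
    cases h : (u 0).isLeft <;> simp [h] at h0
  · have hl : 2 ≤ ℓ := by omega
    have a0 := hs 0 (by omega)
    have a1 := hs 1 (by omega)
    have a2 := hs 2 (by omega)
    have a3 := hs 3 (by omega)
    rw [show 3 + 1 = 4 from rfl, hc] at a3
    have n1 : u 0 ≠ u 2 := fun h => absurd (hi 0 (by omega) 2 (by omega) h) (by omega)
    have n2 : u 1 ≠ u 3 := fun h => absurd (hi 1 (by omega) 3 (by omega) h) (by omega)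
    simp only [Nat.zero_add, Nat.reduceAdd] at a0 a1 a2
    generalize u 0 = v0 at *
    generalize u 1 = v1 at *
    generalize u 2 = v2 at *
    generalize u 3 = v3 at *
    rcases a0 with ⟨a, b, rfl, rfl, r0⟩ | ⟨a, b, rfl, rfl, r0⟩
    · rcases v2 with a' | b'
      · rcases v3 with a'' | b''
        · exact dgB_ll a2
        · rw [dgB_rl] at a1
          rw [dgB_lr] at a2
          rw [dgB_rl] at a3
          rcases hq hl a a' b b'' r0 a1 a2 a3 with rfl | rfl
          · exact n1 rfl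
          · exact n2 rfl
      · exact dgB_rr a1
    · rcases v2 with a' | b'
      · exact dgB_ll a1
      · rcases v3 with a'' | b''
        · rw [dgB_lr] at a1
          rw [dgB_rl] at a2
          rw [dgB_lr] at a3
          rcases hq hl a a'' b b' r0 a3 a2 a1 with rfl | rfl
          · exact n2 rfl
          · exact n1 rfl
        · exact dgB_rr a2
  · rw [alt 4 (by omega), alt 3 (by omega), alt 2 (by omega), alt 1 (by omega),
      alt 0 (by omega)] at h0
    cases h : (u 0).isLeft <;> simp [h] at h0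
  · have hl : 3 ≤ ℓ := by omega
    have a0 := hs 0 (by omega)
    have a1 := hs 1 (by omega)
    have a2 := hs 2 (by omega)
    have a3 := hs 3 (by omega)
    have a4 := hs 4 (by omega)
    have a5 := hs 5 (by omega)
    rw [show 5 + 1 = 6 from rfl, hc] at a5
    have n02 : u 0 ≠ u 2 := fun h => absurd (hi 0 (by omega) 2 (by omega) h) (by omega)
    have n24 : u 2 ≠ u 4 := fun h => absurd (hi 2 (by omega) 4 (by omega) h) (by omega)
    have n13 : u 1 ≠ u 3 := fun h => absurd (hi 1 (by omega) 3 (by omega) h) (by omega)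
    have n35 : u 3 ≠ u 5 := fun h => absurd (hi 3 (by omega) 5 (by omega) h) (by omega)
    simp only [Nat.zero_add, Nat.reduceAdd] at a0 a1 a2 a3 a4
    generalize u 0 = v0 at *
    generalize u 1 = v1 at *
    generalize u 2 = v2 at *
    generalize u 3 = v3 at *
    generalize u 4 = v4 at *
    generalize u 5 = v5 at *
    rcases a0 with ⟨a, b, rfl, rfl, r0⟩ | ⟨a, b, rfl, rfl, r0⟩
    · rcases v2 with y | y
      swap
      · exact dgB_rr a1
      rcases v3 with c | c
      · exact dgB_ll a2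
      rcases v4 with z | z
      swap
      · exact dgB_rr a3
      rcases v5 with d | d
      · exact dgB_ll a4
      rw [dgB_rl] at a1 a3 a5
      rw [dgB_lr] at a2 a4
      rcases hh hl a y z b c d r0 a1 a2 a3 a4 a5 with rfl | rfl | rfl
      · exact n02 rfl
      · exact n24 rfl
      · exact n13 rfl
    · rcases v2 with y | c
      · exact dgB_ll a1
      rcases v3 with y | y
      swap
      · exact dgB_rr a2
      rcases v4 with z | d
      · exact dgB_ll a3
      rcases v5 with z | z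
      swap
      · exact dgB_rr a4
      rw [dgB_lr] at a1 a3 a5
      rw [dgB_rl] at a2 a4
      rcases hh hl a y z c d b a1 a2 a3 a4 a5 r0 with rfl | rfl | rfl
      · exact n13 rfl
      · exact n35 rfl
      · exact n24 rfl
  · rw [alt 6 (by omega), alt 5 (by omega), alt 4 (by omega), alt 3 (by omega),
      alt 2 (by omega), alt 1 (by omega), alt 0 (by omega)] at h0
    cases h : (u 0).isLeft <;> simp [h] at h0

theorem dgraph (p : ℕ) [Fact p.Prime] (ℓ : ℕ) (h1 : 1 ≤ ℓ) (h3 : ℓ ≤ 3) :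
    ∃ (α : Type) (_ : Fintype α) (_ : DecidableEq α) (B : SimpleGraph α),
      Fintype.card α = 2 * p ^ ℓ ∧ B.edgeSet.ncard = p ^ (ℓ + 1) ∧ Girth B (2 * (ℓ + 1)) := by
  interval_cases ℓ
  · refine ⟨ZMod p ⊕ ZMod p, inferInstance, inferInstance, dgB (fun _ _ => True), ?_, ?_, ?_⟩
    · rw [Fintype.card_sum, ZMod.card]
      ring
    · rw [dgB_card (Y := ZMod p) _ (fun _ y => y) (by simp) (fun _ _ _ h => h), ZMod.card]
      ring
    · exact dgB_girth _ 1 (by omega) (by omega) (by omega)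
  · refine ⟨(ZMod p × ZMod p) ⊕ (ZMod p × ZMod p), inferInstance, inferInstance,
      dgB (fun a b => a.2 + b.2 = a.1 * b.1), ?_, ?_, ?_⟩
    · rw [Fintype.card_sum, Fintype.card_prod, ZMod.card]
      ring
    · rw [dgB_card (Y := ZMod p) _ (fun a y => (y, a.1 * y - a.2)), Fintype.card_prod, ZMod.card]
      · ring
      · rintro ⟨a1, a2⟩ ⟨b1, b2⟩
        simp only [Prod.mk.injEq]
        constructor
        · intro h
          exact ⟨b1, rfl, by linear_combination -h⟩
        · rintro ⟨y, rfl, h⟩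
          linear_combination -h
      · intro a y y' h
        exact (Prod.mk.inj h).1
    · refine dgB_girth _ 2 (by omega) (fun _ => ?_) (by omega)
      rintro ⟨a1, a2⟩ ⟨c1, c2⟩ ⟨b1, b2⟩ ⟨d1, d2⟩ h1 h2 h3 h4
      simp only [Prod.mk.injEq] at h1 h2 h3 h4 ⊢
      have h5 : (a1 - c1) * (b1 - d1) = 0 := by
        linear_combination -h1 + h2 - h3 + h4
      rcases mul_eq_zero.1 h5 with h6 | h6
      · left
        have h7 := sub_eq_zero.1 h6
        subst h7
        exact ⟨rfl, by linear_combination h1 - h2⟩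
      · right
        have h7 := sub_eq_zero.1 h6
        subst h7
        exact ⟨rfl, by linear_combination h1 - h4⟩
  · refine ⟨(ZMod p × ZMod p × ZMod p) ⊕ (ZMod p × ZMod p × ZMod p), inferInstance, inferInstance,
      dgB (fun a b => a.2.1 + b.2.1 = a.1 * b.1 ∧ a.2.2 + b.2.2 = a.1 * b.2.1), ?_, ?_, ?_⟩
    · rw [Fintype.card_sum, Fintype.card_prod, Fintype.card_prod, ZMod.card]
      ring
    · rw [dgB_card (Y := ZMod p) _ (fun a y => (y, a.1 * y - a.2.1,
        a.1 * (a.1 * y - a.2.1) - a.2.2)), Fintype.card_prod, Fintype.card_prod, ZMod.card]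
      · ring
      · rintro ⟨a1, a2, a3⟩ ⟨b1, b2, b3⟩
        simp only [Prod.mk.injEq]
        constructor
        · rintro ⟨h, h'⟩
          exact ⟨b1, rfl, by linear_combination -h, by linear_combination -h' - a1 * h⟩
        · rintro ⟨y, rfl, h, h'⟩
          exact ⟨by linear_combination -h, by linear_combination -h' + a1 * h⟩
      · intro a y y' h
        exact (Prod.mk.inj h).1
    · refine dgB_girth _ 3 (by omega) (fun _ => ?_) (fun _ => ?_)
      · rintro ⟨a1, a2, a3⟩ ⟨c1, c2, c3⟩ ⟨b1, b2, b3⟩ ⟨d1, d2, d3⟩ ⟨h1, t1⟩ ⟨h2, t2⟩ ⟨h3, t3⟩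
          ⟨h4, t4⟩
        simp only [Prod.mk.injEq] at h1 h2 h3 h4 t1 t2 t3 t4 ⊢
        have h5 : (a1 - c1) * (b1 - d1) = 0 := by
          linear_combination -h1 + h2 - h3 + h4
        rcases mul_eq_zero.1 h5 with h6 | h6
        · left
          have h7 := sub_eq_zero.1 h6
          subst h7
          exact ⟨rfl, by linear_combination h1 - h2, by linear_combination t1 - t2⟩
        · right
          have h7 := sub_eq_zero.1 h6
          subst h7
          have h8 : b2 = d2 := by linear_combination h1 - h4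
          subst h8
          exact ⟨rfl, rfl, by linear_combination t1 - t4⟩
      · rintro ⟨x0, x1, x2⟩ ⟨y0, y1, y2⟩ ⟨z0, z1, z2⟩ ⟨b0, b1, b2⟩ ⟨c0, c1, c2⟩ ⟨d0, d1, d2⟩
          ⟨E1, T1⟩ ⟨E2, T2⟩ ⟨E3, T3⟩ ⟨E4, T4⟩ ⟨E5, T5⟩ ⟨E6, T6⟩
        simp only [Prod.mk.injEq] at E1 E2 E3 E4 E5 E6 T1 T2 T3 T4 T5 T6 ⊢
        have h5 : (y0 - z0) * ((y0 - x0) * (c0 - b0)) = 0 := by
          linear_combination z0 * (E1 - E2 + E3 - E4 + E5 - E6) -
            (T1 - T2 + T3 - T4 + T5 - T6) - (y0 - x0) * (E3 - E2) + (x0 - z0) * (E5 - E4)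
        rcases mul_eq_zero.1 h5 with h6 | h6
        · right; left
          have h7 := sub_eq_zero.1 h6
          subst h7
          exact ⟨rfl, by linear_combination E3 - E4, by linear_combination T3 - T4⟩
        · rcases mul_eq_zero.1 h6 with h6 | h6
          · left
            have h7 := sub_eq_zero.1 h6
            subst h7
            exact ⟨rfl, by linear_combination E1 - E2, by linear_combination T1 - T2⟩
          · right; right
            have h7 := sub_eq_zero.1 h6
            subst h7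
            have h8 : b1 = c1 := by linear_combination E2 - E3
            subst h8
            exact ⟨rfl, rfl, by linear_combination T2 - T3⟩

end Pool.Agent.helper20.AL
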