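import Pool.Agent.helper20.AL.Univ
import Pool.Agent.helper20.AL.DGraph

/-!
# AL-Lower: the lower bound for `3 ≤ k ≤ 11`

`ℓ = k / 3 ∈ {1, 2, 3}`, `2 k < 6 (ℓ + 1) = 3 * (2 (ℓ + 1))`.  Take a prime `p ≥ N + 2`, `m ≥ 2 k + 1 + N`, `α`, `B` from `dgraph`, `X = α × V` with
`V = Multiplicative (α × α → ZMod m)`, `Γ = Lift B (uv m)`; the action `g • (a, u) = (a, g * u)` (`MulAction` instance to be given inside the proof, e.g. through a type synonym or
`Prod` with the trivial action on `α`; simplest: define the instance term explicitly and pass it with `@` or `letI`), it is free, preserves `Γ`, and has `card α = 2 p ^ ℓ` orbits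
(the map `(a, u) ↦ a` induces a bijection from the orbits to `α`).  `card X = card α * card V`, `card V = m ^ (card α ^ 2) ≥ N`,
`Γ.edgeSet.ncard = B.edgeSet.ncard * card V` (count darts: `∑ degree`, every vertex `(a, u)` has the degree of `a`).  So with `v = card V`:
`(2 p ^ ℓ v) ^ ℓ * (2 p ^ ℓ) = 2 ^ (ℓ + 1) * (p ^ (ℓ + 1) * v) ^ ℓ ≤ 16 * e ^ ℓ`.
-/

set_option autoImplicit false

namespace Pool.Agent.helper20.AL

/-- The left action on the second coordinate. -/
def LX (α V : Type) : Type := α × V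

instance lxAct (α V : Type) [Group V] : MulAction V (LX α V) where
  smul g x := (x.1, g * x.2)
  one_smul x := by
    show ((x.1, 1 * x.2) : α × V) = x
    rw [one_mul]
    rfl
  mul_smul g h x := by
    show ((x.1, g * h * x.2) : α × V) = (x.1, g * (h * x.2))
    rw [mul_assoc]

private theorem Lower_deg {α V : Type} [Group V] (B : SimpleGraph α) (φ : α → α → V)
    (hφ : ∀ a b, φ b a = (φ a b)⁻¹) [Fintype α] [Fintype V] :
    (Lift B φ).edgeSet.ncard = B.edgeSet.ncard * Fintype.card V := by
  classical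
  have h1 : ∀ (β : Type) [Fintype β] (G : SimpleGraph β),
      2 * G.edgeSet.ncard = ∑ v, G.degree v := by
    intro β _ G
    rw [SimpleGraph.sum_degrees_eq_twice_card_edges, Set.ncard_eq_toFinset_card']
    congr 1
  have h2 : ∀ x : α × V, (Lift B φ).degree x = B.degree x.1 := by
    intro x
    rw [← SimpleGraph.card_neighborFinset_eq_degree, ← SimpleGraph.card_neighborFinset_eq_degree]
    have h3 : (Lift B φ).neighborFinset x =
        (B.neighborFinset x.1).image (fun b => (b, x.2 * φ x.1 b)) := by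
      ext y
      rw [Finset.mem_image, SimpleGraph.mem_neighborFinset]
      constructor
      · intro h
        refine ⟨y.1, ?_, ?_⟩
        · rw [SimpleGraph.mem_neighborFinset]
          exact h.1
        · exact Prod.ext rfl h.2.1.symm
      · rintro ⟨b, hb, rfl⟩
        rw [SimpleGraph.mem_neighborFinset] at hb
        refine ⟨hb, rfl, ?_⟩
        show x.2 = x.2 * φ x.1 b * φ b x.1
        rw [hφ x.1 b, mul_assoc, mul_inv_cancel, mul_one]
    rw [h3, Finset.card_image_of_injective]
    intro b c hbc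
    exact congrArg Prod.fst hbc
  have h4 := h1 (α × V) (Lift B φ)
  rw [Fintype.sum_prod_type] at h4
  have h5 : ∑ a, ∑ u : V, (Lift B φ).degree (a, u) = ∑ a, ∑ _u : V, B.degree a :=
    Finset.sum_congr rfl fun a _ => Finset.sum_congr rfl fun u _ => h2 (a, u)
  rw [h5] at h4
  simp only [Finset.sum_const, Finset.card_univ, smul_eq_mul] at h4
  rw [← Finset.mul_sum, ← h1 α B] at h4
  nlinarith [h4]

private theorem Lower_orb {α V : Type} [Group V] :
    Nat.card (MulAction.orbitRel.Quotient V (LX α V)) = Nat.card α := by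
  refine Nat.card_congr
    { toFun := Quotient.lift (fun x : LX α V => x.1) ?_
      invFun := fun a => Quotient.mk _ ((a, 1) : α × V)
      left_inv := ?_
      right_inv := ?_ }
  · rintro x y ⟨g, hg⟩
    have h : (g • y).1 = x.1 := congrArg Prod.fst hg
    exact h.symm
  · intro q
    induction q using Quotient.inductionOn with
    | h x =>
      apply Quotient.sound
      refine ⟨(x.2)⁻¹, ?_⟩
      show ((x.1, (x.2)⁻¹ * x.2) : α × V) = (x.1, 1)
      rw [inv_mul_cancel]
  · intro a
    rfl

theorem lower (k : ℕ) (hk : 3 ≤ k) (hk' : k ≤ 11) (N : ℕ) : ∃ (X : Type) (_ : Fintype X)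
    (Γ : SimpleGraph X) (A : Type) (_ : CommGroup A) (_ : MulAction A X),
    (∀ (g : A) (u v : X), Γ.Adj u v → Γ.Adj (g • u) (g • v)) ∧
    (∀ (g : A) (u : X), g • u = u → g = 1) ∧
    ¬ (SimpleGraph.cycleGraph (2 * k)).IsContained Γ ∧
    N ≤ Nat.card (MulAction.orbitRel.Quotient A X) ∧
    N * Nat.card (MulAction.orbitRel.Quotient A X) ≤ Fintype.card X ∧
    Fintype.card X ^ (k / 3) * Nat.card (MulAction.orbitRel.Quotient A X) ≤
      16 * Γ.edgeSet.ncard ^ (k / 3) := by
  set ℓ := k / 3 with hℓ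
  have h1 : 1 ≤ ℓ := by omega
  have h3 : ℓ ≤ 3 := by omega
  obtain ⟨p, hpN, hp⟩ := Nat.exists_infinite_primes (N + 2)
  have : Fact p.Prime := ⟨hp⟩
  set m := 2 * k + 1 + N with hm
  have : NeZero m := ⟨by omega⟩
  obtain ⟨α, hfα, hdα, B, hcard, hedge, hgirth⟩ := dgraph p ℓ h1 h3
  have hcX : ∀ _inst : Fintype (LX α (Multiplicative (α × α → ZMod m))),
      Fintype.card (LX α (Multiplicative (α × α → ZMod m))) =
      Fintype.card α * Fintype.card (Multiplicative (α × α → ZMod m)) := by
    intro _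
    rw [← Nat.card_eq_fintype_card]
    show Nat.card (α × Multiplicative (α × α → ZMod m)) = _
    rw [Nat.card_prod, Nat.card_eq_fintype_card, Nat.card_eq_fintype_card]
  have hpl : p ≤ p ^ ℓ := Nat.le_self_pow (by omega) p
  have hV : N ≤ Fintype.card (Multiplicative (α × α → ZMod m)) := by
    rw [Fintype.card_multiplicative, Fintype.card_fun, ZMod.card, Fintype.card_prod]
    have h5 : m ≤ m ^ (Fintype.card α * Fintype.card α) := by
      apply Nat.le_self_pow
      have h6 : 0 < Fintype.card α := by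
        rw [hcard]
        omega
      positivity
    omega
  have horb : Nat.card (MulAction.orbitRel.Quotient (Multiplicative (α × α → ZMod m))
      (LX α (Multiplicative (α × α → ZMod m)))) = 2 * p ^ ℓ := by
    rw [Lower_orb, Nat.card_eq_fintype_card, hcard]
  have hfin : (2 * p ^ ℓ * Fintype.card (Multiplicative (α × α → ZMod m))) ^ ℓ * (2 * p ^ ℓ) ≤
      16 * (Lift B (uv m)).edgeSet.ncard ^ ℓ := by
    rw [Lower_deg B (uv m) (fun a b => uv_anti m a b), hedge]
    generalize Fintype.card (Multiplicative (α × α → ZMod m)) = v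
    have h7 : ℓ = 1 ∨ ℓ = 2 ∨ ℓ = 3 := by omega
    rcases h7 with h7 | h7 | h7
    · rw [h7]
      calc (2 * p ^ 1 * v) ^ 1 * (2 * p ^ 1) = 4 * (p ^ (1 + 1) * v) ^ 1 := by ring
        _ ≤ _ := Nat.mul_le_mul_right _ (by norm_num)
    · rw [h7]
      calc (2 * p ^ 2 * v) ^ 2 * (2 * p ^ 2) = 8 * (p ^ (2 + 1) * v) ^ 2 := by ring
        _ ≤ _ := Nat.mul_le_mul_right _ (by norm_num)
    · rw [h7]
      calc (2 * p ^ 3 * v) ^ 3 * (2 * p ^ 3) = 16 * (p ^ (3 + 1) * v) ^ 3 := by ring
        _ ≤ _ := Nat.mul_le_mul_right _ (by norm_num)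
  refine ⟨LX α (Multiplicative (α × α → ZMod m)),
    inferInstanceAs (Fintype (α × Multiplicative (α × α → ZMod m))),
    (Lift B (uv m) : SimpleGraph (α × Multiplicative (α × α → ZMod m))),
    Multiplicative (α × α → ZMod m), inferInstance,
    lxAct α (Multiplicative (α × α → ZMod m)), ?_, ?_, ?_, ?_, ?_, ?_⟩
  · intro g x y h
    refine ⟨h.1, ?_, ?_⟩
    · show g * y.2 = g * x.2 * uv m x.1 y.1
      rw [mul_assoc, ← h.2.1]
    · show g * x.2 = g * y.2 * uv m y.1 x.1
      rw [mul_assoc, ← h.2.2]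
  · intro g x h
    have h' : g * x.2 = x.2 := congrArg Prod.snd h
    exact mul_eq_right.1 h'
  · exact univ_free B (2 * (ℓ + 1)) k m hgirth (by omega) (by omega) (by omega)
  · rw [horb]
    omega
  · rw [horb, hcX, hcard, mul_comm N]
    exact Nat.mul_le_mul_left _ hV
  · rw [horb, hcX, hcard]
    exact hfin

end Pool.Agent.helper20.AL
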