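import Pool.Agent.helper20.AL.Defs

/-!
# AL-Lists: closed lists of vertices and lifted arcs

`contained_of_list`: with `l.length = n`, the map `Fin n → β`, `i ↦ l[i]` is injective (`Nodup`) and a homomorphism from the cycle
graph; or use `Pool.Agent.Helper20.EC.contained_of_seq` (statement: a function `f : ℕ → β` with `Adj (f i) (f (i + 1))` for `i < n`,
`f n = f 0`, injective on `i < n`) with `f i = l[i % n]` (copy its short proof, do not import it).

`arc`: the lift of the walk `q :: (L ++ [p])` starting at `(q, g)`.  As `L` is `Nodup` there is a function `c` with `c x` = the product of the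
voltages from `q` to the occurrence of `x` in `L`; so the lift is the list
`(q, g) :: (L.map (fun x => (x, g * c x)) ++ [(p, g * hol φ q (L ++ [p]))])`.  Induction on `L` (generalizing `q`): for `L = b :: L'`
with the function `c'` of the walk `b :: (L' ++ [p])` put `c x = φ q b` if `x = b`, else `φ q b * c' x` (`b ∉ L'`).
-/

set_option autoImplicit false

namespace Pool.Agent.helper20.AL

/-- A closed sequence of distinct vertices gives a copy of the cycle graph. -/
private theorem lists_of_seq {V : Type*} {Γ : SimpleGraph V} {n : ℕ} (f : ℕ → V)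
    (hadj : ∀ i < n, Γ.Adj (f i) (f (i + 1))) (hcl : f n = f 0)
    (hinj : ∀ i < n, ∀ j < n, f i = f j → i = j) : (SimpleGraph.cycleGraph n).IsContained Γ := by
  have key : ∀ u v : Fin n, (v - u).val = 1 → Γ.Adj (f u) (f v) := by
    intro u v h
    obtain ⟨u, hu⟩ := u
    obtain ⟨v, hv⟩ := v
    rw [Fin.sub_def] at h
    simp only at h
    have h1 := hadj u hu
    by_cases h2 : u + 1 < n
    · have : v = u + 1 := by
        by_cases h3 : u ≤ v
        · rw [show n - u + v = (v - u) + n by omega, Nat.add_mod_right,
            Nat.mod_eq_of_lt (by omega)] at h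
          omega
        · rw [Nat.mod_eq_of_lt (by omega)] at h
          omega
      subst this
      exact h1
    · have h3 : u + 1 = n := by omega
      have : v = 0 := by
        rw [show n - u = 1 by omega] at h
        by_cases h4 : 1 + v < n
        · rw [Nat.mod_eq_of_lt h4] at h
          omega
        · rw [show 1 + v = n by omega, Nat.mod_self] at h
          omega
      subst this
      rw [h3, hcl] at h1
      exact h1
  refine ⟨⟨⟨fun i => f i, ?_⟩, ?_⟩⟩
  · intro u v h
    rw [SimpleGraph.cycleGraph_adj'] at h
    rcases h with h | h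
    · exact (key v u h).symm
    · exact key u v h
  · intro u v h
    exact Fin.ext (hinj u u.2 v v.2 h)

theorem contained_of_list {β : Type*} {Γ : SimpleGraph β} (l : List β) (h0 : l ≠ [])
    (hn : l.Nodup) (hc : l.IsChain Γ.Adj) (hcl : Γ.Adj (l.getLast h0) (l.head h0)) :
    HasC Γ l.length := by
  have hpos : 0 < l.length := List.length_pos_iff.2 h0
  refine lists_of_seq (fun i => l[i % l.length]'(Nat.mod_lt _ hpos)) ?_ ?_ ?_
  · intro i hi
    by_cases h1 : i + 1 < l.length
    · have h2 := List.isChain_iff_getElem.1 hc i h1
      simp only [Nat.mod_eq_of_lt hi, Nat.mod_eq_of_lt h1]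
      exact h2
    · have h3 : i + 1 = l.length := by omega
      have h4 : i = l.length - 1 := by omega
      rw [List.getLast_eq_getElem, List.head_eq_getElem] at hcl
      simp only [h3, Nat.mod_self, Nat.mod_eq_of_lt hi]
      simp only [h4]
      exact hcl
  · simp only [Nat.mod_self, Nat.zero_mod]
  · intro i hi j hj h
    simp only [Nat.mod_eq_of_lt hi, Nat.mod_eq_of_lt hj] at h
    exact (hn.getElem_inj_iff).1 h

theorem arc {α V : Type*} [Group V] {B : SimpleGraph α} {φ : α → α → V}
    (anti : ∀ a b, φ b a = (φ a b)⁻¹) (p : α) (L : List α) : ∀ q : α,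
    (q :: (L ++ [p])).IsChain B.Adj → L.Nodup →
    ∃ c : α → V, ∀ g : V, ((q, g) :: (L.map (fun x => (x, g * c x)) ++
      [(p, g * hol φ q (L ++ [p]))])).IsChain (Lift B φ).Adj := by
  classical
  induction L with
  | nil =>
    intro q hch _
    refine ⟨fun _ => 1, fun g => ?_⟩
    simp only [List.nil_append, List.map_nil] at hch ⊢
    rw [List.isChain_cons_cons] at hch ⊢
    refine ⟨⟨hch.1, ?_, ?_⟩, ?_⟩
    · simp [hol]
    · simp [hol, anti q p]
    · exact List.isChain_singleton _
  | cons b L ih =>
    intro q hch hnd
    rw [List.cons_append, List.isChain_cons_cons] at hch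
    rw [List.nodup_cons] at hnd
    obtain ⟨c', hc'⟩ := ih b hch.2 hnd.2
    refine ⟨fun x => if x = b then φ q b else φ q b * c' x, fun g => ?_⟩
    have h1 := hc' (g * φ q b)
    have h2 : L.map (fun x => (x, g * (if x = b then φ q b else φ q b * c' x))) =
        L.map (fun x => (x, g * φ q b * c' x)) := by
      apply List.map_congr_left
      intro x hx
      have hxb : x ≠ b := fun h => hnd.1 (h ▸ hx)
      rw [if_neg hxb, mul_assoc]
    have h3 : g * hol φ q (b :: L ++ [p]) = g * φ q b * hol φ b (L ++ [p]) := by
      show g * (φ q b * hol φ b (L ++ [p])) = _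
      rw [mul_assoc]
    rw [List.map_cons, List.cons_append, List.isChain_cons_cons]
    simp only [if_true]
    rw [h2, h3]
    exact ⟨⟨hch.1, rfl, by simp [anti q b]⟩, h1⟩

end Pool.Agent.helper20.AL
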