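import Pool.Agent.helper20.AL.Defs

/-!
# AL-Path: alternating paths in a core, and arcs from a vertex of the last level to `p`

`build`: PROOF by induction on `n` (generalizing `Fb, Fz, z`).  Step: `w` from `zw` for `z` with `F = Fb`, `F' = ∅`; `z₁` from `wz` for `w` with
`F = insert z Fz`; the induction hypothesis for `insert (bra w) Fb`, `insert z Fz`, `z₁` gives `P'`; `P = (w, z₁) :: P'`.

`tw_chain`, `hol_tw`, `tw_nodup`, `tw_brx`: `tw par h w = [w, par w, …, par^[h-1] w]`, the levels are `j, j - 1, …, j - h + 1`.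
Iterates: `par^[r] w` has level `j - r` for `r ≤ j`, it is adjacent to `par^[r + 1] w` (`Function.iterate_succ_apply'`), and
the voltage `φ (par^[r] w) (par^[r + 1] w)` is `1` (`anti`, `gauge`).  `brx lev par (j - h) (par^[r] w) = par^[h - 1 - r] (par^[r] w) = par^[h - 1] w`.

`arcZ`: take `P`, `z'` from `build` for `n`, `Fb`, `Fz`, `z` and then `w` from `zw` for `z'` with `F = Fb ∪ {branches of P}` and
`F' =` the set of the values of `φ w z'` which would give a holonomy in `Fc` (if `c` is the product of the voltages along the flattened `P`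
from `z` to `z'` then the holonomy of the arc is `c * (φ w z')⁻¹ * 1`, so `F' = Fc.image (fun f => (c⁻¹ * f)⁻¹)`).
`L = P.flatMap (fun x => [x.1, x.2]) ++ tw par h w`.
`Fb' = insert (par^[h-1] w) (Fb ∪ {par^[h-1] x.1 : x ∈ P})`, `Fz' = Fz ∪ {x.2 : x ∈ P}`.
All `x ∈ L` are: `x.1` with `x ∈ P` (level `j`, branch `par^[h-1] x.1`, not in `Fb`), `x.2` with `x ∈ P` (level `j + 1`, not in `Fz`), or
in `tw par h w` (levels `j - h + 1 … j`, branch `par^[h-1] w`).  `Nodup`: the branches of `w₁, …, wₙ, w` are different, so the vertices of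
level at most `j` are different, the `zᵢ` are different.
-/

set_option autoImplicit false

namespace Pool.Agent.helper20.AL

open Finset

theorem build {α ζ β γ : Type*} [DecidableEq ζ] [DecidableEq β] {R : α → ζ → Prop}
    {bra : α → β} {cl : α → ζ → γ} {W : Finset α} {Z : Finset ζ} {M : ℕ}
    (hC : Core R bra cl W Z M) (n : ℕ) : ∀ (Fb : Finset β) (Fz : Finset ζ) (z : ζ), z ∈ Z →
    Fb.card + Fz.card + 2 * n + 2 ≤ M →
    ∃ (P : List (α × ζ)) (z' : ζ), P.length = n ∧ z' ∈ Z ∧ AP R z P z' ∧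
      (P.map (fun x => bra x.1)).Nodup ∧ (P.map Prod.snd).Nodup ∧
      ∀ x ∈ P, x.1 ∈ W ∧ x.2 ∈ Z ∧ bra x.1 ∉ Fb ∧ x.2 ∉ Fz ∧ x.2 ≠ z := by
  induction n with
  | zero =>
    intro Fb Fz z hz _
    exact ⟨[], z, rfl, hz, rfl, List.nodup_nil, List.nodup_nil, by simp⟩
  | succ n ih =>
    intro Fb Fz z hz hM
    obtain ⟨w, hw, hwz, hwb, -⟩ := hC.zw z hz Fb ∅ (by rw [Finset.card_empty]; omega)
    obtain ⟨z₁, hz₁, hwz₁, hz₁F⟩ := hC.wz w hw (insert z Fz) (by
      have := Finset.card_insert_le z Fz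
      omega)
    obtain ⟨P, z', hP, hz', hAP, hnb, hnz, hall⟩ := ih (insert (bra w) Fb) (insert z Fz) z₁ hz₁ (by
      have h1 := Finset.card_insert_le z Fz
      have h2 := Finset.card_insert_le (bra w) Fb
      omega)
    refine ⟨(w, z₁) :: P, z', by simp [hP], hz', ⟨hwz, hwz₁, hAP⟩, ?_, ?_, ?_⟩
    · rw [List.map_cons, List.nodup_cons]
      refine ⟨?_, hnb⟩
      intro h
      obtain ⟨x, hx, hxe⟩ := List.mem_map.1 h
      exact (hall x hx).2.2.1 (by rw [hxe]; exact Finset.mem_insert_self _ _)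
    · rw [List.map_cons, List.nodup_cons]
      refine ⟨?_, hnz⟩
      intro h
      obtain ⟨x, hx, hxe⟩ := List.mem_map.1 h
      exact (hall x hx).2.2.2.2 hxe
    · intro x hx
      rcases List.mem_cons.1 hx with rfl | hx
      · rw [Finset.mem_insert, not_or] at hz₁F
        exact ⟨hw, hz₁, hwb, hz₁F.2, hz₁F.1⟩
      · obtain ⟨h1, h2, h3, h4, h5⟩ := hall x hx
        rw [Finset.mem_insert, not_or] at h3 h4
        exact ⟨h1, h2, h3.2, h4.2, h4.1⟩

section

variable {α V : Type*} [Group V] {B : SimpleGraph α} {φ : α → α → V} {lev : α → ℕ}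
  {par : α → α}

private theorem Path_tw_succ (par : α → α) (h : ℕ) (w : α) :
    tw par (h + 1) w = w :: tw par h (par w) := by
  unfold tw
  rw [List.range_succ_eq_map, List.map_cons, List.map_map]
  rfl

private theorem Path_lev (hT : TreeOn B φ lev par) (r : ℕ) (w : α) (h : r ≤ lev w) :
    lev (par^[r] w) + r = lev w := by
  induction r with
  | zero => rfl
  | succ r ih =>
    have h1 := ih (by omega)
    rw [Function.iterate_succ_apply']
    have h2 := hT.lv (par^[r] w) (by omega)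
    omega

private theorem Path_up (hT : TreeOn B φ lev par) : ∀ (h : ℕ) (w : α), h + 1 ≤ lev w →
    (w :: (tw par h (par w) ++ [par^[h + 1] w])).IsChain B.Adj ∧
      hol φ w (tw par h (par w) ++ [par^[h + 1] w]) = 1 := by
  intro h
  induction h with
  | zero =>
    intro w hw
    have h1 : B.Adj w (par w) := (hT.adj w (by omega)).symm
    have h2 : φ w (par w) = 1 := by
      rw [hT.anti (par w) w, hT.gauge w (by omega), inv_one]
    refine ⟨?_, ?_⟩
    · simpa [tw] using h1
    · simp [tw, hol, h2]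
  | succ h ih =>
    intro w hw
    have h1 : B.Adj w (par w) := (hT.adj w (by omega)).symm
    have h2 : φ w (par w) = 1 := by
      rw [hT.anti (par w) w, hT.gauge w (by omega), inv_one]
    have h3 := hT.lv w (by omega)
    obtain ⟨h4, h5⟩ := ih (par w) (by omega)
    rw [Path_tw_succ, List.cons_append]
    have h6 : par^[h + 1 + 1] w = par^[h + 1] (par w) := rfl
    rw [h6]
    refine ⟨List.isChain_cons_cons.2 ⟨h1, h4⟩, ?_⟩
    rw [hol, h2, h5, one_mul]

/-- The path upwards from `w` to its ancestor `p`. -/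
theorem tw_chain (hT : TreeOn B φ lev par) (h : ℕ) (h1 : 1 ≤ h) (w p : α) (hj : h ≤ lev w)
    (hp : par^[h] w = p) : (tw par h w ++ [p]).IsChain B.Adj := by
  obtain ⟨g, rfl⟩ : ∃ g, h = g + 1 := ⟨h - 1, by omega⟩
  rw [Path_tw_succ, List.cons_append, ← hp]
  exact (Path_up hT g w hj).1

theorem hol_tw (hT : TreeOn B φ lev par) (h : ℕ) (h1 : 1 ≤ h) (w p : α) (hj : h ≤ lev w)
    (hp : par^[h] w = p) (z : α) : hol φ z (tw par h w ++ [p]) = φ z w := by
  obtain ⟨g, rfl⟩ : ∃ g, h = g + 1 := ⟨h - 1, by omega⟩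
  rw [Path_tw_succ, List.cons_append, ← hp, hol, (Path_up hT g w hj).2, mul_one]

theorem tw_nodup (hT : TreeOn B φ lev par) (h : ℕ) (w : α) (hj : h ≤ lev w) :
    (tw par h w).Nodup := by
  unfold tw
  refine List.Nodup.map_on ?_ List.nodup_range
  intro r hr s hs hrs
  rw [List.mem_range] at hr hs
  have h1 := Path_lev hT r w (by omega)
  have h2 := Path_lev hT s w (by omega)
  rw [hrs] at h1
  omega

theorem tw_brx (hT : TreeOn B φ lev par) (h : ℕ) (w : α) (hj : h ≤ lev w) (x : α)
    (hx : x ∈ tw par h w) : lev w - h < lev x ∧ lev x ≤ lev w ∧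
      brx lev par (lev w - h) x = par^[h - 1] w := by
  unfold tw at hx
  obtain ⟨r, hr, rfl⟩ := List.mem_map.1 hx
  rw [List.mem_range] at hr
  have h1 := Path_lev hT r w (by omega)
  refine ⟨by omega, by omega, ?_⟩
  unfold brx
  rw [← Function.iterate_add_apply]
  congr 1
  omega

private theorem Path_hol (z z' : α) (P : List (α × α)) (hP : AP B.Adj z P z') (l : List α) :
    hol φ z (P.flatMap (fun x => [x.1, x.2]) ++ l) =
      hol φ z (P.flatMap (fun x => [x.1, x.2])) * hol φ z' l := by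
  induction P generalizing z with
  | nil =>
    have h : z' = z := hP
    subst h
    simp [hol]
  | cons x P ih =>
    obtain ⟨-, -, h3⟩ := hP
    simp only [List.flatMap_cons, List.cons_append, List.nil_append, hol, ih x.2 h3, mul_assoc]

private theorem Path_chain (z z' : α) (P : List (α × α)) (hP : AP B.Adj z P z') (l : List α)
    (hl : (z' :: l).IsChain B.Adj) :
    (z :: (P.flatMap (fun x => [x.1, x.2]) ++ l)).IsChain B.Adj := by
  induction P generalizing z with
  | nil =>
    have h : z' = z := hP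
    subst h
    simpa using hl
  | cons x P ih =>
    obtain ⟨h1, h2, h3⟩ := hP
    simp only [List.flatMap_cons, List.cons_append, List.nil_append]
    exact List.isChain_cons_cons.2 ⟨h1.symm, List.isChain_cons_cons.2 ⟨h2, ih x.2 h3⟩⟩

private theorem Path_len (P : List (α × α)) :
    (P.flatMap (fun x => [x.1, x.2])).length = 2 * P.length := by
  induction P with
  | nil => rfl
  | cons x P ih =>
    simp only [List.flatMap_cons, List.cons_append, List.nil_append, List.length_cons, ih]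
    ring

private theorem Path_mem (P : List (α × α)) (y : α) (hy : y ∈ P.flatMap (fun x => [x.1, x.2])) :
    ∃ x ∈ P, y = x.1 ∨ y = x.2 := by
  obtain ⟨x, hx, h⟩ := List.mem_flatMap.1 hy
  refine ⟨x, hx, ?_⟩
  simpa using h

private theorem Path_nodup {β : Type*} (bra : α → β) (j : ℕ) (P : List (α × α))
    (hb : (P.map (fun x => bra x.1)).Nodup) (hz : (P.map Prod.snd).Nodup)
    (h1 : ∀ x ∈ P, lev x.1 = j) (h2 : ∀ x ∈ P, lev x.2 = j + 1) :
    (P.flatMap (fun x => [x.1, x.2])).Nodup := by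
  induction P with
  | nil => simp
  | cons x P ih =>
    rw [List.map_cons, List.nodup_cons] at hb hz
    have hx1 := h1 x List.mem_cons_self
    have hx2 := h2 x List.mem_cons_self
    have ih' := ih hb.2 hz.2 (fun y hy => h1 y (List.mem_cons_of_mem _ hy))
      fun y hy => h2 y (List.mem_cons_of_mem _ hy)
    simp only [List.flatMap_cons, List.cons_append, List.nil_append, List.nodup_cons,
      List.mem_cons, not_or]
    refine ⟨⟨?_, ?_⟩, ?_, ih'⟩
    · intro h
      rw [h] at hx1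
      omega
    · intro h
      obtain ⟨y, hy, hxy⟩ := Path_mem P _ h
      rcases hxy with hxy | hxy
      · exact hb.1 (List.mem_map.2 ⟨y, hy, by rw [hxy]⟩)
      · have := h2 y (List.mem_cons_of_mem _ hy)
        rw [hxy] at hx1
        omega
    · intro h
      obtain ⟨y, hy, hxy⟩ := Path_mem P _ h
      rcases hxy with hxy | hxy
      · have := h1 y (List.mem_cons_of_mem _ hy)
        rw [hxy] at hx2
        omega
      · exact hz.1 (List.mem_map.2 ⟨y, hy, by rw [hxy]⟩)

theorem arcZ [DecidableEq α] (hT : TreeOn B φ lev par) {h j : ℕ} {p : α} {W Z : Finset α} {M : ℕ}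
    (h1 : 1 ≤ h) (hj : h ≤ j) (hW : ∀ w ∈ W, lev w = j ∧ par^[h] w = p)
    (hZ : ∀ z ∈ Z, lev z = j + 1) (hC : Core B.Adj (par^[h - 1]) φ W Z M)
    (n : ℕ) (Fb Fz : Finset α) (Fc : Finset V) (z : α) (hz : z ∈ Z) (hzF : z ∈ Fz)
    (hM : Fb.card + Fz.card + Fc.card + 3 * n + 6 ≤ M) :
    ∃ (L : List α) (Fb' Fz' : Finset α), L.length = h + 2 * n ∧
      (z :: (L ++ [p])).IsChain B.Adj ∧ L.Nodup ∧ hol φ z (L ++ [p]) ∉ Fc ∧
      Fb ⊆ Fb' ∧ Fz ⊆ Fz' ∧ Fb'.card ≤ Fb.card + n + 1 ∧ Fz'.card ≤ Fz.card + n ∧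
      ∀ x ∈ L, Free lev par (j - h) j Fb Fz x ∧ Used lev par (j - h) j Fb' Fz' x := by
  classical
  obtain ⟨P, z', hPn, hz', hAP, hnb, hnz, hall⟩ := build hC n Fb Fz z hz (by omega)
  obtain ⟨c, hc⟩ : ∃ c, c = hol φ z (P.flatMap (fun x => [x.1, x.2])) := ⟨_, rfl⟩
  have hcb : (Fb ∪ (P.map (fun x => par^[h - 1] x.1)).toFinset).card ≤ Fb.card + n := by
    refine (Finset.card_union_le _ _).trans ?_
    have h2 := List.toFinset_card_le (P.map (fun x => par^[h - 1] x.1))
    rw [List.length_map, hPn] at h2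
    omega
  have hcz : (Fz ∪ (P.map Prod.snd).toFinset).card ≤ Fz.card + n := by
    refine (Finset.card_union_le _ _).trans ?_
    have h2 := List.toFinset_card_le (P.map Prod.snd)
    rw [List.length_map, hPn] at h2
    omega
  obtain ⟨w, hw, hwz, hwb, hwc⟩ := hC.zw z' hz' (Fb ∪ (P.map (fun x => par^[h - 1] x.1)).toFinset)
    (Fc.image (fun f => (c⁻¹ * f)⁻¹)) (by
      have h2 : (Fc.image (fun f => (c⁻¹ * f)⁻¹)).card ≤ Fc.card := Finset.card_image_le
      omega)
  obtain ⟨hwj, hwp⟩ := hW w hw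
  rw [Finset.mem_union, not_or] at hwb
  obtain ⟨hwb1, hwb2⟩ := hwb
  have hwb3 : ∀ x ∈ P, par^[h - 1] x.1 ≠ par^[h - 1] w := by
    intro x hx he
    exact hwb2 (List.mem_toFinset.2 (List.mem_map.2 ⟨x, hx, he⟩))
  have hP1 : ∀ x ∈ P, lev x.1 = j := fun x hx => (hW x.1 (hall x hx).1).1
  have hP2 : ∀ x ∈ P, lev x.2 = j + 1 := fun x hx => hZ x.2 (hall x hx).2.1
  have hhw : h ≤ lev w := by omega
  have htw : ∀ x ∈ tw par h w, j - h < lev x ∧ lev x ≤ j ∧
      brx lev par (j - h) x = par^[h - 1] w := by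
    intro x hx
    have h2 := tw_brx hT h w hhw x hx
    rw [hwj] at h2
    exact h2
  have hbr : ∀ x ∈ P, brx lev par (j - h) x.1 = par^[h - 1] x.1 := by
    intro x hx
    unfold brx
    rw [hP1 x hx]
    congr 1
    omega
  refine ⟨P.flatMap (fun x => [x.1, x.2]) ++ tw par h w,
    insert (par^[h - 1] w) (Fb ∪ (P.map (fun x => par^[h - 1] x.1)).toFinset),
    Fz ∪ (P.map Prod.snd).toFinset, ?_, ?_, ?_, ?_, ?_, Finset.subset_union_left, ?_, hcz, ?_⟩
  · rw [List.length_append, Path_len, hPn]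
    unfold tw
    rw [List.length_map, List.length_range]
    omega
  · rw [List.append_assoc]
    refine Path_chain z z' P hAP _ ?_
    have h2 := tw_chain hT h h1 w p hhw hwp
    obtain ⟨g, rfl⟩ : ∃ g, h = g + 1 := ⟨h - 1, by omega⟩
    rw [Path_tw_succ, List.cons_append] at h2 ⊢
    exact List.isChain_cons_cons.2 ⟨hwz.symm, h2⟩
  · rw [List.nodup_append]
    refine ⟨Path_nodup (fun a => par^[h - 1] a) j P hnb hnz hP1 hP2, tw_nodup hT h w hhw, ?_⟩
    intro a ha b hb hab
    subst hab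
    obtain ⟨h2, h3, h4⟩ := htw a hb
    obtain ⟨x, hx, hax⟩ := Path_mem P a ha
    rcases hax with rfl | rfl
    · rw [hbr x hx] at h4
      exact hwb3 x hx h4
    · have := hP2 x hx
      omega
  · rw [List.append_assoc, Path_hol z z' P hAP, hol_tw hT h h1 w p hhw hwp, ← hc]
    intro h2
    refine hwc (Finset.mem_image.2 ⟨_, h2, ?_⟩)
    rw [inv_mul_cancel_left, ← hT.anti]
  · exact Finset.subset_union_left.trans (Finset.subset_insert _ _)
  · have h2 := Finset.card_insert_le (par^[h - 1] w)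
      (Fb ∪ (P.map (fun x => par^[h - 1] x.1)).toFinset)
    omega
  · intro x hx
    rcases List.mem_append.1 hx with hx | hx
    · obtain ⟨y, hy, hxy⟩ := Path_mem P x hx
      obtain ⟨-, -, h4, h5, -⟩ := hall y hy
      rcases hxy with rfl | rfl
      · have h6 := hP1 y hy
        refine ⟨Or.inl ⟨by omega, by omega, ?_⟩, Or.inl ⟨by omega, by omega, ?_⟩⟩
        · rw [hbr y hy]
          exact h4
        · rw [hbr y hy]
          exact Finset.mem_insert_of_mem (Finset.mem_union_right _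
            (List.mem_toFinset.2 (List.mem_map.2 ⟨y, hy, rfl⟩)))
      · have h6 := hP2 y hy
        exact ⟨Or.inr ⟨h6, h5⟩, Or.inr ⟨h6, Finset.mem_union_right _
          (List.mem_toFinset.2 (List.mem_map.2 ⟨y, hy, rfl⟩))⟩⟩
    · obtain ⟨h2, h3, h4⟩ := htw x hx
      refine ⟨Or.inl ⟨h2, h3, ?_⟩, Or.inl ⟨h2, h3, ?_⟩⟩
      · rw [h4]
        exact hwb1
      · rw [h4]
        exact Finset.mem_insert_self _ _

end

end Pool.Agent.helper20.AL
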