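import Pool.Agent.helper20.AL.Elim
import Pool.Agent.helper20.AL.Path
import Pool.Agent.helper20.AL.Lists

/-!
# AL-BS: the lifted graph between the lifted levels is sparse

Proofs by helper11.

`W` lies on level `j` below `p` (height `h`), `Z` on level `j + 1`.  Relation `R w x := B.Adj w x.1 ∧ φ w x.1 = x.2` for `w ∈ W`,
`x : α × V`; it says that `(w, 1)` and `x` are adjacent in `Lift B φ`.
PROOF.  Otherwise `spread0` (for `ζ = α × V`, `bra = par^[h-1]`, `W`, `Zt`, the same `s`) gives a core `W', Z'`.  Its hypothesis `hs`: for `Z' ⊆ Zt`,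
`ed R (W.filter ..) Z' ≤ ed B.Adj (W.filter ..) (Z'.image Prod.fst)` because `(w, x) ↦ (w, x.1)` is injective on the pairs
in the relation (`x.2 = φ w x.1`), and `(Z'.image Prod.fst).card ≤ Z'.card`, so `hs` applies.
In the core take `x ∈ Z'` and `P`, `x'` from `build` with `n = k - h - 1`, `Fb = ∅`, `Fz = {x}`, then `w` from `zw` for `x'` with
`F =` the branches of `P`, and `w₀` from `zw` for `x` with `F =` the branches of `P` and of `w` (`M ≥ 2 k + 4` is enough).
The closed list of vertices of `Lift B φ` (all vertices of the tree are lifted with voltage `1`)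
`x :: (P.flatMap (fun y => [(y.1, 1), y.2]) ++ ((tw par h w).map (·, 1) ++ (p, 1) :: ((tw par h w₀).map (·, 1)).reverse))`
has length `1 + 2 (k - h - 1) + h + 1 + h = 2 k`; it is a chain (`tw_chain`, edges of the tree lift to edges as their voltages are `1`), closed
(`w₀` is adjacent to `x`), and `Nodup` (levels and branches: the vertices of level at most `j` in `P`, `tw w`, `tw w₀` have different
branches or are in the same `tw`; those of level `j + 1` are `x` and the `y.2`).  `contained_of_list` contradicts `hno`.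
-/

set_option autoImplicit false

namespace Pool.Agent.helper20.AL

section

variable {α V : Type*} [Group V] {B : SimpleGraph α} {φ : α → α → V} {lev : α → ℕ}
  {par : α → α}

private theorem bs_lev (hT : TreeOn B φ lev par) (w : α) :
    ∀ r, r ≤ lev w → lev (par^[r] w) = lev w - r := by
  intro r
  induction r with
  | zero => intro _; simp
  | succ r ih =>
    intro hr
    have h1 := ih (by omega)
    rw [Function.iterate_succ_apply']
    have h2 := hT.lv (par^[r] w) (by omega)
    omega

private theorem bs_tree_adj (hT : TreeOn B φ lev par) (v : α) (hv : 0 < lev v) :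
    (Lift B φ).Adj (v, 1) (par v, 1) := by
  refine ⟨(hT.adj v hv).symm, ?_, ?_⟩
  · show (1 : V) = 1 * φ v (par v)
    rw [hT.anti (par v) v, hT.gauge v hv]; simp
  · show (1 : V) = 1 * φ (par v) v
    rw [hT.gauge v hv]; simp

private theorem bs_R_adj (hT : TreeOn B φ lev par) {w : α} {x : α × V}
    (hR : B.Adj w x.1 ∧ φ w x.1 = x.2) : (Lift B φ).Adj (w, 1) x := by
  refine ⟨hR.1, ?_, ?_⟩
  · show x.2 = 1 * φ w x.1
    rw [hR.2, one_mul]
  · show (1 : V) = x.2 * φ x.1 w
    rw [hT.anti w x.1, ← hR.2, mul_inv_cancel]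

private theorem bs_tw_chain (hT : TreeOn B φ lev par) (h : ℕ) (w p : α) (hj : h ≤ lev w)
    (hp : par^[h] w = p) :
    (((tw par h w).map (fun v => (v, (1 : V)))) ++ [(p, 1)]).IsChain (Lift B φ).Adj := by
  have e : ((tw par h w).map (fun v => (v, (1 : V)))) ++ [(p, 1)] =
      (List.range h.succ).map (fun r => (par^[r] w, (1 : V))) := by
    rw [List.range_succ, List.map_append, tw, List.map_map]
    simp [← hp, Function.comp_def]
  rw [e, List.isChain_map, List.isChain_range_succ]
  intro r hr
  rw [Nat.succ_eq_add_one, Function.iterate_succ_apply']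
  exact bs_tree_adj hT _ (by rw [bs_lev hT w r (by omega)]; omega)

private theorem bs_ap_chain (hT : TreeOn B φ lev par) (P : List (α × (α × V))) :
    ∀ (z z' : α × V) (T : List (α × V)),
    AP (fun w (x : α × V) => B.Adj w x.1 ∧ φ w x.1 = x.2) z P z' →
    (z' :: T).IsChain (Lift B φ).Adj →
    (z :: (P.flatMap (fun y => [(y.1, (1 : V)), y.2]) ++ T)).IsChain (Lift B φ).Adj := by
  induction P with
  | nil =>
    intro z z' T h hc
    have hz : z' = z := h
    subst hz
    simpa using hc
  | cons y P ih =>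
    intro z z' T h hc
    obtain ⟨h1, h2, h3⟩ := h
    rw [List.flatMap_cons]
    show (z :: (y.1, (1 : V)) :: y.2 :: (P.flatMap (fun y => [(y.1, (1 : V)), y.2]) ++
      T)).IsChain (Lift B φ).Adj
    rw [List.isChain_cons_cons, List.isChain_cons_cons]
    exact ⟨(bs_R_adj hT h1).symm, bs_R_adj hT h2, ih _ _ _ h3 hc⟩

private theorem bs_tw_cons {h : ℕ} (h1 : 1 ≤ h) (w : α) :
    ∃ l, tw par h w = w :: l := by
  obtain ⟨h, rfl⟩ : ∃ k, h = k + 1 := ⟨h - 1, by omega⟩
  refine ⟨(List.range h).map (fun r => par^[r + 1] w), ?_⟩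
  rw [tw, List.range_succ_eq_map, List.map_cons, List.map_map]
  rfl

private theorem bs_ed_le {α ζ ζ' : Type*} (R : α → ζ → Prop) (R' : α → ζ' → Prop) (W : Finset α)
    (Z : Finset ζ) (Z' : Finset ζ') (f : ζ → ζ')
    (hf : ∀ w ∈ W, ∀ z ∈ Z, R w z → R' w (f z) ∧ f z ∈ Z')
    (hinj : ∀ w z z', R w z → R w z' → f z = f z' → z = z') : ed R W Z ≤ ed R' W Z' := by
  classical
  unfold ed
  apply Finset.card_le_card_of_injOn (fun y => (y.1, f y.2))
  · intro y hy
    rw [Finset.mem_coe, Finset.mem_filter, Finset.mem_product] at hy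
    rw [Finset.mem_coe, Finset.mem_filter, Finset.mem_product]
    have h := hf y.1 hy.1.1 y.2 hy.1.2 hy.2
    exact ⟨⟨hy.1.1, h.2⟩, h.1⟩
  · rintro ⟨y1, y2⟩ hy ⟨z1, z2⟩ hz he
    rw [Finset.mem_coe, Finset.mem_filter] at hy hz
    simp only [Prod.mk.injEq] at he
    obtain ⟨rfl, e2⟩ := he
    have := hinj y1 y2 z2 hy.2 hz.2 e2
    rw [this]

private theorem bs_flatMap_length {A C : Type*} (P : List A) (f g : A → C) :
    (P.flatMap (fun y => [f y, g y])).length = 2 * P.length := by
  induction P with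
  | nil => simp
  | cons y P ih =>
    rw [List.flatMap_cons, List.length_append, ih]
    simp only [List.length_cons, List.length_nil]
    omega

end

theorem bs {α V : Type*} [Group V] [DecidableEq α] [DecidableEq V] {B : SimpleGraph α}
    {φ : α → α → V} {lev : α → ℕ} {par : α → α} (hT : TreeOn B φ lev par) {k h j M s : ℕ} {p : α}
    {W Z : Finset α} (h1 : 1 ≤ h) (hj : h ≤ j) (hk : h + 1 ≤ k) (hM : 2 * k + 4 ≤ M)
    (hW : ∀ w ∈ W, lev w = j ∧ par^[h] w = p) (hZ : ∀ z ∈ Z, lev z = j + 1)
    (hs : ∀ b, ∀ Z' ⊆ Z, ed B.Adj (W.filter (fun w => par^[h - 1] w = b)) Z' ≤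
      s * ((W.filter (fun w => par^[h - 1] w = b)).card + Z'.card))
    (hno : ¬ HasC (Lift B φ) (2 * k)) (Zt : Finset (α × V)) (hZt : ∀ x ∈ Zt, x.1 ∈ Z) :
    ed (fun w (x : α × V) => B.Adj w x.1 ∧ φ w x.1 = x.2) W Zt ≤
      (M + 2 * s * (1 + M)) * (W.card + Zt.card) := by
  classical
  by_contra hcon
  push Not at hcon
  have hs2 : ∀ b, ∀ Z' ⊆ Zt, ed (fun w (x : α × V) => B.Adj w x.1 ∧ φ w x.1 = x.2)
      (W.filter (fun w => par^[h - 1] w = b)) Z' ≤
      s * ((W.filter (fun w => par^[h - 1] w = b)).card + Z'.card) := by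
    intro b Z' hZ'
    have hsub : Z'.image Prod.fst ⊆ Z := by
      intro z hz
      rw [Finset.mem_image] at hz
      obtain ⟨x, hx, rfl⟩ := hz
      exact hZt x (hZ' hx)
    have h2 := hs b (Z'.image Prod.fst) hsub
    have h3 : (Z'.image Prod.fst).card ≤ Z'.card := Finset.card_image_le
    have h4 : ed (fun w (x : α × V) => B.Adj w x.1 ∧ φ w x.1 = x.2)
        (W.filter (fun w => par^[h - 1] w = b)) Z' ≤
        ed B.Adj (W.filter (fun w => par^[h - 1] w = b)) (Z'.image Prod.fst) := by
      apply bs_ed_le _ _ _ _ _ Prod.fst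
      · intro v _ x hx hR
        exact ⟨hR.1, Finset.mem_image_of_mem _ hx⟩
      · intro v y y' hy hy' he
        have e3 : y.2 = y'.2 := by rw [← hy.2, ← hy'.2, he]
        exact Prod.ext he e3
    exact h4.trans (h2.trans (Nat.mul_le_mul_left _ (by omega)))
  obtain ⟨W', hW', Z', hZ', -, hZne, hC⟩ := spread0
    (fun w (x : α × V) => B.Adj w x.1 ∧ φ w x.1 = x.2) (par^[h - 1]) M s W Zt hs2 hcon
  obtain ⟨x, hx⟩ := hZne
  obtain ⟨P, x', hPl, hx', hAP, hPb, hPs, hPm⟩ := build hC (k - h - 1) ∅ {x} x hx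
    (by rw [Finset.card_empty, Finset.card_singleton]; omega)
  have hFc : ((P.map (fun y => par^[h - 1] y.1)).toFinset).card ≤ k - h - 1 := by
    refine (List.toFinset_card_le _).trans ?_
    rw [List.length_map, hPl]
  obtain ⟨w, hw, hRw, hbw, -⟩ := hC.zw x' hx' ((P.map (fun y => par^[h - 1] y.1)).toFinset) ∅
    (by rw [Finset.card_empty]; omega)
  obtain ⟨w₀, hw₀, hRw₀, hbw₀, -⟩ := hC.zw x hx
    (insert (par^[h - 1] w) ((P.map (fun y => par^[h - 1] y.1)).toFinset)) ∅
    (by
      have := Finset.card_insert_le (par^[h - 1] w) ((P.map (fun y => par^[h - 1] y.1)).toFinset)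
      rw [Finset.card_empty]
      omega)
  have hlevW : ∀ v ∈ W', lev v = j ∧ par^[h] v = p := fun v hv => hW v (hW' hv)
  have hlevZ : ∀ y ∈ Z', lev y.1 = j + 1 := fun y hy => hZ _ (hZt _ (hZ' hy))
  have hlevp : lev p = j - h := by
    have h3 := bs_lev hT w h (by rw [(hlevW w hw).1]; exact hj)
    rw [(hlevW w hw).1, (hlevW w hw).2] at h3
    exact h3
  -- the branch of an element of `W'`
  have hbr : ∀ v ∈ W', brx lev par (j - h) v = par^[h - 1] v := by
    intro v hv
    unfold brx
    rw [(hlevW v hv).1]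
    congr 2
    omega
  have htw : ∀ v ∈ W', ∀ u ∈ tw par h v, j - h < lev u ∧ lev u ≤ j ∧
      brx lev par (j - h) u = par^[h - 1] v := by
    intro v hv u hu
    have h3 := tw_brx hT h v (by rw [(hlevW v hv).1]; exact hj) u hu
    rw [(hlevW v hv).1] at h3
    exact h3
  have hPW : ∀ y ∈ P, y.1 ∈ W' := fun y hy => (hPm y hy).1
  have hPZ : ∀ y ∈ P, y.2 ∈ Z' := fun y hy => (hPm y hy).2.1
  have hbwP : ∀ y ∈ P, par^[h - 1] w ≠ par^[h - 1] y.1 := by
    intro y hy he
    apply hbw
    rw [List.mem_toFinset, List.mem_map]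
    exact ⟨y, hy, he.symm⟩
  have hbw₀P : ∀ y ∈ P, par^[h - 1] w₀ ≠ par^[h - 1] y.1 := by
    intro y hy he
    apply hbw₀
    rw [Finset.mem_insert, List.mem_toFinset, List.mem_map]
    exact Or.inr ⟨y, hy, he.symm⟩
  have hbww₀ : par^[h - 1] w₀ ≠ par^[h - 1] w := by
    intro he
    apply hbw₀
    rw [Finset.mem_insert]
    exact Or.inl he
  have hnod : ∀ v ∈ W', ((tw par h v).map (fun v => (v, (1 : V)))).Nodup := by
    intro v hv
    apply List.Nodup.map _ (tw_nodup hT h v (by rw [(hlevW v hv).1]; exact hj))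
    intro a b hab
    exact congrArg Prod.fst hab
  set A : List (α × V) := P.flatMap (fun y => [(y.1, (1 : V)), y.2]) with hA
  set Bw : List (α × V) := (tw par h w).map (fun v => (v, (1 : V))) with hBw
  set Bo : List (α × V) := (tw par h w₀).map (fun v => (v, (1 : V))) with hBo
  have hmemA : ∀ u ∈ A, (∃ y ∈ P, u = (y.1, 1)) ∨ (∃ y ∈ P, u = y.2) := by
    intro u hu
    rw [hA, List.mem_flatMap] at hu
    obtain ⟨y, hy, hu⟩ := hu
    simp only [List.mem_cons, List.not_mem_nil, or_false] at hu
    rcases hu with hu | hu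
    · exact Or.inl ⟨y, hy, hu⟩
    · exact Or.inr ⟨y, hy, hu⟩
  have hmemB : ∀ v ∈ W', ∀ u ∈ (tw par h v).map (fun v => (v, (1 : V))),
      j - h < lev u.1 ∧ lev u.1 ≤ j ∧ brx lev par (j - h) u.1 = par^[h - 1] v := by
    intro v hv u hu
    rw [List.mem_map] at hu
    obtain ⟨t, ht, rfl⟩ := hu
    exact htw v hv t ht
  have hAB : ∀ v ∈ W', (∀ y ∈ P, par^[h - 1] v ≠ par^[h - 1] y.1) → ∀ u ∈ A,
      u ∉ (tw par h v).map (fun v => (v, (1 : V))) := by
    intro v hv hvP u hu hu2
    have h3 := hmemB v hv u hu2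
    rcases hmemA u hu with ⟨y, hy, rfl⟩ | ⟨y, hy, rfl⟩
    · have h4 := hbr y.1 (hPW y hy)
      have h5 : brx lev par (j - h) y.1 = par^[h - 1] v := h3.2.2
      rw [h4] at h5
      exact hvP y hy h5.symm
    · have h4 := hlevZ _ (hPZ y hy)
      omega
  have hAx : x ∉ A := by
    intro hxA
    rcases hmemA x hxA with ⟨y, hy, he⟩ | ⟨y, hy, he⟩
    · have h3 := hlevZ x hx
      rw [he] at h3
      have h4 := (hlevW _ (hPW y hy)).1
      have h5 : lev y.1 = j + 1 := h3
      omega
    · exact (hPm y hy).2.2.2.2 he.symm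
  have hxB : ∀ v ∈ W', x ∉ (tw par h v).map (fun v => (v, (1 : V))) := by
    intro v hv hu
    have h3 := hmemB v hv x hu
    have h4 := hlevZ x hx
    omega
  have hxp : x ≠ (p, 1) := by
    intro he
    have h4 := hlevZ x hx
    rw [he] at h4
    have h5 : lev p = j + 1 := h4
    omega
  have hpA : (p, (1 : V)) ∉ A := by
    intro hpA
    rcases hmemA _ hpA with ⟨y, hy, he⟩ | ⟨y, hy, he⟩
    · have h3 : p = y.1 := congrArg Prod.fst he
      have h4 := (hlevW _ (hPW y hy)).1
      rw [← h3] at h4
      omega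
    · have h3 : p = y.2.1 := congrArg Prod.fst he
      have h4 := hlevZ _ (hPZ y hy)
      rw [← h3] at h4
      omega
  have hpB : ∀ v ∈ W', (p, (1 : V)) ∉ (tw par h v).map (fun v => (v, (1 : V))) := by
    intro v hv hu
    have h3 := (hmemB v hv _ hu).1
    have h4 : j - h < lev p := h3
    omega
  have hAn : A.Nodup := by
    rw [hA, List.nodup_flatMap]
    constructor
    · intro y hy
      rw [List.nodup_cons]
      refine ⟨?_, List.nodup_singleton _⟩
      intro hm
      rw [List.mem_singleton] at hm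
      have h3 : y.1 = y.2.1 := congrArg Prod.fst hm
      have h4 := (hlevW _ (hPW y hy)).1
      have h5 := hlevZ _ (hPZ y hy)
      rw [← h3] at h5
      omega
    · have hb : P.Pairwise (fun y y' => par^[h - 1] y.1 ≠ par^[h - 1] y'.1) := by
        rw [List.Nodup, List.pairwise_map] at hPb
        exact hPb
      have hb2 : P.Pairwise (fun y y' => y.2 ≠ y'.2) := by
        rw [List.Nodup, List.pairwise_map] at hPs
        exact hPs
      refine List.Pairwise.imp_of_mem ?_ (hb.and hb2)
      intro y y' hy hy' hyy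
      show List.Disjoint _ _
      intro u hu hu'
      simp only [List.mem_cons, List.not_mem_nil, or_false] at hu hu'
      have l1 := (hlevW _ (hPW y hy)).1
      have l2 := (hlevW _ (hPW y' hy')).1
      have l3 := hlevZ _ (hPZ y hy)
      have l4 := hlevZ _ (hPZ y' hy')
      rcases hu with rfl | rfl
      · rcases hu' with he | he
        · have h3 : y.1 = y'.1 := (Prod.mk.inj he).1
          exact hyy.1 (by rw [h3])
        · have h3 : y.1 = y'.2.1 := congrArg Prod.fst he
          rw [← h3] at l4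
          omega
      · rcases hu' with he | he
        · have h3 : y.2.1 = y'.1 := congrArg Prod.fst he
          rw [h3] at l3
          omega
        · exact hyy.2 he
  -- the closed list
  have hlist : (x :: (A ++ (Bw ++ (p, 1) :: Bo.reverse))).length = 2 * k := by
    rw [List.length_cons, List.length_append, List.length_append, List.length_cons,
      List.length_reverse, hA, bs_flatMap_length, hPl, hBw, hBo, List.length_map,
      List.length_map]
    simp only [tw, List.length_map, List.length_range]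
    omega
  have hnodup : (x :: (A ++ (Bw ++ (p, 1) :: Bo.reverse))).Nodup := by
    rw [List.nodup_cons]
    constructor
    · rw [List.mem_append, List.mem_append, List.mem_cons, List.mem_reverse]
      rintro (h3 | h3 | h3 | h3)
      · exact hAx h3
      · exact hxB w hw h3
      · exact hxp h3
      · exact hxB w₀ hw₀ h3
    · rw [List.nodup_append']
      refine ⟨hAn, ?_, ?_⟩
      · rw [List.nodup_append']
        refine ⟨hnod w hw, ?_, ?_⟩
        · rw [List.nodup_cons, List.mem_reverse, List.nodup_reverse]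
          exact ⟨hpB w₀ hw₀, hnod w₀ hw₀⟩
        · intro u hu hu'
          rw [List.mem_cons, List.mem_reverse] at hu'
          rcases hu' with rfl | hu'
          · exact hpB w hw hu
          · have h3 := (hmemB w hw u hu).2.2
            have h4 := (hmemB w₀ hw₀ u hu').2.2
            rw [h3] at h4
            exact hbww₀ h4.symm
      · intro u hu hu'
        rw [List.mem_append, List.mem_cons, List.mem_reverse] at hu'
        rcases hu' with hu' | rfl | hu'
        · exact hAB w hw hbwP u hu hu'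
        · exact hpA hu
        · exact hAB w₀ hw₀ hbw₀P u hu hu'
  have hchain : (x :: (A ++ (Bw ++ (p, 1) :: Bo.reverse))).IsChain (Lift B φ).Adj := by
    apply bs_ap_chain hT P x x' _ hAP
    rw [List.isChain_cons_split]
    constructor
    · have h3 := bs_tw_chain hT h w p (by rw [(hlevW w hw).1]; exact hj) (hlevW w hw).2
      obtain ⟨l, hl⟩ := bs_tw_cons (par := par) h1 w
      rw [hBw]
      rw [hl] at h3 ⊢
      rw [List.map_cons, List.cons_append] at h3 ⊢
      rw [List.isChain_cons_cons]
      exact ⟨(bs_R_adj hT hRw).symm, h3⟩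
    · have h3 := bs_tw_chain hT h w₀ p (by rw [(hlevW w₀ hw₀).1]; exact hj) (hlevW w₀ hw₀).2
      have e : (p, (1 : V)) :: Bo.reverse = (Bo ++ [(p, 1)]).reverse := by simp
      rw [e, List.isChain_reverse]
      refine h3.imp ?_
      intro a b hab
      exact hab.symm
  apply hno
  rw [← hlist]
  apply contained_of_list _ (by simp) hnodup hchain
  obtain ⟨l, hl⟩ := bs_tw_cons (par := par) h1 w₀
  have e : (x :: (A ++ (Bw ++ (p, 1) :: Bo.reverse))) =
      (x :: (A ++ (Bw ++ (p, 1) :: (l.map (fun v => (v, (1 : V)))).reverse))) ++ [(w₀, 1)] := by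
    rw [hBo, hl, List.map_cons, List.reverse_cons]
    simp
  have hlast : (x :: (A ++ (Bw ++ (p, 1) :: Bo.reverse))).getLast (by simp) = (w₀, 1) := by
    rw [List.getLast_congr _ (by simp) e]
    exact List.getLast_concat
  rw [hlast, List.head_cons]
  exact bs_R_adj hT hRw₀

end Pool.Agent.helper20.AL
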