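import Pool.Agent.helper20.AL.Defs

/-!
# AL-Growth: growth of the levels of a breadth first search in a bipartite graph

`lv B x i` is the set of vertices reachable from `x` at distance `i`.
PROOF.  Let `A i = lv B x i`, `a i = (A i).card`.  Claim: for `i < ℓ`: `d * a i ≤ 2 * s * a (i + 1)` and `a i ≤ a (i + 1)`; then by induction
`d ^ i ≤ (2 * s) ^ i * a i` for `i ≤ ℓ` (`a 0 = 1`).
Claim by induction on `i`: every `v ∈ A i` has at least `d` neighbours, all of them in `A (i - 1) ∪ A (i + 1)` (adjacent vertices have distances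
differing by at most one, and not equal: in a bipartite graph with colouring `c` the parity of `dist x v` is determined by the colour of `v`, induction on
a walk), so `d * a i ≤ ed B.Adj (A (i - 1)) (A i) + ed B.Adj (A i) (A (i + 1)) ≤ s * (a (i - 1) + a i) + s * (a i + a (i + 1)) ≤
s * (3 * a i + a (i + 1))` by `a (i - 1) ≤ a i` (for `i = 0` without the first terms); with `6 * s ≤ d`:
`2 * d * a i ≤ 6 * s * a i + 2 * s * a (i + 1) ≤ d * a i + 2 * s * a (i + 1)`, and `2 s a i ≤ d a i ≤ 2 s a (i + 1)` (`1 ≤ s`).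
-/

set_option autoImplicit false

namespace Pool.Agent.helper20.AL

open Finset

open Classical in
/-- The vertices reachable from `x` at distance `i`. -/
noncomputable def lv {α : Type*} [Fintype α] (B : SimpleGraph α) (x : α) (i : ℕ) : Finset α :=
  univ.filter (fun v => B.Reachable x v ∧ B.dist x v = i)

private theorem growth_mem {α : Type*} [Fintype α] (B : SimpleGraph α) (x : α) (i : ℕ) (v : α) :
    v ∈ lv B x i ↔ B.Reachable x v ∧ B.dist x v = i := by
  classical
  unfold lv
  simp

private theorem growth_ne {α : Type*} (B : SimpleGraph α) (c : α → Bool)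
    (hc : ∀ a b, B.Adj a b → c a ≠ c b) (x v u : α) (hv : B.Reachable x v) (h : B.Adj v u) :
    B.dist x u ≠ B.dist x v := by
  intro he
  have hu : B.Reachable x u := hv.trans h.reachable
  obtain ⟨p, hp⟩ := hv.exists_walk_length_eq_dist
  obtain ⟨q, hq⟩ := hu.exists_walk_length_eq_dist
  let C : B.Coloring Bool := SimpleGraph.Coloring.mk c (fun {a b} hab => hc a b hab)
  have h1 := SimpleGraph.Coloring.even_length_iff_congr C p
  have h2 := SimpleGraph.Coloring.even_length_iff_congr C q
  rw [hp] at h1
  rw [hq, he] at h2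
  have h3 := hc v u h
  have hC : ∀ a, C a = c a := fun a => rfl
  rw [hC, hC] at h1 h2
  rw [h1] at h2
  revert h2 h3
  cases c x <;> cases c v <;> cases c u <;> simp

private theorem growth_nb {α : Type*} [Fintype α] (B : SimpleGraph α) (c : α → Bool)
    (hc : ∀ a b, B.Adj a b → c a ≠ c b) (x v u : α) (i : ℕ) (hv : v ∈ lv B x i) (h : B.Adj v u) :
    u ∈ lv B x (i + 1) ∨ (1 ≤ i ∧ u ∈ lv B x (i - 1)) := by
  rw [growth_mem] at hv
  have hu : B.Reachable x u := hv.1.trans h.reachable
  have hne := growth_ne B c hc x v u hv.1 h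
  rw [growth_mem, growth_mem]
  rcases h.diff_dist_adj (u := x) with h1 | h1 | h1
  · exact absurd h1 hne
  · left
    exact ⟨hu, by omega⟩
  · right
    exact ⟨by omega, hu, by omega⟩

open Classical in
private theorem growth_ed {α : Type*} [Fintype α] (B : SimpleGraph α) (S T : Finset α) :
    ed B.Adj S T = ∑ v ∈ S, (T.filter (fun u => B.Adj v u)).card := by
  unfold ed
  rw [Finset.card_filter, Finset.sum_product]
  refine Finset.sum_congr rfl fun v _ => ?_
  rw [Finset.card_filter]

open Classical in
private theorem growth_ed' {α : Type*} [Fintype α] (B : SimpleGraph α) (S T : Finset α) :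
    ed B.Adj S T = ∑ v ∈ T, (S.filter (fun u => B.Adj v u)).card := by
  unfold ed
  rw [Finset.card_filter, Finset.sum_product_right]
  refine Finset.sum_congr rfl fun v _ => ?_
  rw [Finset.card_filter]
  refine Finset.sum_congr rfl fun u _ => ?_
  simp [SimpleGraph.adj_comm]

private theorem growth_step {α : Type*} [Fintype α] (B : SimpleGraph α) (c : α → Bool)
    (hc : ∀ a b, B.Adj a b → c a ≠ c b) (x : α) (d s ℓ : ℕ) (hs : 1 ≤ s) (hds : 6 * s ≤ d)
    (hdeg : ∀ v, B.Reachable x v → ∃ N : Finset α, d ≤ N.card ∧ ∀ u ∈ N, B.Adj v u)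
    (hsp : ∀ i < ℓ, ed B.Adj (lv B x i) (lv B x (i + 1)) ≤
      s * ((lv B x i).card + (lv B x (i + 1)).card)) (i : ℕ) (hi : i < ℓ) :
    d * (lv B x i).card ≤ 2 * s * (lv B x (i + 1)).card ∧
      (lv B x i).card ≤ (lv B x (i + 1)).card := by
  classical
  have key : ∀ i < ℓ, (1 ≤ i → (lv B x (i - 1)).card ≤ (lv B x i).card) →
      d * (lv B x i).card ≤ 2 * s * (lv B x (i + 1)).card ∧
      (lv B x i).card ≤ (lv B x (i + 1)).card := by
    intro i hi hmono
    have h1 : d * (lv B x i).card ≤ ed B.Adj (lv B x i) (lv B x (i + 1)) +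
        (if 1 ≤ i then ed B.Adj (lv B x (i - 1)) (lv B x i) else 0) := by
      have h2 : d * (lv B x i).card ≤ ∑ v ∈ lv B x i,
          (((lv B x (i + 1)).filter (fun u => B.Adj v u)).card +
            (if 1 ≤ i then ((lv B x (i - 1)).filter (fun u => B.Adj v u)).card else 0)) := by
        rw [mul_comm, ← smul_eq_mul]
        apply Finset.card_nsmul_le_sum
        intro v hv
        obtain ⟨N, hN, hN2⟩ := hdeg v ((growth_mem B x i v).mp hv).1
        refine hN.trans ?_
        by_cases h1 : 1 ≤ i
        · rw [if_pos h1]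
          refine le_trans (Finset.card_le_card ?_) (Finset.card_union_le _ _)
          intro u hu
          rw [Finset.mem_union, Finset.mem_filter, Finset.mem_filter]
          rcases growth_nb B c hc x v u i hv (hN2 u hu) with h | h
          · exact Or.inl ⟨h, hN2 u hu⟩
          · exact Or.inr ⟨h.2, hN2 u hu⟩
        · rw [if_neg h1, add_zero]
          refine Finset.card_le_card ?_
          intro u hu
          rw [Finset.mem_filter]
          rcases growth_nb B c hc x v u i hv (hN2 u hu) with h | h
          · exact ⟨h, hN2 u hu⟩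
          · exact absurd h.1 h1
      refine h2.trans (le_of_eq ?_)
      rw [Finset.sum_add_distrib, growth_ed]
      congr 1
      split_ifs with h3
      · rw [growth_ed']
      · simp
    have h4 := hsp i hi
    have h5 : (if 1 ≤ i then ed B.Adj (lv B x (i - 1)) (lv B x i) else 0) ≤
        s * (2 * (lv B x i).card) := by
      split_ifs with h3
      · have h6 := hsp (i - 1) (by omega)
        rw [Nat.sub_add_cancel h3] at h6
        refine h6.trans (Nat.mul_le_mul_left _ ?_)
        have := hmono h3
        omega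
      · exact Nat.zero_le _
    have h7 : d * (lv B x i).card ≤ 2 * s * (lv B x (i + 1)).card := by
      have h8 : 6 * s * (lv B x i).card ≤ d * (lv B x i).card := Nat.mul_le_mul_right _ hds
      nlinarith [h1, h4, h5, h8]
    refine ⟨h7, ?_⟩
    have h8 : 2 * s * (lv B x i).card ≤ 2 * s * (lv B x (i + 1)).card :=
      le_trans (Nat.mul_le_mul_right _ (by omega)) h7
    exact Nat.le_of_mul_le_mul_left h8 (by omega)
  induction i with
  | zero => exact key 0 hi (fun h => absurd h (by omega))
  | succ j ih => exact key (j + 1) hi (fun _ => by simpa using (ih (by omega)).2)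

open Classical in
theorem growth {α : Type*} [Fintype α] (B : SimpleGraph α) (c : α → Bool)
    (hc : ∀ a b, B.Adj a b → c a ≠ c b) (x : α) (d s ℓ : ℕ) (hs : 1 ≤ s) (hds : 6 * s ≤ d)
    (hdeg : ∀ v, B.Reachable x v → d ≤ (univ.filter (fun u => B.Adj v u)).card)
    (hsp : ∀ i < ℓ, ed B.Adj (lv B x i) (lv B x (i + 1)) ≤
      s * ((lv B x i).card + (lv B x (i + 1)).card)) :
    d ^ ℓ ≤ (2 * s) ^ ℓ * Fintype.card α := by
  have hdeg' : ∀ v, B.Reachable x v → ∃ N : Finset α, d ≤ N.card ∧ ∀ u ∈ N, B.Adj v u :=
    fun v hv => ⟨_, hdeg v hv, fun u hu => (Finset.mem_filter.mp hu).2⟩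
  have hst := growth_step B c hc x d s ℓ hs hds hdeg' hsp
  have h0 : 1 ≤ (lv B x 0).card := by
    apply Finset.card_pos.mpr
    exact ⟨x, (growth_mem B x 0 x).mpr ⟨SimpleGraph.Reachable.refl x, SimpleGraph.dist_self⟩⟩
  have hall : ∀ i ≤ ℓ, d ^ i ≤ (2 * s) ^ i * (lv B x i).card := by
    intro i
    induction i with
    | zero => intro _; simpa using h0
    | succ j ih =>
      intro hj
      have h1 := ih (by omega)
      have h2 := (hst j (by omega)).1
      calc d ^ (j + 1) = d ^ j * d := pow_succ _ _
        _ ≤ ((2 * s) ^ j * (lv B x j).card) * d := Nat.mul_le_mul_right _ h1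
        _ = (2 * s) ^ j * (d * (lv B x j).card) := by ring
        _ ≤ (2 * s) ^ j * (2 * s * (lv B x (j + 1)).card) := Nat.mul_le_mul_left _ h2
        _ = (2 * s) ^ (j + 1) * (lv B x (j + 1)).card := by ring
  refine (hall ℓ le_rfl).trans (Nat.mul_le_mul_left _ ?_)
  exact Finset.card_le_univ _

end Pool.Agent.helper20.AL
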