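import Pool.Agent.helper20.AL.Defs

/-!
# AL-Sub: a bipartite subgraph of large minimal degree

(1) There is a colouring `c : α → Bool` such that at least half of the edges join different colours (average over all colourings, or: a colouring
maximising the number of bichromatic edges; or induction on the vertices; or greedy).  Let `B₁` be the graph of the bichromatic edges, at least
`d * card α` of them.
(2) Let `S` be a nonempty set of vertices with at least `d * S.card` edges of `B₁` inside `S`, of minimal cardinality (`univ` is such a set).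
Every `v ∈ S` has at least `d` neighbours in `S`: otherwise `S.erase v` has more than `d * (S.card - 1)` edges, and it is not empty
(if `S = {v}` then there are no edges but `d ≥ 1`), contradiction to the minimality.
(3) `B'` = edges of `B₁` inside `S`, `x ∈ S`.  Everything reachable from `x` lies in `S`.
-/

set_option autoImplicit false

namespace Pool.Agent.helper20.AL

open Finset

/-- Exactly half of the colourings separate `u` and `v`. -/
private theorem Sub_half {α : Type*} [Fintype α] [DecidableEq α] (u v : α) (h : u ≠ v) :
    2 * (univ.filter (fun c : α → Bool => c u ≠ c v)).card =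
      (univ : Finset (α → Bool)).card := by
  have hv : ∀ c : α → Bool, Function.update c u (!c u) v = c v := fun c =>
    Function.update_of_ne (Ne.symm h) _ _
  have hu : ∀ c : α → Bool, Function.update c u (!c u) u = !c u := fun c =>
    Function.update_self _ _ _
  have hinv : ∀ c : α → Bool,
      Function.update (Function.update c u (!c u)) u (!(Function.update c u (!c u)) u) = c := by
    intro c
    rw [hu, Bool.not_not]
    funext w
    by_cases hw : w = u
    · subst hw
      rw [Function.update_self]
    · rw [Function.update_of_ne hw, Function.update_of_ne hw]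
  have h1 : (univ.filter (fun c : α → Bool => c u ≠ c v)).card =
      (univ.filter (fun c : α → Bool => ¬ (c u ≠ c v))).card := by
    apply Finset.card_nbij' (fun c => Function.update c u (!c u))
      (fun c => Function.update c u (!c u))
    · intro c hc
      rw [Finset.mem_coe, Finset.mem_filter] at hc ⊢
      refine ⟨Finset.mem_univ _, ?_⟩
      beta_reduce
      rw [hu, hv]
      have h2 := hc.2
      revert h2
      cases c u <;> cases c v <;> decide
    · intro c hc
      rw [Finset.mem_coe, Finset.mem_filter] at hc ⊢
      refine ⟨Finset.mem_univ _, ?_⟩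
      beta_reduce
      rw [hu, hv]
      have h2 := hc.2
      revert h2
      cases c u <;> cases c v <;> decide
    · intro c _
      exact hinv c
    · intro c _
      exact hinv c
  have h2 := Finset.card_filter_add_card_filter_not (s := (univ : Finset (α → Bool)))
    (fun c => c u ≠ c v)
  omega

/-- A colouring which separates half of the pairs of `P`. -/
private theorem Sub_cut {α : Type*} [Fintype α] [DecidableEq α] (P : Finset (α × α))
    (hP : ∀ x ∈ P, x.1 ≠ x.2) :
    ∃ c : α → Bool, P.card ≤ 2 * (P.filter (fun x => c x.1 ≠ c x.2)).card := by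
  by_contra hcon
  push Not at hcon
  have h1 : ∑ c : α → Bool, 2 * (P.filter (fun x => c x.1 ≠ c x.2)).card <
      ∑ _c : α → Bool, P.card :=
    Finset.sum_lt_sum_of_nonempty ⟨fun _ => true, Finset.mem_univ _⟩ (fun c _ => hcon c)
  have h2 : ∑ c : α → Bool, 2 * (P.filter (fun x => c x.1 ≠ c x.2)).card =
      ∑ x ∈ P, 2 * (univ.filter (fun c : α → Bool => c x.1 ≠ c x.2)).card := by
    rw [← Finset.mul_sum, ← Finset.mul_sum]
    congr 1
    simp only [Finset.card_filter]
    rw [Finset.sum_comm]
  have h3 : ∑ x ∈ P, 2 * (univ.filter (fun c : α → Bool => c x.1 ≠ c x.2)).card =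
      ∑ _x ∈ P, (univ : Finset (α → Bool)).card :=
    Finset.sum_congr rfl fun x hx => Sub_half x.1 x.2 (hP x hx)
  rw [h2, h3, Finset.sum_const, Finset.sum_const, smul_eq_mul, smul_eq_mul, mul_comm] at h1
  exact lt_irrefl _ h1

/-- Deleting a vertex of small degree. -/
private theorem Sub_erase {α : Type*} [DecidableEq α] (R : α → α → Prop) [DecidableRel R]
    (hR : ∀ a b, R a b → R b a) (S : Finset α) (v : α) :
    ((S ×ˢ S).filter (fun x => R x.1 x.2)).card ≤
      (((S.erase v) ×ˢ (S.erase v)).filter (fun x => R x.1 x.2)).card +
        2 * (S.filter (fun u => R v u)).card := by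
  have h1 : (S ×ˢ S).filter (fun x => R x.1 x.2) ⊆
      ((S.erase v) ×ˢ (S.erase v)).filter (fun x => R x.1 x.2) ∪
        ((S.filter (fun u => R v u)).image (fun u => (v, u)) ∪
          (S.filter (fun u => R v u)).image (fun u => (u, v))) := by
    rintro ⟨a, b⟩ hx
    simp only [Finset.mem_filter, Finset.mem_product, Finset.mem_union, Finset.mem_image,
      Finset.mem_erase] at hx ⊢
    obtain ⟨⟨ha, hb⟩, hab⟩ := hx
    by_cases hav : a = v
    · subst hav
      exact Or.inr (Or.inl ⟨b, ⟨hb, hab⟩, rfl⟩)
    · by_cases hbv : b = v
      · subst hbv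
        exact Or.inr (Or.inr ⟨a, ⟨ha, hR _ _ hab⟩, rfl⟩)
      · exact Or.inl ⟨⟨⟨hav, ha⟩, hbv, hb⟩, hab⟩
  refine (Finset.card_le_card h1).trans ?_
  refine (Finset.card_union_le _ _).trans ?_
  have h2 := Finset.card_union_le ((S.filter (fun u => R v u)).image (fun u => (v, u)))
    ((S.filter (fun u => R v u)).image (fun u => (u, v)))
  have h3 : ((S.filter (fun u => R v u)).image (fun u => (v, u))).card ≤
      (S.filter (fun u => R v u)).card := Finset.card_image_le
  have h4 : ((S.filter (fun u => R v u)).image (fun u => (u, v))).card ≤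
      (S.filter (fun u => R v u)).card := Finset.card_image_le
  omega

open Classical in
theorem exists_sub {α : Type*} [Fintype α] [Nonempty α] (B : SimpleGraph α) (d : ℕ) (hd : 1 ≤ d)
    (h : 2 * d * Fintype.card α ≤ B.edgeSet.ncard) :
    ∃ (B' : SimpleGraph α) (c : α → Bool) (x : α), B' ≤ B ∧ (∀ a b, B'.Adj a b → c a ≠ c b) ∧
      ∀ v, B'.Reachable x v → d ≤ (univ.filter (fun u => B'.Adj v u)).card := by
  set P : Finset (α × α) := univ.filter (fun x => B.Adj x.1 x.2) with hPdef
  have hPcard : P.card = 2 * B.edgeSet.ncard := by
    have h1 : B.edgeSet.ncard = B.edgeFinset.card := by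
      rw [Set.ncard_eq_toFinset_card']
      rfl
    rw [h1, ← SimpleGraph.sum_degrees_eq_twice_card_edges, hPdef, Finset.card_filter,
      Fintype.sum_prod_type]
    refine Finset.sum_congr rfl fun v _ => ?_
    rw [← SimpleGraph.card_neighborFinset_eq_degree, ← Finset.card_filter]
    congr 1
    ext u
    simp
  obtain ⟨c, hc⟩ := Sub_cut P (by
    intro x hx
    rw [hPdef, Finset.mem_filter] at hx
    exact hx.2.ne)
  let R : α → α → Prop := fun a b => B.Adj a b ∧ c a ≠ c b
  have hRsymm : ∀ a b, R a b → R b a := fun a b hab => ⟨hab.1.symm, hab.2.symm⟩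
  have huniv : 2 * d * (univ : Finset α).card ≤
      (((univ : Finset α) ×ˢ univ).filter (fun x => R x.1 x.2)).card := by
    have h1 : P.filter (fun x => c x.1 ≠ c x.2) =
        ((univ : Finset α) ×ˢ univ).filter (fun x => R x.1 x.2) := by
      ext x
      simp [hPdef, R]
    rw [← h1, Finset.card_univ]
    omega
  obtain ⟨S, hS, hmin⟩ := (univ.filter (fun S : Finset α => S.Nonempty ∧
    2 * d * S.card ≤ ((S ×ˢ S).filter (fun x => R x.1 x.2)).card)).exists_min_image
      Finset.card ⟨univ, by
        rw [Finset.mem_filter]
        exact ⟨Finset.mem_univ _, Finset.univ_nonempty, huniv⟩⟩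
  rw [Finset.mem_filter] at hS
  obtain ⟨-, hSne, hSc⟩ := hS
  have hdeg : ∀ v ∈ S, d ≤ (S.filter (fun u => R v u)).card := by
    intro v hv
    by_contra hcon
    push Not at hcon
    have h1 := Sub_erase R hRsymm S v
    have h2 : (S.erase v).card + 1 = S.card := Finset.card_erase_add_one hv
    rcases (S.erase v).eq_empty_or_nonempty with he | hne
    · have h3 : S = {v} := by
        rw [Finset.erase_eq_empty_iff] at he
        rcases he with he | he
        · rw [he] at hv
          exact absurd hv (Finset.notMem_empty v)
        · exact he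
      have h4 : (S ×ˢ S).filter (fun x => R x.1 x.2) = ∅ := by
        rw [Finset.filter_eq_empty_iff]
        rintro ⟨a, b⟩ hab hR
        rw [h3, Finset.mem_product, Finset.mem_singleton, Finset.mem_singleton] at hab
        have h5 : a = b := hab.1.trans hab.2.symm
        exact hR.2 (by rw [h5])
      rw [h4, Finset.card_empty, h3, Finset.card_singleton] at hSc
      omega
    · have h3 : 2 * d * (S.erase v).card ≤
          (((S.erase v) ×ˢ (S.erase v)).filter (fun x => R x.1 x.2)).card := by
        have h4 : 2 * d * S.card = 2 * d * (S.erase v).card + 2 * d := by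
          rw [← h2]
          ring
        omega
      have h4 := hmin (S.erase v) (by
        rw [Finset.mem_filter]
        exact ⟨Finset.mem_univ _, hne, h3⟩)
      omega
  obtain ⟨x, hx⟩ := hSne
  refine ⟨{ Adj := fun a b => a ∈ S ∧ b ∈ S ∧ R a b
            symm := ⟨fun a b hab => ⟨hab.2.1, hab.1, hRsymm _ _ hab.2.2⟩⟩
            loopless := ⟨fun a ha => ha.2.2.2 rfl⟩ }, c, x, ?_, ?_, ?_⟩
  · intro a b hab
    exact hab.2.2.1
  · intro a b hab
    exact hab.2.2.2
  · intro v hv
    have hvS : v ∈ S := by
      obtain ⟨p⟩ := hv
      clear hSc hmin hdeg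
      induction p with
      | nil => exact hx
      | cons hadj _ ih => exact ih hadj.2.1
    refine (hdeg v hvS).trans (Finset.card_le_card ?_)
    intro u hu
    simp only [Finset.mem_filter, Finset.mem_univ, true_and] at hu ⊢
    exact ⟨hvS, hu.1, hu.2⟩

end Pool.Agent.helper20.AL
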