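import Pool.Agent.helper20.AL.Defs

/-!
# AL-Tree: a breadth first search tree with trivial voltages

`par v`: for `0 < B.dist x v` the vertex `v` is reachable from `x` (`SimpleGraph.dist` is `0` for unreachable vertices) and there is a neighbour at
distance `dist x v - 1` (last but one vertex of a shortest walk; choose one), otherwise `par v = v`.
Gauge: define `H : α → V` with `H v = 1` if `dist x v = 0` and `H v = H (par v) * φ (par v) v` otherwise (e.g. `Hn 0 v = 1`,
`Hn (n + 1) v = Hn n (par v) * φ (par v) v`, `H v = Hn (dist x v) v`), and `φ' a b = H a * φ a b * (H b)⁻¹`.  Then `φ' (par v) v = 1`.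
The map `(a, g) ↦ (a, g * H a)` is an injective homomorphism from `Lift B φ'` to `Lift B φ`
(`g * φ' a b * H b = g * H a * φ a b`), so a cycle in `Lift B φ'` gives a cycle in `Lift B φ`.
Root: by induction on `n`, if `dist x v = n` and `v` is reachable from `x` then `par^[n] v` is reachable from `x` and `dist x (par^[n] v) = 0`, so it is `x`
(`SimpleGraph.Reachable.dist_eq_zero_iff`).
-/

set_option autoImplicit false

namespace Pool.Agent.helper20.AL

/-- A vertex at positive distance from `x` has a neighbour one step closer. -/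
private theorem exTr_pre {α : Type*} (B : SimpleGraph α) (x v : α) (h : 0 < B.dist x v) :
    ∃ u, B.Adj u v ∧ B.dist x u + 1 = B.dist x v := by
  have hr : B.Reachable x v := by
    by_contra hc
    rw [SimpleGraph.dist_eq_zero_of_not_reachable hc] at h
    exact absurd h (lt_irrefl _)
  obtain ⟨p, hp⟩ := hr.symm.exists_walk_length_eq_dist
  rw [SimpleGraph.dist_comm] at hp
  cases p with
  | nil => rw [SimpleGraph.dist_self] at h; omega
  | cons hadj q =>
    rename_i u
    refine ⟨u, hadj.symm, ?_⟩
    have h1 : B.dist x u ≤ q.length := by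
      rw [SimpleGraph.dist_comm]; exact SimpleGraph.dist_le q
    have h2 : q.length + 1 = B.dist x v := by simpa using hp
    have h3 : B.dist x v ≤ B.dist x u + 1 := by
      obtain ⟨q', hq'⟩ := (q.reachable.symm).exists_walk_length_eq_dist
      have := SimpleGraph.dist_le (q'.concat hadj.symm)
      rw [SimpleGraph.Walk.length_concat, hq'] at this
      exact this
    omega

/-- The gauge at depth `n`. -/
private def exTrHn {α V : Type*} [Group V] (φ : α → α → V) (par : α → α) : ℕ → α → V
  | 0, _ => 1
  | n + 1, v => exTrHn φ par n (par v) * φ (par v) v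

theorem exists_tree {α V : Type*} [Group V] (B : SimpleGraph α) (φ : α → α → V)
    (anti : ∀ a b, φ b a = (φ a b)⁻¹) (x : α) :
    ∃ (φ' : α → α → V) (par : α → α), TreeOn B φ' (fun v => B.dist x v) par ∧
      (∀ n, HasC (Lift B φ') n → HasC (Lift B φ) n) ∧
      ∀ v, B.Reachable x v → par^[B.dist x v] v = x := by
  classical
  have hex : ∀ v, ∃ u, 0 < B.dist x v → B.Adj u v ∧ B.dist x u + 1 = B.dist x v := by
    intro v
    by_cases h : 0 < B.dist x v
    · obtain ⟨u, hu⟩ := exTr_pre B x v h
      exact ⟨u, fun _ => hu⟩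
    · exact ⟨v, fun h' => absurd h' h⟩
  choose par hpar using hex
  set H : α → V := fun v => exTrHn φ par (B.dist x v) v with hH
  refine ⟨fun a b => H a * φ a b * (H b)⁻¹, par, ⟨?_, ?_, ?_, ?_⟩, ?_, ?_⟩
  · intro a b
    simp only [mul_inv_rev, inv_inv, anti a b, mul_assoc]
  · intro v hv
    exact (hpar v hv).1
  · intro v hv
    exact (hpar v hv).2
  · intro v hv
    have h1 : H v = H (par v) * φ (par v) v := by
      simp only [hH]
      rw [← (hpar v hv).2]
      rfl
    show H (par v) * φ (par v) v * (H v)⁻¹ = 1
    rw [← h1, mul_inv_cancel]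
  · rintro n ⟨f⟩
    refine ⟨⟨⟨fun i => ((f i).1, (f i).2 * H (f i).1), ?_⟩, ?_⟩⟩
    · intro a b hab
      obtain ⟨h1, h2, h3⟩ := f.toHom.map_adj hab
      refine ⟨h1, ?_, ?_⟩
      · show (f b).2 * H (f b).1 = (f a).2 * H (f a).1 * φ (f a).1 (f b).1
        have h2' : (f b).2 = (f a).2 * (H (f a).1 * φ (f a).1 (f b).1 * (H (f b).1)⁻¹) := h2
        rw [h2']
        simp only [mul_assoc, inv_mul_cancel, mul_one]
      · show (f a).2 * H (f a).1 = (f b).2 * H (f b).1 * φ (f b).1 (f a).1
        have h3' : (f a).2 = (f b).2 * (H (f b).1 * φ (f b).1 (f a).1 * (H (f a).1)⁻¹) := h3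
        rw [h3']
        simp only [mul_assoc, inv_mul_cancel, mul_one]
    · intro a b hab
      have hab' : ((f a).1, (f a).2 * H (f a).1) = ((f b).1, (f b).2 * H (f b).1) := hab
      obtain ⟨h1, h2⟩ := Prod.mk.inj hab'
      rw [h1] at h2
      exact f.injective (Prod.ext h1 (mul_right_cancel h2))
  · have key : ∀ n v, B.Reachable x v → B.dist x v = n → par^[n] v = x := by
      intro n
      induction n with
      | zero =>
        intro v hr hd
        exact (hr.dist_eq_zero_iff.mp hd).symm
      | succ n ih =>
        intro v hr hd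
        have hp := hpar v (by omega)
        rw [Function.iterate_succ_apply]
        exact ih (par v) (hr.trans hp.1.symm.reachable) (by omega)
    intro v hr
    exact key _ v hr rfl

end Pool.Agent.helper20.AL
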