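import Pool.Agent.helper20.AL.Dense
import Pool.Agent.helper20.AL.Tree
import Pool.Agent.helper20.AL.Growth
import Pool.Agent.helper20.AL.Sub

/-! # AL-Base (helper20): the bound for the base graph -/

set_option autoImplicit false

namespace Pool.Agent.helper20.AL

open Finset

theorem sc_succ_le (M h : ℕ) : sc M h ≤ sc M (h + 1) := by
  have h1 : sc M (h + 1) = M + (sc M h + (M + 2 * sc M h * (1 + M))) * (1 + M) := rfl
  rw [h1]
  have h2 : (sc M h + (M + 2 * sc M h * (1 + M))) * 1 ≤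
      (sc M h + (M + 2 * sc M h * (1 + M))) * (1 + M) := Nat.mul_le_mul_left _ (by omega)
  omega

theorem sc_mono (M : ℕ) {h h' : ℕ} (hh : h ≤ h') : sc M h ≤ sc M h' :=
  monotone_nat_of_le_succ (sc_succ_le M) hh

theorem sc_pos (M h : ℕ) : 1 ≤ sc M h := (le_refl 1).trans (sc_mono M (Nat.zero_le h))

theorem base.{u, v} {V : Type v} [Group V] {k ℓ M : ℕ} (hℓ : 1 ≤ ℓ)
    (hCC : CoreCyc.{u, v} V k (ℓ - 1) M) (hM : 2 * k + 4 ≤ M) (hk : ℓ ≤ k) {α : Type u} [Fintype α]
    (B : SimpleGraph α) (φ : α → α → V) (anti : ∀ a b, φ b a = (φ a b)⁻¹)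
    (hno : ¬ HasC (Lift B φ) (2 * k)) :
    B.edgeSet.ncard ^ ℓ ≤ (12 * sc M (ℓ - 1)) ^ ℓ * Fintype.card α ^ (ℓ + 1) := by
  classical
  rcases isEmpty_or_nonempty α with hα | hα
  · have h0 : B.edgeSet.ncard = 0 := by
      rw [Set.ncard_eq_zero (Set.toFinite _)]
      ext e
      induction e using Sym2.ind with
      | _ a b => exact (hα.false a).elim
    rw [h0, zero_pow (by omega)]
    exact Nat.zero_le _
  set t := Fintype.card α with ht
  have ht1 : 1 ≤ t := Fintype.card_pos
  set s := sc M (ℓ - 1) with hs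
  have hs1 : 1 ≤ s := sc_pos M _
  set m := B.edgeSet.ncard with hm
  set d := m / (2 * t) with hd
  have hmd : m < 2 * t * (d + 1) := by
    have := Nat.lt_mul_div_succ m (show 0 < 2 * t by omega)
    rwa [← hd] at this
  by_cases h6 : 6 * s ≤ d
  · -- large degree
    have hd1 : 1 ≤ d := by omega
    have hdm : 2 * d * t ≤ m := by
      have := Nat.div_mul_le_self m (2 * t)
      rw [← hd] at this
      calc 2 * d * t = d * (2 * t) := by ring
        _ ≤ m := this
    obtain ⟨B', c, x, hB', hc, hdeg⟩ := exists_sub B d hd1 hdm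
    have hno' : ¬ HasC (Lift B' φ) (2 * k) := by
      intro hC
      apply hno
      have hle : Lift B' φ ≤ Lift B φ := by
        intro y z hyz
        exact ⟨hB' hyz.1, hyz.2⟩
      exact hC.mono_right hle
    obtain ⟨φ', par, hT, hcyc, hroot⟩ := exists_tree B' φ anti x
    have hno'' : ¬ HasC (Lift B' φ') (2 * k) := fun hC => hno' (hcyc _ hC)
    have hg := growth B' c hc x d s ℓ hs1 h6 hdeg (by
      intro i hi
      have h1 := dense hCC hM (by omega) hT hno'' i (by omega) i x (lv B' x i) (lv B' x (i + 1))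
        le_rfl (by
          intro w hw
          simp only [lv, mem_filter] at hw
          refine ⟨hw.2.2, ?_⟩
          have := hroot w hw.2.1
          rw [hw.2.2] at this
          exact this) (by
          intro z hz
          simp only [lv, mem_filter] at hz
          exact hz.2.2)
      refine h1.trans (Nat.mul_le_mul_right _ ?_)
      exact sc_mono M (by omega))
    have h2 : m ≤ 4 * t * d := by
      have : 2 * t * (d + 1) ≤ 4 * t * d := by nlinarith
      omega
    calc m ^ ℓ ≤ (4 * t * d) ^ ℓ := Nat.pow_le_pow_left h2 _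
      _ = (4 * t) ^ ℓ * d ^ ℓ := by rw [mul_pow]
      _ ≤ (4 * t) ^ ℓ * ((2 * s) ^ ℓ * t) := Nat.mul_le_mul_left _ hg
      _ = (8 * s) ^ ℓ * t ^ (ℓ + 1) := by
        rw [show 8 * s = 4 * (2 * s) by ring, mul_pow, mul_pow 4 (2 * s), pow_succ]
        ring
      _ ≤ (12 * s) ^ ℓ * t ^ (ℓ + 1) :=
        Nat.mul_le_mul_right _ (Nat.pow_le_pow_left (by omega) _)
  · have h2 : m ≤ 12 * s * t := by
      have : 2 * t * (d + 1) ≤ 2 * t * (6 * s) := Nat.mul_le_mul_left _ (by omega)
      have h3 : 2 * t * (6 * s) = 12 * s * t := by ring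
      omega
    calc m ^ ℓ ≤ (12 * s * t) ^ ℓ := Nat.pow_le_pow_left h2 _
      _ = (12 * s) ^ ℓ * t ^ ℓ := by rw [mul_pow]
      _ ≤ (12 * s) ^ ℓ * t ^ (ℓ + 1) :=
        Nat.mul_le_mul_left _ (Nat.pow_le_pow_right ht1 (by omega))

end Pool.Agent.helper20.AL
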