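import Mathlib

/-!
# Project AL (MP_facdf9_co, helper20): even cycles in lifts of graphs

`B` is a graph, `φ` a voltage assignment with values in a group `V`, `Lift B φ` the lifted graph on `α × V`.
Theorem: if `V` is abelian and `Lift B φ` has no cycle of length `2 k`, then `B` has at most
`C t ^ (1 + 1 / ⌊k / 3⌋)` edges, `t` the number of vertices of `B`.
-/

set_option autoImplicit false

namespace Pool.Agent.helper20.AL

/-- The lift of the graph `B` with voltages `φ` in the group `V`. -/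
def Lift {α V : Type*} [Group V] (B : SimpleGraph α) (φ : α → α → V) : SimpleGraph (α × V) where
  Adj x y := B.Adj x.1 y.1 ∧ y.2 = x.2 * φ x.1 y.1 ∧ x.2 = y.2 * φ y.1 x.1
  symm := ⟨fun _ _ h => ⟨h.1.symm, h.2.2, h.2.1⟩⟩
  loopless := ⟨fun _ h => h.1.ne rfl⟩

/-- `Γ` contains a cycle of length `n`. -/
abbrev HasC {β : Type*} (Γ : SimpleGraph β) (n : ℕ) : Prop := (SimpleGraph.cycleGraph n).IsContained Γ

open Classical in
/-- The number of pairs of `W × Z` in the relation `R`. -/
noncomputable def ed {α ζ : Type*} (R : α → ζ → Prop) (W : Finset α) (Z : Finset ζ) : ℕ :=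
  ((W ×ˢ Z).filter (fun x => R x.1 x.2)).card

/-- A core: every `w ∈ W` has many neighbours in `Z`, every `z ∈ Z` has many neighbours in `W` with different
branches `bra` and different classes `cl`. -/
structure Core {α ζ β γ : Type*} (R : α → ζ → Prop) (bra : α → β) (cl : α → ζ → γ)
    (W : Finset α) (Z : Finset ζ) (M : ℕ) : Prop where
  wz : ∀ w ∈ W, ∀ F : Finset ζ, F.card < M → ∃ z ∈ Z, R w z ∧ z ∉ F
  zw : ∀ z ∈ Z, ∀ (F : Finset β) (F' : Finset γ), F.card + F'.card < M →
    ∃ w ∈ W, R w z ∧ bra w ∉ F ∧ cl w z ∉ F'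

/-- An alternating path `z, w₁, z₁, w₂, z₂, …, z'`, given by the pairs `(wᵢ, zᵢ)`. -/
def AP {α ζ : Type*} (R : α → ζ → Prop) : ζ → List (α × ζ) → ζ → Prop
  | z, [], z' => z' = z
  | z, x :: P, z' => R x.1 z ∧ R x.1 x.2 ∧ AP R x.2 P z'

/-- A (partial) spanning tree with levels `lev` and parents `par`, with trivial voltages on its edges. -/
structure TreeOn {α V : Type*} [Group V] (B : SimpleGraph α) (φ : α → α → V) (lev : α → ℕ)
    (par : α → α) : Prop where
  anti : ∀ a b, φ b a = (φ a b)⁻¹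
  adj : ∀ v, 0 < lev v → B.Adj (par v) v
  lv : ∀ v, 0 < lev v → lev (par v) + 1 = lev v
  gauge : ∀ v, 0 < lev v → φ (par v) v = 1

/-- The path in the tree from `w` upwards, `h` vertices `w, par w, …`. -/
def tw {α : Type*} (par : α → α) (h : ℕ) (w : α) : List α := (List.range h).map (fun r => par^[r] w)

/-- The product of the voltages along the walk `a :: l`. -/
def hol {α V : Type*} [Group V] (φ : α → α → V) : α → List α → V
  | _, [] => 1
  | a, b :: l => φ a b * hol φ b l

/-- The lift of the walk `a :: l` starting at `(a, g)`, without the first vertex. -/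
def lf {α V : Type*} [Group V] (φ : α → α → V) : V → α → List α → List (α × V)
  | _, _, [] => []
  | g, a, b :: l => (b, g * φ a b) :: lf φ (g * φ a b) b l

/-- Cores of height at most `H` give a cycle of length `2 k` in the lift. -/
def CoreCyc.{u, v} (V : Type v) [Group V] (k H M : ℕ) : Prop :=
  ∀ (α : Type u) (B : SimpleGraph α) (φ : α → α → V) (lev : α → ℕ) (par : α → α),
    TreeOn B φ lev par → ∀ (h j : ℕ) (p : α) (W Z : Finset α), 1 ≤ h → h ≤ H → h ≤ j →
    (∀ w ∈ W, lev w = j ∧ par^[h] w = p) → (∀ z ∈ Z, lev z = j + 1) → Z.Nonempty →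
    Core B.Adj (par^[h - 1]) φ W Z M → HasC (Lift B φ) (2 * k)

/-- The constants of the density argument. -/
def sc (M : ℕ) : ℕ → ℕ
  | 0 => 1
  | h + 1 => M + (sc M h + (M + 2 * sc M h * (1 + M))) * (1 + M)

/-- The branch of `x`: its ancestor at level `m + 1`. -/
def brx {α : Type*} (lev : α → ℕ) (par : α → α) (m : ℕ) (x : α) : α := par^[lev x - m - 1] x

/-- `x` is a vertex of the tree in one of the branches `Fb` or a vertex of level `j + 1` in `Fz`. -/
def Used {α : Type*} (lev : α → ℕ) (par : α → α) (m j : ℕ) (Fb Fz : Finset α) (x : α) : Prop :=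
  (m < lev x ∧ lev x ≤ j ∧ brx lev par m x ∈ Fb) ∨ (lev x = j + 1 ∧ x ∈ Fz)

/-- `x` is a vertex of the tree in none of the branches `Fb` or a vertex of level `j + 1` not in `Fz`. -/
def Free {α : Type*} (lev : α → ℕ) (par : α → α) (m j : ℕ) (Fb Fz : Finset α) (x : α) : Prop :=
  (m < lev x ∧ lev x ≤ j ∧ brx lev par m x ∉ Fb) ∨ (lev x = j + 1 ∧ x ∉ Fz)

/-- No cycles shorter than `g`. -/
def Girth {α : Type*} (B : SimpleGraph α) (g : ℕ) : Prop :=
  ∀ (r : ℕ) (u : ℕ → α), 3 ≤ r → (∀ i < r, B.Adj (u i) (u (i + 1))) → u r = u 0 →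
    (∀ i < r, ∀ j < r, u i = u j → i = j) → g ≤ r

end Pool.Agent.helper20.AL
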