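import Pool.Agent.helper20.AL.BS

/-! # AL-Dense (helper20): the levels are sparse -/

set_option autoImplicit false

namespace Pool.Agent.helper20.AL

open Finset

theorem ed_mono {α ζ : Type*} {R : α → ζ → Prop} {W W' : Finset α} {Z Z' : Finset ζ} (h : W ⊆ W')
    (h' : Z ⊆ Z') : ed R W Z ≤ ed R W' Z' := by
  classical
  unfold ed
  apply card_le_card
  intro x hx
  rw [mem_filter, mem_product] at hx ⊢
  exact ⟨⟨h hx.1.1, h' hx.1.2⟩, hx.2⟩

theorem dense.{u, v} {V : Type v} [Group V] {k H M : ℕ} (hCC : CoreCyc.{u, v} V k H M)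
    (hM : 2 * k + 4 ≤ M) (hk : H + 1 ≤ k) {α : Type u} {B : SimpleGraph α} {φ : α → α → V}
    {lev : α → ℕ} {par : α → α} (hT : TreeOn B φ lev par) (hno : ¬ HasC (Lift B φ) (2 * k)) :
    ∀ h ≤ H, ∀ (j : ℕ) (p : α) (W Z : Finset α), h ≤ j →
      (∀ w ∈ W, lev w = j ∧ par^[h] w = p) → (∀ z ∈ Z, lev z = j + 1) →
      ed B.Adj W Z ≤ sc M h * (W.card + Z.card) := by
  classical
  intro h
  induction h with
  | zero =>
    intro _ j p W Z _ hW _
    have hWp : W ⊆ {p} := by
      intro w hw
      rw [mem_singleton]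
      exact (hW w hw).2
    have h1 : ed B.Adj W Z ≤ W.card * Z.card := by
      unfold ed
      refine (card_filter_le _ _).trans ?_
      rw [card_product]
    have h2 : W.card ≤ 1 := (card_le_card hWp).trans (by simp)
    calc ed B.Adj W Z ≤ W.card * Z.card := h1
      _ ≤ 1 * Z.card := Nat.mul_le_mul_right _ h2
      _ ≤ sc M 0 * (W.card + Z.card) := by
        simp only [sc]
        omega
  | succ h ih =>
    intro hH j p W Z hj hW hZ
    by_contra hcon
    push Not at hcon
    have hs : ∀ b, ∀ Z' ⊆ Z, ed B.Adj (W.filter (fun w => par^[h] w = b)) Z' ≤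
        sc M h * ((W.filter (fun w => par^[h] w = b)).card + Z'.card) := by
      intro b Z' hZ'
      apply ih (by omega) j b _ _ (by omega)
      · intro w hw
        rw [mem_filter] at hw
        exact ⟨(hW w hw.1).1, hw.2⟩
      · intro z hz
        exact hZ z (hZ' hz)
    have hbs : ∀ Zt : Finset (α × V), (∀ x ∈ Zt, x.1 ∈ Z) →
        ed (fun w (x : α × V) => B.Adj w x.1 ∧ φ w x.1 = x.2) W Zt ≤
          (M + 2 * sc M h * (1 + M)) * (W.card + Zt.card) := by
      intro Zt hZt
      exact bs hT (k := k) (h := h + 1) (j := j) (by omega) hj (by omega) hM hW hZ hs hno Zt hZt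
    have hlt : (M + (sc M h + (M + 2 * sc M h * (1 + M))) * (1 + M)) * (W.card + Z.card) <
        ed B.Adj W Z := by
      simpa only [sc] using hcon
    obtain ⟨W', hW', Z', hZ', hWn, hZn, hC⟩ :=
      spread B.Adj (par^[h]) φ M (sc M h) (M + 2 * sc M h * (1 + M)) W Z hs hbs hlt
    exact hno (hCC α B φ lev par hT (h + 1) j p W' Z' (by omega) hH hj
      (fun w hw => hW w (hW' hw)) (fun z hz => hZ z (hZ' hz)) hZn hC)

end Pool.Agent.helper20.AL
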