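import Pool.Agent.helper20.AL.Defs

/-!
# AL-Elim: elimination to a core

`elim`: PROOF by strong induction on `W.card + Z.card` (e.g. `induction n generalizing W Z` with `W.card + Z.card ≤ n`).
If `Z = ∅` or `W = ∅`: second alternative with `E = ∅`, `Q z = ∅`, `G z = ∅`.  Otherwise, if `Core R bra cl W Z M` holds, take
`W' = W`, `Z' = Z`.  If `wz` fails for `w ∈ W` and `F` (`F.card < M`, every `z ∈ Z` with `R w z` lies in `F`): apply the induction
hypothesis to `(W.erase w, Z)`; in the second case add `{w} ×ˢ F` to `E` (its size grows by at most `M`).  If `zw` fails for `z ∈ Z`,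
`F`, `F'`: apply the induction hypothesis to `(W, Z.erase z)`, and put `Q z := F`, `G z := F'` (`Function.update`).

`spread`: if there is no core then with `E, Q, G` from `elim`
`ed R W Z ≤ E.card + #{(w, z) : bra w ∈ Q z} + #{(w, z) : R w z, cl w z ∈ G z}`.
* Second term: sum over `b ∈ W.image bra` of `ed R (W.filter (bra · = b)) (Z.filter (b ∈ Q ·))`, which is at most
  `s * (card + card)` by `hs`; the sum of the first cards is `W.card`, the sum of the second cards is at most
  `∑ z ∈ Z, (Q z).card ≤ M * Z.card` (double counting).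
* Third term: the map `(w, z) ↦ (w, (z, cl w z))` is an injection into the pairs counted by
  `ed (fun w x => R w x.1 ∧ cl w x.1 = x.2) W Zt` with `Zt = Z.biUnion (fun z => (G z).image (fun g => (z, g)))`, `Zt.card ≤ M * Z.card`; `hs'`.
So `ed R W Z ≤ M * W.card + s * (W.card + M * Z.card) + s' * (W.card + M * Z.card) ≤ (M + (s + s') * (1 + M)) * (W.card + Z.card)`.

`spread0`: the same with `γ = β`, `cl w z = bra w`: all pairs outside `E` have `bra w ∈ Q z ∪ G z`, a set of size at most `2 * M`.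
-/

set_option autoImplicit false

namespace Pool.Agent.helper20.AL

open Finset

theorem elim {α ζ β γ : Type*} [DecidableEq α] [DecidableEq ζ] [DecidableEq β] [DecidableEq γ]
    (R : α → ζ → Prop) (bra : α → β) (cl : α → ζ → γ) (M : ℕ) (W : Finset α)
    (Z : Finset ζ) :
    (∃ W' ⊆ W, ∃ Z' ⊆ Z, W'.Nonempty ∧ Z'.Nonempty ∧ Core R bra cl W' Z' M) ∨
    ∃ (E : Finset (α × ζ)) (Q : ζ → Finset β) (G : ζ → Finset γ), E.card ≤ M * W.card ∧
      (∀ z, (Q z).card ≤ M ∧ (G z).card ≤ M) ∧
      ∀ w ∈ W, ∀ z ∈ Z, R w z → (w, z) ∈ E ∨ bra w ∈ Q z ∨ cl w z ∈ G z := by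
  classical
  suffices H : ∀ (n : ℕ) (W : Finset α) (Z : Finset ζ), W.card + Z.card ≤ n →
      (∃ W' ⊆ W, ∃ Z' ⊆ Z, W'.Nonempty ∧ Z'.Nonempty ∧ Core R bra cl W' Z' M) ∨
      ∃ (E : Finset (α × ζ)) (Q : ζ → Finset β) (G : ζ → Finset γ), E.card ≤ M * W.card ∧
        (∀ z, (Q z).card ≤ M ∧ (G z).card ≤ M) ∧
        ∀ w ∈ W, ∀ z ∈ Z, R w z → (w, z) ∈ E ∨ bra w ∈ Q z ∨ cl w z ∈ G z from
    H _ W Z le_rfl
  intro n
  induction n with
  | zero =>
    intro W Z h
    refine Or.inr ⟨∅, fun _ => ∅, fun _ => ∅, by simp, by simp, ?_⟩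
    intro w hw
    have : W.card = 0 := by omega
    rw [Finset.card_eq_zero] at this
    simp [this] at hw
  | succ n ih =>
    intro W Z h
    rcases W.eq_empty_or_nonempty with hW | hW
    · refine Or.inr ⟨∅, fun _ => ∅, fun _ => ∅, by simp, by simp, ?_⟩
      intro w hw
      simp [hW] at hw
    rcases Z.eq_empty_or_nonempty with hZ | hZ
    · refine Or.inr ⟨∅, fun _ => ∅, fun _ => ∅, by simp, by simp, ?_⟩
      intro w _ z hz
      simp [hZ] at hz
    by_cases h1 : ∀ w ∈ W, ∀ F : Finset ζ, F.card < M → ∃ z ∈ Z, R w z ∧ z ∉ F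
    · by_cases h2 : ∀ z ∈ Z, ∀ (F : Finset β) (F' : Finset γ), F.card + F'.card < M →
          ∃ w ∈ W, R w z ∧ bra w ∉ F ∧ cl w z ∉ F'
      · exact Or.inl ⟨W, subset_rfl, Z, subset_rfl, hW, hZ, ⟨h1, h2⟩⟩
      · push Not at h2
        obtain ⟨z0, hz0, F, F', hFF, hno⟩ := h2
        have hc : W.card + (Z.erase z0).card ≤ n := by
          rw [Finset.card_erase_of_mem hz0]
          have := Finset.card_pos.mpr hZ
          omega
        rcases ih W (Z.erase z0) hc with ⟨W', hW', Z', hZ', h3⟩ | ⟨E, Q, G, hE, hQG, hcov⟩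
        · exact Or.inl ⟨W', hW', Z', hZ'.trans (Finset.erase_subset _ _), h3⟩
        · refine Or.inr ⟨E, Function.update Q z0 F, Function.update G z0 F', hE, ?_, ?_⟩
          · intro z
            rcases eq_or_ne z z0 with rfl | hz
            · simp only [Function.update_self]
              omega
            · simp only [Function.update_of_ne hz]
              exact hQG z
          · intro w hw z hz hR
            rcases eq_or_ne z z0 with rfl | hzz
            · simp only [Function.update_self]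
              by_cases hb : bra w ∈ F
              · exact Or.inr (Or.inl hb)
              · exact Or.inr (Or.inr (hno w hw hR hb))
            · simp only [Function.update_of_ne hzz]
              exact hcov w hw z (Finset.mem_erase.mpr ⟨hzz, hz⟩) hR
    · push Not at h1
      obtain ⟨w0, hw0, F, hF, hno⟩ := h1
      have hc : (W.erase w0).card + Z.card ≤ n := by
        rw [Finset.card_erase_of_mem hw0]
        have := Finset.card_pos.mpr hW
        omega
      rcases ih (W.erase w0) Z hc with ⟨W', hW', Z', hZ', h3⟩ | ⟨E, Q, G, hE, hQG, hcov⟩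
      · exact Or.inl ⟨W', hW'.trans (Finset.erase_subset _ _), Z', hZ', h3⟩
      · refine Or.inr ⟨E ∪ ({w0} ×ˢ F), Q, G, ?_, hQG, ?_⟩
        · refine (Finset.card_union_le _ _).trans ?_
          rw [Finset.card_product, Finset.card_singleton, one_mul]
          rw [Finset.card_erase_of_mem hw0] at hE
          have hp := Finset.card_pos.mpr hW
          obtain ⟨c, hc'⟩ : ∃ c, W.card = c + 1 := ⟨W.card - 1, by omega⟩
          rw [hc'] at hE ⊢
          simp only [Nat.add_sub_cancel] at hE
          rw [mul_add, mul_one]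
          omega
        · intro w hw z hz hR
          rcases eq_or_ne w w0 with rfl | hww
          · left
            rw [Finset.mem_union, Finset.mem_product]
            right
            exact ⟨Finset.mem_singleton_self _, hno z hz hR⟩
          · rcases hcov w (Finset.mem_erase.mpr ⟨hww, hw⟩) z hz hR with h4 | h4
            · exact Or.inl (Finset.mem_union_left _ h4)
            · exact Or.inr h4

private lemma elim_branch {α ζ β : Type*} [DecidableEq α] [DecidableEq ζ] [DecidableEq β]
    (R : α → ζ → Prop) (bra : α → β) (m s : ℕ) (W : Finset α) (Z : Finset ζ)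
    (Q : ζ → Finset β) (hQ : ∀ z, (Q z).card ≤ m)
    (hs : ∀ b, ∀ Z' ⊆ Z, ed R (W.filter (fun w => bra w = b)) Z' ≤
      s * ((W.filter (fun w => bra w = b)).card + Z'.card))
    (S : Finset (α × ζ))
    (hS : ∀ x ∈ S, x.1 ∈ W ∧ x.2 ∈ Z ∧ R x.1 x.2 ∧ bra x.1 ∈ Q x.2) :
    S.card ≤ s * (W.card + m * Z.card) := by
  classical
  have h1 : S ⊆ (W.image bra).biUnion (fun b =>
      ((W.filter (fun w => bra w = b)) ×ˢ (Z.filter (fun z => b ∈ Q z))).filter
        (fun x => R x.1 x.2)) := by
    intro x hx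
    obtain ⟨hw, hz, hR, hb⟩ := hS x hx
    simp only [Finset.mem_biUnion, Finset.mem_image, Finset.mem_filter, Finset.mem_product]
    exact ⟨bra x.1, ⟨x.1, hw, rfl⟩, ⟨⟨hw, rfl⟩, hz, hb⟩, hR⟩
  have h2 : ∀ b, (((W.filter (fun w => bra w = b)) ×ˢ (Z.filter (fun z => b ∈ Q z))).filter
        (fun x => R x.1 x.2)).card ≤ s * ((W.filter (fun w => bra w = b)).card +
          (Z.filter (fun z => b ∈ Q z)).card) := by
    intro b
    have := hs b (Z.filter (fun z => b ∈ Q z)) (Finset.filter_subset _ _)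
    unfold ed at this
    convert this
  have h3 : ∑ b ∈ W.image bra, (Z.filter (fun z => b ∈ Q z)).card ≤ m * Z.card := by
    have h4 := Finset.sum_card_bipartiteAbove_eq_sum_card_bipartiteBelow
      (s := W.image bra) (t := Z) (fun b z => b ∈ Q z)
    simp only [Finset.bipartiteAbove, Finset.bipartiteBelow] at h4
    rw [h4]
    calc ∑ z ∈ Z, ((W.image bra).filter (fun b => b ∈ Q z)).card ≤ ∑ z ∈ Z, m := by
          refine Finset.sum_le_sum fun z _ => ?_
          refine (Finset.card_le_card ?_).trans (hQ z)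
          intro b hb
          exact (Finset.mem_filter.mp hb).2
      _ = m * Z.card := by simp [mul_comm]
  calc S.card ≤ _ := Finset.card_le_card h1
    _ ≤ ∑ b ∈ W.image bra, _ := Finset.card_biUnion_le
    _ ≤ ∑ b ∈ W.image bra, s * ((W.filter (fun w => bra w = b)).card +
          (Z.filter (fun z => b ∈ Q z)).card) := Finset.sum_le_sum fun b _ => h2 b
    _ = s * (∑ b ∈ W.image bra, (W.filter (fun w => bra w = b)).card +
          ∑ b ∈ W.image bra, (Z.filter (fun z => b ∈ Q z)).card) := by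
        rw [← Finset.mul_sum, Finset.sum_add_distrib]
    _ ≤ s * (W.card + m * Z.card) := by
        rw [← Finset.card_eq_sum_card_image bra W]
        exact Nat.mul_le_mul_left _ (Nat.add_le_add_left h3 _)

theorem spread {α ζ β γ : Type*} [DecidableEq α] [DecidableEq ζ] [DecidableEq β] [DecidableEq γ]
    (R : α → ζ → Prop) (bra : α → β) (cl : α → ζ → γ) (M s s' : ℕ) (W : Finset α)
    (Z : Finset ζ)
    (hs : ∀ b, ∀ Z' ⊆ Z, ed R (W.filter (fun w => bra w = b)) Z' ≤
      s * ((W.filter (fun w => bra w = b)).card + Z'.card))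
    (hs' : ∀ Zt : Finset (ζ × γ), (∀ x ∈ Zt, x.1 ∈ Z) →
      ed (fun w x => R w x.1 ∧ cl w x.1 = x.2) W Zt ≤ s' * (W.card + Zt.card))
    (hlt : (M + (s + s') * (1 + M)) * (W.card + Z.card) < ed R W Z) :
    ∃ W' ⊆ W, ∃ Z' ⊆ Z, W'.Nonempty ∧ Z'.Nonempty ∧ Core R bra cl W' Z' M := by
  classical
  rcases elim R bra cl M W Z with h | ⟨E, Q, G, hE, hQG, hcov⟩
  · exact h
  exfalso
  set A : Finset (α × ζ) := (W ×ˢ Z).filter (fun x => R x.1 x.2 ∧ bra x.1 ∈ Q x.2) with hA
  set B : Finset (α × ζ) := (W ×ˢ Z).filter (fun x => R x.1 x.2 ∧ cl x.1 x.2 ∈ G x.2) with hB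
  have hsub : (W ×ˢ Z).filter (fun x => R x.1 x.2) ⊆ E ∪ (A ∪ B) := by
    intro x hx
    obtain ⟨hx1, hR⟩ := Finset.mem_filter.mp hx
    obtain ⟨hw, hz⟩ := Finset.mem_product.mp hx1
    rw [Finset.mem_union, Finset.mem_union]
    rcases hcov x.1 hw x.2 hz hR with h1 | h1 | h1
    · exact Or.inl h1
    · exact Or.inr (Or.inl (Finset.mem_filter.mpr ⟨hx1, hR, h1⟩))
    · exact Or.inr (Or.inr (Finset.mem_filter.mpr ⟨hx1, hR, h1⟩))
  have hAc : A.card ≤ s * (W.card + M * Z.card) := by
    refine elim_branch R bra M s W Z Q (fun z => (hQG z).1) hs A ?_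
    intro x hx
    obtain ⟨hx1, hR, hb⟩ := Finset.mem_filter.mp hx
    obtain ⟨hw, hz⟩ := Finset.mem_product.mp hx1
    exact ⟨hw, hz, hR, hb⟩
  set Zt : Finset (ζ × γ) := Z.biUnion (fun z => (G z).image (fun g => (z, g))) with hZt
  have hZtc : Zt.card ≤ M * Z.card := by
    refine Finset.card_biUnion_le.trans ?_
    calc ∑ z ∈ Z, ((G z).image (fun g => (z, g))).card ≤ ∑ z ∈ Z, M :=
          Finset.sum_le_sum fun z _ => Finset.card_image_le.trans (hQG z).2
      _ = M * Z.card := by simp [mul_comm]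
  have hBc : B.card ≤ s' * (W.card + M * Z.card) := by
    have h1 := hs' Zt (by
      intro x hx
      obtain ⟨z, hz, hx2⟩ := Finset.mem_biUnion.mp hx
      obtain ⟨g, _, rfl⟩ := Finset.mem_image.mp hx2
      exact hz)
    have h2 : B.card ≤ ed (fun w x => R w x.1 ∧ cl w x.1 = x.2) W Zt := by
      unfold ed
      refine Finset.card_le_card_of_injOn (fun x => (x.1, (x.2, cl x.1 x.2))) ?_ ?_
      · intro x hx
        obtain ⟨hx1, hR, hb⟩ := Finset.mem_filter.mp hx
        obtain ⟨hw, hz⟩ := Finset.mem_product.mp hx1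
        simp only [Finset.coe_filter, Finset.mem_product, Set.mem_ofPred_eq]
        refine ⟨⟨hw, ?_⟩, hR, trivial⟩
        exact Finset.mem_biUnion.mpr ⟨x.2, hz, Finset.mem_image.mpr ⟨_, hb, rfl⟩⟩
      · intro x _ y _ hxy
        simp only [Prod.mk.injEq] at hxy
        exact Prod.ext hxy.1 hxy.2.1
    refine h2.trans (h1.trans ?_)
    exact Nat.mul_le_mul_left _ (Nat.add_le_add_left hZtc _)
  have hed : ed R W Z ≤ E.card + (A.card + B.card) := by
    have : ed R W Z = ((W ×ˢ Z).filter (fun x => R x.1 x.2)).card := by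
      unfold ed
      congr
    rw [this]
    refine (Finset.card_le_card hsub).trans ?_
    refine (Finset.card_union_le _ _).trans ?_
    exact Nat.add_le_add_left (Finset.card_union_le _ _) _
  have hfin : ed R W Z ≤ (M + (s + s') * (1 + M)) * (W.card + Z.card) := by
    calc ed R W Z ≤ M * W.card + (s * (W.card + M * Z.card) + s' * (W.card + M * Z.card)) := by
          omega
      _ ≤ (M + (s + s') * (1 + M)) * (W.card + Z.card) := by
          nlinarith [Nat.zero_le (M * Z.card), Nat.zero_le (s * Z.card), Nat.zero_le (s' * Z.card),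
            Nat.zero_le (s * M * W.card), Nat.zero_le (s' * M * W.card)]
  omega

theorem spread0 {α ζ β : Type*} [DecidableEq α] [DecidableEq ζ] [DecidableEq β]
    (R : α → ζ → Prop) (bra : α → β) (M s : ℕ) (W : Finset α) (Z : Finset ζ)
    (hs : ∀ b, ∀ Z' ⊆ Z, ed R (W.filter (fun w => bra w = b)) Z' ≤
      s * ((W.filter (fun w => bra w = b)).card + Z'.card))
    (hlt : (M + 2 * s * (1 + M)) * (W.card + Z.card) < ed R W Z) :
    ∃ W' ⊆ W, ∃ Z' ⊆ Z, W'.Nonempty ∧ Z'.Nonempty ∧
      Core R bra (fun w (_ : ζ) => bra w) W' Z' M := by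
  classical
  rcases elim R bra (fun w (_ : ζ) => bra w) M W Z with h | ⟨E, Q, G, hE, hQG, hcov⟩
  · exact h
  exfalso
  set A : Finset (α × ζ) := (W ×ˢ Z).filter (fun x => R x.1 x.2 ∧ bra x.1 ∈ Q x.2 ∪ G x.2)
    with hA
  have hsub : (W ×ˢ Z).filter (fun x => R x.1 x.2) ⊆ E ∪ A := by
    intro x hx
    obtain ⟨hx1, hR⟩ := Finset.mem_filter.mp hx
    obtain ⟨hw, hz⟩ := Finset.mem_product.mp hx1
    rw [Finset.mem_union]
    rcases hcov x.1 hw x.2 hz hR with h1 | h1 | h1
    · exact Or.inl h1
    · exact Or.inr (Finset.mem_filter.mpr ⟨hx1, hR, Finset.mem_union_left _ h1⟩)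
    · exact Or.inr (Finset.mem_filter.mpr ⟨hx1, hR, Finset.mem_union_right _ h1⟩)
  have hAc : A.card ≤ s * (W.card + 2 * M * Z.card) := by
    refine elim_branch R bra (2 * M) s W Z (fun z => Q z ∪ G z) (fun z => ?_) hs A ?_
    · have h1 := hQG z
      have h2 := Finset.card_union_le (Q z) (G z)
      omega
    · intro x hx
      obtain ⟨hx1, hR, hb⟩ := Finset.mem_filter.mp hx
      obtain ⟨hw, hz⟩ := Finset.mem_product.mp hx1
      exact ⟨hw, hz, hR, hb⟩
  have hed : ed R W Z ≤ E.card + A.card := by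
    have : ed R W Z = ((W ×ˢ Z).filter (fun x => R x.1 x.2)).card := by
      unfold ed
      congr
    rw [this]
    exact (Finset.card_le_card hsub).trans (Finset.card_union_le _ _)
  have hfin : ed R W Z ≤ (M + 2 * s * (1 + M)) * (W.card + Z.card) := by
    calc ed R W Z ≤ M * W.card + s * (W.card + 2 * M * Z.card) := by
          omega
      _ ≤ (M + 2 * s * (1 + M)) * (W.card + Z.card) := by
          nlinarith [Nat.zero_le (M * Z.card), Nat.zero_le (s * Z.card), Nat.zero_le (s * W.card),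
            Nat.zero_le (s * M * W.card), Nat.zero_le (s * M * Z.card)]
  omega

end Pool.Agent.helper20.AL
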