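import Pool.Agent.helper20.AL.Lists

/-!
# AL-Hex: three arcs with different holonomies give a cycle in an abelian lift

`V` is commutative, `L 0, L 1, L 2` are internally disjoint arcs from `q` to `p` in `B`, `d i` their holonomies, pairwise different.
PROOF.  From `arc` take functions `c i` with: for all `g` the list
`(q, g) :: ((L i).map (fun x => (x, g * c i x)) ++ [(p, g * d i)])` is a chain in `Lift B φ`.
The closed walk with the arcs `0, 1⁻¹, 2, 0⁻¹, 1, 2⁻¹`: with `a = d 0 * (d 1)⁻¹`, `b = d 2 * (d 1)⁻¹` it is the concatenation of six blocks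
1. `(q, 1) ::` lift of `L 0` at `1` (it ends before `(p, d 0)`),
2. `(p, d 0) ::` reversed lift of `L 1` at `a` (`a * d 1 = d 0`),
3. `(q, a) ::` lift of `L 2` at `a`,
4. `(p, a * d 2) ::` reversed lift of `L 0` at `b` (`b * d 0 = a * d 2`),
5. `(q, b) ::` lift of `L 1` at `b`,
6. `(p, d 2) ::` reversed lift of `L 2` at `1` (`b * d 1 = d 2`),
back to `(q, 1)`.
All vertices are different: the heads `q` have the voltages `1, a, b` (different as the `d i` are), the heads `p` have `d 0, a * d 2, d 2`
(different), the two lifts of `L 0` are at `1` and `b`, those of `L 1` at `a` and `b`, those of `L 2` at `a` and `1`; different lifts of the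
same list are disjoint (`c i x` cancels), lifts of different lists are disjoint by the first coordinates.
It is convenient to prove a lemma on blocks `(x, g) :: (L i).map (fun y => (y, u * c i y))` (and the reversed version), and to use
`List.nodup_flatten` or repeated `List.nodup_append`; the total length is `2 * ((L 0).length + (L 1).length + (L 2).length + 3)`.
-/

set_option autoImplicit false

namespace Pool.Agent.helper20.AL

private theorem hexN {α V : Type*} [CommGroup V] {L : List α} (hL : L.Nodup) (c : α → V) {g g' : V}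
    (h : g ≠ g') :
    (L.map (fun x => (x, g * c x)) ++ L.map (fun x => (x, g' * c x))).Nodup ∧
      ∀ y ∈ (L.map (fun x => (x, g * c x)) ++ L.map (fun x => (x, g' * c x))), y.1 ∈ L := by
  refine ⟨?_, ?_⟩
  · rw [List.nodup_append]
    refine ⟨hL.map (fun x y hxy => (Prod.ext_iff.mp hxy).1),
      hL.map (fun x y hxy => (Prod.ext_iff.mp hxy).1), ?_⟩
    intro x hx y hy hxy
    subst hxy
    obtain ⟨u, hu, rfl⟩ := List.mem_map.mp hx
    obtain ⟨w, hw, hw2⟩ := List.mem_map.mp hy
    have e1 := (Prod.ext_iff.mp hw2).1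
    have e2 := (Prod.ext_iff.mp hw2).2
    simp only at e1 e2
    subst e1
    exact h (mul_right_cancel e2).symm
  · intro y hy
    rcases List.mem_append.mp hy with h | h
    all_goals
      obtain ⟨u, hu, rfl⟩ := List.mem_map.mp h
      exact hu

private theorem hexC {β : Type*} {Γ : SimpleGraph β} {l1 l2 : List β} {x y : β}
    (h1 : (l1 ++ [x]).IsChain Γ.Adj) (h2 : ((x :: l2) ++ [y]).IsChain Γ.Adj) :
    ((l1 ++ (x :: l2)) ++ [y]).IsChain Γ.Adj := by
  have h2' : ([x] ++ (l2 ++ [y])).IsChain Γ.Adj := by simpa using h2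
  have := List.IsChain.append_overlap h1 h2' (by simp)
  simpa using this

private theorem hexR {β : Type*} {Γ : SimpleGraph β} {l : List β} {x y : β}
    (h : (x :: (l ++ [y])).IsChain Γ.Adj) : ((y :: l.reverse) ++ [x]).IsChain Γ.Adj := by
  have h1 : (x :: (l ++ [y])).reverse = (y :: l.reverse) ++ [x] := by simp
  rw [← h1, List.isChain_reverse]
  exact h.imp (fun a b hab => hab.symm)

theorem hex {α V : Type*} [CommGroup V] {B : SimpleGraph α} {φ : α → α → V}
    (anti : ∀ a b, φ b a = (φ a b)⁻¹) (q p : α) (L0 L1 L2 : List α)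
    (h0 : (q :: (L0 ++ [p])).IsChain B.Adj) (h1 : (q :: (L1 ++ [p])).IsChain B.Adj)
    (h2 : (q :: (L2 ++ [p])).IsChain B.Adj) (hnd : (q :: p :: (L0 ++ (L1 ++ L2))).Nodup)
    (d01 : hol φ q (L0 ++ [p]) ≠ hol φ q (L1 ++ [p]))
    (d02 : hol φ q (L0 ++ [p]) ≠ hol φ q (L2 ++ [p]))
    (d12 : hol φ q (L1 ++ [p]) ≠ hol φ q (L2 ++ [p])) :
    HasC (Lift B φ) (2 * (L0.length + L1.length + L2.length + 3)) := by
  classical
  rw [List.nodup_cons, List.nodup_cons] at hnd
  obtain ⟨hq, hp, hL⟩ := hnd
  rw [List.nodup_append] at hL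
  obtain ⟨hL0, hL12, hd0⟩ := hL
  rw [List.nodup_append] at hL12
  obtain ⟨hL1, hL2, hd1⟩ := hL12
  have hqp : q ≠ p := fun h => hq (h ▸ List.mem_cons_self)
  have hq0 : q ∉ L0 := fun h => hq (by simp [h])
  have hq1 : q ∉ L1 := fun h => hq (by simp [h])
  have hq2 : q ∉ L2 := fun h => hq (by simp [h])
  have hp0 : p ∉ L0 := fun h => hp (by simp [h])
  have hp1 : p ∉ L1 := fun h => hp (by simp [h])
  have hp2 : p ∉ L2 := fun h => hp (by simp [h])
  obtain ⟨c0, hc0⟩ := arc anti p L0 q h0 hL0
  obtain ⟨c1, hc1⟩ := arc anti p L1 q h1 hL1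
  obtain ⟨c2, hc2⟩ := arc anti p L2 q h2 hL2
  generalize hol φ q (L0 ++ [p]) = e0 at *
  generalize hol φ q (L1 ++ [p]) = e1 at *
  generalize hol φ q (L2 ++ [p]) = e2 at *
  obtain ⟨a, ha⟩ : ∃ a, a = e0 * e1⁻¹ := ⟨_, rfl⟩
  obtain ⟨b, hb⟩ : ∃ b, b = e2 * e1⁻¹ := ⟨_, rfl⟩
  have ha1 : a * e1 = e0 := by rw [ha]; group
  have hb1 : b * e1 = e2 := by rw [hb]; group
  have hb0 : b * e0 = a * e2 := by
    rw [ha, hb]
    rw [mul_assoc, mul_assoc, mul_comm e1⁻¹ e0, mul_comm e1⁻¹ e2, ← mul_assoc, ← mul_assoc,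
      mul_comm e2 e0]
  have hane : a ≠ 1 := by
    intro h
    rw [h, one_mul] at ha1
    exact d01 ha1.symm
  have hbne : b ≠ 1 := by
    intro h
    rw [h, one_mul] at hb1
    exact d12 hb1
  have hab : a ≠ b := by
    intro h
    rw [h, hb1] at ha1
    exact d02 ha1.symm
  have hp02 : e0 ≠ a * e2 := by
    intro h
    rw [← ha1] at h
    exact d12 (mul_left_cancel h)
  have hp22 : a * e2 ≠ e2 := by
    intro h
    exact hane (mul_eq_right.mp h)
  have w1 : (((q, (1 : V)) :: L0.map (fun x => (x, 1 * c0 x))) ++ [(p, e0)]).IsChain (Lift B φ).Adj := by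
    have := hc0 1
    rw [one_mul] at this
    simpa using this
  have w2 : (((p, e0) :: (L1.map (fun x => (x, a * c1 x))).reverse) ++ [(q, a)]).IsChain (Lift B φ).Adj := by
    have := hexR (hc1 a)
    rwa [ha1] at this
  have w3 : (((q, a) :: L2.map (fun x => (x, a * c2 x))) ++ [(p, a * e2)]).IsChain (Lift B φ).Adj :=
    hc2 a
  have w4 : (((p, a * e2) :: (L0.map (fun x => (x, b * c0 x))).reverse) ++ [(q, b)]).IsChain
      (Lift B φ).Adj := by
    have := hexR (hc0 b)
    rwa [hb0] at this
  have w5 : (((q, b) :: L1.map (fun x => (x, b * c1 x))) ++ [(p, e2)]).IsChain (Lift B φ).Adj := by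
    have := hc1 b
    rwa [hb1] at this
  have w6 : (((p, e2) :: (L2.map (fun x => (x, 1 * c2 x))).reverse) ++ [(q, (1 : V))]).IsChain
      (Lift B φ).Adj := by
    have := hexR (hc2 1)
    rwa [one_mul e2] at this
  have hW := hexC (hexC (hexC (hexC (hexC w1 w2) w3) w4) w5) w6
  have hlen : (((((((q, (1 : V)) :: L0.map (fun x => (x, 1 * c0 x))) ++
      ((p, e0) :: (L1.map (fun x => (x, a * c1 x))).reverse)) ++
      ((q, a) :: L2.map (fun x => (x, a * c2 x)))) ++
      ((p, a * e2) :: (L0.map (fun x => (x, b * c0 x))).reverse)) ++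
      ((q, b) :: L1.map (fun x => (x, b * c1 x)))) ++
      ((p, e2) :: (L2.map (fun x => (x, 1 * c2 x))).reverse)).length =
      2 * (L0.length + L1.length + L2.length + 3) := by
    simp only [List.length_append, List.length_cons, List.length_map, List.length_reverse]
    ring
  have hperm : (((((((q, (1 : V)) :: L0.map (fun x => (x, 1 * c0 x))) ++
      ((p, e0) :: (L1.map (fun x => (x, a * c1 x))).reverse)) ++
      ((q, a) :: L2.map (fun x => (x, a * c2 x)))) ++
      ((p, a * e2) :: (L0.map (fun x => (x, b * c0 x))).reverse)) ++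
      ((q, b) :: L1.map (fun x => (x, b * c1 x)))) ++
      ((p, e2) :: (L2.map (fun x => (x, 1 * c2 x))).reverse)).Perm
      ([(q, (1 : V)), (q, a), (q, b), (p, e0), (p, a * e2), (p, e2)] ++
      ((L0.map (fun x => (x, 1 * c0 x)) ++ L0.map (fun x => (x, b * c0 x))) ++
      ((L1.map (fun x => (x, a * c1 x)) ++ L1.map (fun x => (x, b * c1 x))) ++
      (L2.map (fun x => (x, a * c2 x)) ++ L2.map (fun x => (x, 1 * c2 x)))))) := by
    rw [List.perm_iff_count]
    intro x
    simp only [List.count_append, List.count_cons, List.count_reverse, List.count_nil]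
    ring
  have hnodup := hperm.nodup_iff.mpr (by
    obtain ⟨n0, m0⟩ := hexN hL0 c0 (Ne.symm hbne)
    obtain ⟨n1, m1⟩ := hexN hL1 c1 hab
    obtain ⟨n2, m2⟩ := hexN hL2 c2 hane
    rw [List.nodup_append]
    refine ⟨?_, ?_, ?_⟩
    · simp [hqp, hane, hbne, hab, hp02, hp22, Ne.symm hane, Ne.symm hbne, Ne.symm hqp, d02]
    · rw [List.nodup_append]
      refine ⟨n0, ?_, ?_⟩
      · rw [List.nodup_append]
        refine ⟨n1, n2, ?_⟩
        intro x hx y hy hxy
        exact hd1 _ (m1 x hx) _ (m2 y hy) (congrArg Prod.fst hxy)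
      · intro x hx y hy hxy
        refine hd0 _ (m0 x hx) y.1 ?_ (congrArg Prod.fst hxy)
        rcases List.mem_append.mp hy with h | h
        · exact List.mem_append_left _ (m1 y h)
        · exact List.mem_append_right _ (m2 y h)
    · intro x hx y hy hxy
      have hx1 : x.1 = q ∨ x.1 = p := by
        simp only [List.mem_cons, List.not_mem_nil, or_false] at hx
        rcases hx with rfl | rfl | rfl | rfl | rfl | rfl <;> simp
      have hy1 : y.1 ∈ L0 ∨ y.1 ∈ L1 ∨ y.1 ∈ L2 := by
        rcases List.mem_append.mp hy with h | h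
        · exact Or.inl (m0 y h)
        · rcases List.mem_append.mp h with h | h
          · exact Or.inr (Or.inl (m1 y h))
          · exact Or.inr (Or.inr (m2 y h))
      rw [hxy] at hx1
      rcases hx1 with h | h
      · rw [h] at hy1
        rcases hy1 with h | h | h
        · exact hq0 h
        · exact hq1 h
        · exact hq2 h
      · rw [h] at hy1
        rcases hy1 with h | h | h
        · exact hp0 h
        · exact hp1 h
        · exact hp2 h)
  rw [← hlen]
  rw [List.isChain_append] at hW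
  refine contained_of_list _ (by simp) hnodup hW.1 ?_
  refine hW.2.2 _ ?_ _ ?_
  · exact List.getLast?_eq_getLast_of_ne_nil _ ▸ rfl
  · simp

end Pool.Agent.helper20.AL
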