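import Pool.Agent.helper20.AL.Defs

/-!
# AL-Mult: few neighbours in one orbit (abelian groups)

PROOF.  (1) `T` contains `a 0, …, a (k-1)` such that `∏ i, a i ^ (ε i) ≠ 1` for every `ε : Fin k → ℤ` with values in `{-1, 0, 1}`, `ε ≠ 0`: choose them one
after the other, `a i` not of the form `∏ j < i, a j ^ (ε j)`; at most `3 ^ i` elements of `T` are excluded (let `i` be the last index with `ε i ≠ 0`; if the product
is `1` then `a i` is such a product).
(2) The closed word.  For `m < 2 * k` let `w m < k` be: if `k` is odd `w m = m % k`; if `k` is even `w m = m` for `m < k`, and `w (k + 2 * i) = 2 * i + 1`,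
`w (k + 2 * i + 1) = 2 * i`.  With the signs `+` for even `m`, `-` for odd `m` every letter occurs once with `+` and once with `-`.  Let
`S m = ∏ i < m, a (w i) ^ (± 1)`.  `S (2 * k) = 1`.  For `0 ≤ m' < m ≤ 2 * k`, `(m', m) ≠ (0, 2 * k)`: `S m ≠ S m'`.  By (1) it is enough that some letter occurs
exactly once in the segment `[m', m)`.  `k` odd: a segment of length at most `k` contains no letter twice; a longer one misses a segment of length
less than `k` of the cyclic word (nonempty), and its letters occur once.  `k` even (`k ≥ 4`): if the segment lies in one half: clear.  Otherwise it contains the letters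
`m', …, k - 1` of the first half and the first `r = m - k ≥ 1` letters of the second half; if every letter occurs an even number of times then these sets
are equal; the second one is `{0, …, r - 1}` for `r` even, which forces `m' = 0`, `r = k`; and `{0, …, r - 2} ∪ {r}` for `r` odd, which for `r ≥ 3` contains `0`, so `m' = 0`
and `r = k`, contradiction to the parity, and for `r = 1` is `{1}`, so `m' = k - 1 = 1`, contradiction to `k ≥ 4`.
(3) The closed sequence `f m = S m • x` for even `m`, `S m • y` for odd `m`: `S m • x ~ (S m * a) • y` as `x ~ a • y`; and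
`S m • y ~ (S m * a⁻¹) • x`.  Injective for `m < 2 * k`: if `x` and `y` are in different orbits then by `hfree` only equal parities matter; if `x = y` all.
Copy `contained_of_seq` (closed sequences give copies of the cycle graph) from `Pool.Agent.helper20.EC.Graph` if needed.
-/

set_option autoImplicit false

namespace Pool.Agent.helper20.AL

/-- A closed sequence of distinct vertices gives a copy of the cycle graph. -/
private theorem mult_contained {V : Type*} {Γ : SimpleGraph V} {n : ℕ} (f : ℕ → V)
    (hadj : ∀ i < n, Γ.Adj (f i) (f (i + 1))) (hcl : f n = f 0)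
    (hinj : ∀ i < n, ∀ j < n, f i = f j → i = j) : (SimpleGraph.cycleGraph n).IsContained Γ := by
  have key : ∀ u v : Fin n, (v - u).val = 1 → Γ.Adj (f u) (f v) := by
    intro u v h
    obtain ⟨u, hu⟩ := u
    obtain ⟨v, hv⟩ := v
    rw [Fin.sub_def] at h
    simp only at h
    have h1 := hadj u hu
    by_cases h2 : u + 1 < n
    · have : v = u + 1 := by
        by_cases h3 : u ≤ v
        · rw [show n - u + v = (v - u) + n by omega, Nat.add_mod_right,
            Nat.mod_eq_of_lt (by omega)] at h
          omega
        · rw [Nat.mod_eq_of_lt (by omega)] at h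
          omega
      subst this
      exact h1
    · have h3 : u + 1 = n := by omega
      have : v = 0 := by
        rw [show n - u = 1 by omega] at h
        by_cases h4 : 1 + v < n
        · rw [Nat.mod_eq_of_lt h4] at h
          omega
        · rw [show 1 + v = n by omega, Nat.mod_self] at h
          omega
      subst this
      rw [h3, hcl] at h1
      exact h1
  refine ⟨⟨⟨fun i => f i, ?_⟩, ?_⟩⟩
  · intro u v h
    rw [SimpleGraph.cycleGraph_adj'] at h
    rcases h with h | h
    · exact (key v u h).symm
    · exact key u v h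
  · intro u v h
    exact Fin.ext (hinj u u.2 v v.2 h)

/-- Dissociated elements. -/
private theorem mult_dissoc {A : Type*} [CommGroup A] (T : Finset A) (k : ℕ)
    (hT : 3 ^ k ≤ T.card) :
    ∀ m ≤ k, ∃ (a : ℕ → A) (E : Finset A), E.card ≤ 3 ^ m ∧ (∀ i < m, a i ∈ T) ∧
      (∀ ε : ℕ → ℤ, (∀ i, ε i = -1 ∨ ε i = 0 ∨ ε i = 1) → ∏ i ∈ Finset.range m, a i ^ ε i ∈ E) ∧
      (∀ ε : ℕ → ℤ, (∀ i, ε i = -1 ∨ ε i = 0 ∨ ε i = 1) → (∃ i < m, ε i ≠ 0) →
        ∏ i ∈ Finset.range m, a i ^ ε i ≠ 1) := by
  classical
  intro m
  induction m with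
  | zero =>
    intro _
    exact ⟨fun _ => 1, {1}, by simp, by simp, by simp, by rintro ε _ ⟨i, hi, _⟩; omega⟩
  | succ m ih =>
    intro hm
    obtain ⟨a, E, hE, haT, h1, h2⟩ := ih (by omega)
    have hlt : E.card < T.card :=
      lt_of_le_of_lt hE (lt_of_lt_of_le (Nat.pow_lt_pow_right (by norm_num) (by omega)) hT)
    obtain ⟨b, hbT, hbE⟩ := Finset.exists_mem_notMem_of_card_lt_card hlt
    have hprod : ∀ ε : ℕ → ℤ,
        ∏ i ∈ Finset.range (m + 1), (if i = m then b else a i) ^ ε i =
          (∏ i ∈ Finset.range m, a i ^ ε i) * b ^ ε m := by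
      intro ε
      rw [Finset.prod_range_succ, if_pos rfl]
      congr 1
      refine Finset.prod_congr rfl fun i hi => ?_
      rw [if_neg (Finset.mem_range.1 hi).ne]
    have hneg : ∀ ε : ℕ → ℤ, (∏ i ∈ Finset.range m, a i ^ ε i)⁻¹ =
        ∏ i ∈ Finset.range m, a i ^ (- ε i) := by
      intro ε
      rw [← Finset.prod_inv_distrib]
      exact Finset.prod_congr rfl fun i _ => (zpow_neg _ _).symm
    refine ⟨fun i => if i = m then b else a i,
      E ∪ (E.image (fun z => z * b) ∪ E.image (fun z => z * b⁻¹)), ?_, ?_, ?_, ?_⟩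
    · have c1 := Finset.card_union_le E (E.image (fun z => z * b) ∪ E.image (fun z => z * b⁻¹))
      have c2 := Finset.card_union_le (E.image (fun z => z * b)) (E.image (fun z => z * b⁻¹))
      have c3 := Finset.card_image_le (s := E) (f := fun z => z * b)
      have c4 := Finset.card_image_le (s := E) (f := fun z => z * b⁻¹)
      rw [pow_succ]
      omega
    · intro i hi
      dsimp only
      split_ifs with h
      · exact hbT
      · exact haT i (by omega)
    · intro ε hε
      rw [hprod]
      have h3 := h1 ε hε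
      rcases hε m with h | h | h
      · rw [h]
        refine Finset.mem_union_right _ (Finset.mem_union_right _ (Finset.mem_image.2
          ⟨_, h3, ?_⟩))
        rw [zpow_neg, zpow_one]
      · rw [h, zpow_zero, mul_one]
        exact Finset.mem_union_left _ h3
      · rw [h, zpow_one]
        exact Finset.mem_union_right _ (Finset.mem_union_left _ (Finset.mem_image.2
          ⟨_, h3, rfl⟩))
    · rintro ε hε ⟨i, hi, hne⟩
      rw [hprod]
      rcases hε m with h | h | h
      · rw [h, zpow_neg, zpow_one]
        intro hc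
        apply hbE
        rw [mul_inv_eq_one] at hc
        rw [← hc]
        exact h1 ε hε
      · rw [h, zpow_zero, mul_one]
        have him : i ≠ m := by
          rintro rfl
          exact hne h
        exact h2 ε hε ⟨i, by omega, hne⟩
      · rw [h, zpow_one]
        intro hc
        apply hbE
        have hb : b = (∏ i ∈ Finset.range m, a i ^ ε i)⁻¹ := (eq_inv_of_mul_eq_one_right hc)
        rw [hb, hneg]
        refine h1 (fun i => - ε i) fun i => ?_
        rcases hε i with h | h | h
        · right; right; simp [h]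
        · right; left; simp [h]
        · left; simp [h]

/-- The letters of the closed word. -/
private def mw (k p : ℕ) : ℕ :=
  if p < k then p else if k % 2 = 1 then p - k else (if p % 2 = 0 then p - k + 1 else p - k - 1)

/-- The second position of a letter. -/
private def mpi (k j : ℕ) : ℕ :=
  if k % 2 = 1 then j + k else (if j % 2 = 0 then j + k + 1 else j + k - 1)

/-- The signs. -/
private def msg (i : ℕ) : ℤ := if i % 2 = 0 then 1 else -1

private theorem mw_lt {k p : ℕ} (hk : 3 ≤ k) (hp : p < 2 * k) : mw k p < k := by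
  unfold mw
  split_ifs <;> omega

private theorem mw_eq_iff {k p j : ℕ} (hk : 3 ≤ k) (hp : p < 2 * k) (hj : j < k) :
    mw k p = j ↔ p = j ∨ p = mpi k j := by
  unfold mw mpi
  split_ifs <;> omega

private theorem mpi_lt {k j : ℕ} (hk : 3 ≤ k) (hj : j < k) : k ≤ mpi k j ∧ mpi k j < 2 * k := by
  unfold mpi
  split_ifs <;> omega

private theorem msg_mpi {k j : ℕ} (hk : 3 ≤ k) : msg (mpi k j) = - msg j := by
  unfold msg mpi
  split_ifs <;> omega

private theorem msg_cases (j : ℕ) : msg j = 1 ∨ msg j = -1 := by
  unfold msg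
  split_ifs
  · left; rfl
  · right; rfl

/-- Some letter occurs exactly once in a proper segment. -/
private theorem mult_once {k m' m : ℕ} (hk : 3 ≤ k) (h1 : m' < m) (h2 : m < 2 * k ∨ 0 < m')
    (h3 : m ≤ 2 * k) :
    ∃ p, m' ≤ p ∧ p < m ∧ ∀ q, m' ≤ q → q < m → mw k q = mw k p → q = p := by
  rcases Nat.mod_two_eq_zero_or_one k with hk2 | hk2
  · -- k even
    by_cases hl : m - m' < k
    · refine ⟨m', le_rfl, h1, fun q hq1 hq2 hq => ?_⟩
      unfold mw at hq
      split_ifs at hq <;> omega
    · by_cases hl2 : m - m' = k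
      · by_cases he : m' % 2 = 0
        · refine ⟨m', le_rfl, h1, fun q hq1 hq2 hq => ?_⟩
          unfold mw at hq
          split_ifs at hq <;> omega
        · refine ⟨m' + 1, by omega, by omega, fun q hq1 hq2 hq => ?_⟩
          unfold mw at hq
          split_ifs at hq <;> omega
      · by_cases h0 : m' = 0
        · by_cases he : m % 2 = 0
          · refine ⟨m - (k - 1), by omega, by omega, fun q hq1 hq2 hq => ?_⟩
            unfold mw at hq
            split_ifs at hq <;> omega
          · refine ⟨m - (k + 1), by omega, by omega, fun q hq1 hq2 hq => ?_⟩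
            unfold mw at hq
            split_ifs at hq <;> omega
        · by_cases he : m' % 2 = 0
          · refine ⟨m' - 1 + (k - 1), by omega, by omega, fun q hq1 hq2 hq => ?_⟩
            unfold mw at hq
            split_ifs at hq <;> omega
          · refine ⟨m' - 1 + (k + 1), by omega, by omega, fun q hq1 hq2 hq => ?_⟩
            unfold mw at hq
            split_ifs at hq <;> omega
  · -- k odd
    by_cases hl : m - m' ≤ k
    · refine ⟨m', le_rfl, h1, fun q hq1 hq2 hq => ?_⟩
      unfold mw at hq
      split_ifs at hq <;> omega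
    · by_cases h0 : m' = 0
      · refine ⟨m - k, by omega, by omega, fun q hq1 hq2 hq => ?_⟩
        unfold mw at hq
        split_ifs at hq <;> omega
      · refine ⟨m' - 1 + k, by omega, by omega, fun q hq1 hq2 hq => ?_⟩
        unfold mw at hq
        split_ifs at hq <;> omega

/-- The exponent of the letter `j` in the segment `I`. -/
private def mex (k : ℕ) (I : Finset ℕ) (j : ℕ) : ℤ :=
  (if j ∈ I then msg j else 0) + (if mpi k j ∈ I then msg (mpi k j) else 0)

private theorem mex_cases {k : ℕ} (hk : 3 ≤ k) (I : Finset ℕ) (j : ℕ) :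
    mex k I j = -1 ∨ mex k I j = 0 ∨ mex k I j = 1 := by
  unfold mex
  rw [msg_mpi hk]
  rcases msg_cases j with h | h <;> rw [h] <;> split_ifs <;> simp

private theorem mult_prod {A : Type*} [CommGroup A] (a : ℕ → A) {k : ℕ} (hk : 3 ≤ k)
    (I : Finset ℕ) (hI : ∀ i ∈ I, i < 2 * k) :
    ∏ i ∈ I, a (mw k i) ^ msg i = ∏ j ∈ Finset.range k, a j ^ mex k I j := by
  rw [← Finset.prod_fiberwise_of_maps_to (s := I) (t := Finset.range k) (g := mw k)
    (fun i hi => Finset.mem_range.2 (mw_lt hk (hI i hi)))]
  refine Finset.prod_congr rfl fun j hj => ?_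
  have hj' := Finset.mem_range.1 hj
  have hp := mpi_lt hk hj'
  have hfil : I.filter (fun i => mw k i = j) =
      ({j, mpi k j} : Finset ℕ).filter (fun i => i ∈ I) := by
    ext i
    rw [Finset.mem_filter, Finset.mem_filter, Finset.mem_insert, Finset.mem_singleton]
    constructor
    · rintro ⟨hi, he⟩
      exact ⟨(mw_eq_iff hk (hI i hi) hj').1 he, hi⟩
    · rintro ⟨he, hi⟩
      exact ⟨hi, (mw_eq_iff hk (hI i hi) hj').2 he⟩
  rw [hfil, Finset.prod_filter, Finset.prod_pair (by omega)]
  have e1 : mw k j = j := (mw_eq_iff hk (by omega) hj').2 (Or.inl rfl)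
  have e2 : mw k (mpi k j) = j := (mw_eq_iff hk hp.2 hj').2 (Or.inr rfl)
  rw [e1, e2]
  unfold mex
  split_ifs <;> simp [zpow_add]

theorem mult {X A : Type*} (Γ : SimpleGraph X) [CommGroup A] [MulAction A X]
    (hact : ∀ (g : A) (u v : X), Γ.Adj u v → Γ.Adj (g • u) (g • v))
    (hfree : ∀ (g : A) (u : X), g • u = u → g = 1) (k : ℕ) (hk : 3 ≤ k) (x y : X)
    (hxy : x = y ∨ ∀ a : A, a • x ≠ y) (T : Finset A) (hT : ∀ a ∈ T, Γ.Adj x (a • y))
    (hcard : 3 ^ k ≤ T.card) : HasC Γ (2 * k) := by
  classical
  obtain ⟨a, E, -, haT, -, hdis⟩ := mult_dissoc T k hcard k le_rfl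
  obtain ⟨S, hS⟩ : ∃ S : ℕ → A, ∀ m, S m = ∏ i ∈ Finset.range m, a (mw k i) ^ msg i :=
    ⟨_, fun _ => rfl⟩
  have hS0 : S 0 = 1 := by rw [hS]; simp
  have hS1 : S (2 * k) = 1 := by
    rw [hS, mult_prod a hk _ (fun i hi => Finset.mem_range.1 hi)]
    apply Finset.prod_eq_one
    intro j hj
    have hj' := Finset.mem_range.1 hj
    have hp := mpi_lt hk hj'
    unfold mex
    rw [if_pos (Finset.mem_range.2 (by omega)), if_pos (Finset.mem_range.2 hp.2), msg_mpi hk]
    simp
  have hSs : ∀ m, S (m + 1) = S m * a (mw k m) ^ msg m := by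
    intro m
    rw [hS, hS, Finset.prod_range_succ]
  have hSne : ∀ m' m, m' < m → m < 2 * k → S m' ≠ S m := by
    intro m' m h1 h2 he
    have h3 : S m' * ∏ i ∈ Finset.Ico m' m, a (mw k i) ^ msg i = S m := by
      rw [hS, hS]
      exact Finset.prod_range_mul_prod_Ico _ h1.le
    rw [← he] at h3
    have h4 := mul_eq_left.1 h3
    rw [mult_prod a hk _ (fun i hi => lt_trans (Finset.mem_Ico.1 hi).2 h2)] at h4
    obtain ⟨p, hp1, hp2, hp3⟩ := mult_once hk h1 (Or.inl h2) h2.le
    refine hdis _ (mex_cases hk _) ⟨mw k p, mw_lt hk (by omega), ?_⟩ h4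
    have hj := mw_lt hk (show p < 2 * k by omega)
    obtain ⟨j, hjdef⟩ : ∃ j, j = mw k p := ⟨_, rfl⟩
    rw [← hjdef] at hj hp3 ⊢
    have hpi := mpi_lt hk hj
    have e1 : mw k j = j := (mw_eq_iff hk (by omega) hj).2 (Or.inl rfl)
    have e2 : mw k (mpi k j) = j := (mw_eq_iff hk hpi.2 hj).2 (Or.inr rfl)
    have h5 := (mw_eq_iff hk (show p < 2 * k by omega) hj).1 hjdef.symm
    unfold mex
    rw [msg_mpi hk]
    rcases h5 with h5 | h5
    · have n2 : mpi k j ∉ Finset.Ico m' m := by
        intro hc
        have := Finset.mem_Ico.1 hc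
        have := hp3 _ this.1 this.2 e2
        omega
      rw [if_pos (Finset.mem_Ico.2 (by omega)), if_neg n2]
      rcases msg_cases j with h | h <;> rw [h] <;> simp
    · have n1 : j ∉ Finset.Ico m' m := by
        intro hc
        have := Finset.mem_Ico.1 hc
        have := hp3 _ this.1 this.2 e1
        omega
      rw [if_neg n1, if_pos (Finset.mem_Ico.2 (by omega))]
      rcases msg_cases j with h | h <;> rw [h] <;> simp
  have hfree' : ∀ (g g' : A) (u : X), g • u = g' • u → g = g' := by
    intro g g' u e
    have h1 : (g'⁻¹ * g) • u = u := by rw [mul_smul, e, inv_smul_smul]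
    have h2 := hfree _ _ h1
    rw [inv_mul_eq_one] at h2
    exact h2.symm
  have hSeq : ∀ g g' : A, g • x = g' • y → g = g' := by
    intro g g' e
    rcases hxy with h | h
    · rw [← h] at e
      exact hfree' _ _ _ e
    · exact absurd (show (g'⁻¹ * g) • x = y by rw [mul_smul, e, inv_smul_smul]) (h _)
  refine mult_contained (fun m => if m % 2 = 0 then S m • x else S m • y) ?_ ?_ ?_
  · intro i hi
    have ha := hT _ (haT _ (mw_lt hk hi))
    rcases Nat.mod_two_eq_zero_or_one i with h | h
    · rw [if_pos h, if_neg (by omega), hSs]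
      unfold msg
      rw [if_pos h, zpow_one, mul_smul]
      exact hact _ _ _ ha
    · rw [if_neg (by omega), if_pos (by omega), hSs]
      unfold msg
      rw [if_neg (by omega), zpow_neg, zpow_one]
      have h2 := hact (S i * (a (mw k i))⁻¹) _ _ ha
      rw [mul_smul _ _ (a (mw k i) • y), inv_smul_smul] at h2
      exact h2.symm
  · rw [if_pos (by omega), if_pos (by omega), hS0, hS1]
  · have hmain : ∀ i j, i < j → j < 2 * k →
        (if i % 2 = 0 then S i • x else S i • y) ≠ (if j % 2 = 0 then S j • x else S j • y) := by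
      intro i j hij hj e
      apply hSne i j hij hj
      split_ifs at e
      · exact hfree' _ _ _ e
      · exact hSeq _ _ e
      · exact (hSeq _ _ e.symm).symm
      · exact hfree' _ _ _ e
    intro i hi j hj e
    rcases lt_trichotomy i j with h | h | h
    · exact absurd e (hmain i j h hj)
    · exact h
    · exact absurd e.symm (hmain j i h hi)

end Pool.Agent.helper20.AL
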