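import Pool.Agent.helper20.AL.Defs

/-!
# AL-Net: closed walks which use every edge equally often in both directions are long

`v : ℕ → α` is an `N`-periodic walk without backtracking (`hnb`), every dart `(a, b)` is used as often as `(b, a)` in one period.  All cycles have length
at least `g`.  Claim `3 * g ≤ N`.
PROOF.
(1) Let `r ≥ 1` be minimal such that `v (i + r) = v i` for some `i`; `r ≥ 3` (`hadj`, `hnb`), `r ≤ N`.  Shift the walk such that `i = 0` (periodicity; the counts
do not change under shifts).  `v 0, …, v (r - 1)` are different by minimality, so `g ≤ r` (`hg`).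
(2) There is `s ≥ r` with `v s ≠ v (s - r)`: otherwise `v` is `r`-periodic; the dart `(v 0, v 1)` is used, so `(v 1, v 0)` is used, at some position
`i < r` (periodicity): `v i = v 1`, `v (i + 1) = v 0`, so `i = 1` (as `1 < r`) and `v 2 = v 0`, contradiction to `hnb`.
Take the first such `s` and shift by `s - 1 - r`: now `v r = v 0`, `v 0, …, v (r - 1)` different (they are the same `r` vertices in cyclic order), `v (r + 1) ≠ v 1`,
and `v (r + 1) ≠ v (r - 1)` by `hnb`.
(3) Let `m > r` be minimal such that `v m ∈ {v 0, …, v (m - 1)}`; `m ≤ N`: if `N > r` because `v N = v 0`; and `N = r` is impossible as `v (N + 1) = v 1`.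
All the undirected edges at the positions `0, …, m - 1` are different: those at `0, …, r - 1` are the edges of a cycle of length
`r ≥ 3`; for `r < i < m - 1` or so the edge at position `i` has the new vertex `v (i + 1)`; the edge at `r` has the new vertex `v (r + 1)` if `m > r + 1`; the last edge (position
`m - 1`) joins `v (m - 1)`, which is a new vertex if `m - 1 > r` and has only the edge at position `m - 2` so far, to `v m`, and `v m ≠ v (m - 2)` by `hnb`;
if `m = r + 1` it is the edge `v 0, v (r + 1)` with `v (r + 1) = v l`, `l ∉ {1, r - 1}` (and `l ≠ 0`), which is not an edge of the cycle.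
(4) For every position `i < m` the reverse dart is used at a position `i' < N` (the counts are equal and positive); `i' ≥ m` (otherwise the undirected edges at `i` and
`i'` are equal, so `i' = i`, but a dart is not its own reverse), and different `i` have different `i'`.  So `2 * m ≤ N`.
(5) `3 * g ≤ 2 * m`: let `v m = v l`, `l < m`.  If `l > r`: `v l, …, v (m - 1)` is a cycle of length `m - l ≥ g` (`≥ 3`), and `m ≥ r + (m - l) + 1`, so `2 m ≥ 4 g`.
If `l = r` (same vertex as `l = 0`): cycle `v r, …, v (m - 1)` of length `m - r ≥ g`, `m ≥ 2 g`.  If `0 < l < r`: with `e = m - r` the sequences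
`v r, v (r + 1), …, v m = v l, v (l - 1), …, v 1` (length `e + l`) and `v r, …, v m = v l, v (l + 1), …, v (r - 1)` (length `e + r - l`) are cycles of length at
least `3` (if `e = 1` then `l ≠ 1` and `l ≠ r - 1` by (2)), so `g ≤ e + l`, `g ≤ e + r - l`, `g ≤ r`; the sum is `3 g ≤ 2 e + 2 r = 2 m`.
-/

set_option autoImplicit false

namespace Pool.Agent.helper20.AL

open Finset

private lemma net_mod {α : Type*} (N : ℕ) (v : ℕ → α) (hper : ∀ i, v (i + N) = v i) (k : ℕ) :
    ∀ i, v (i + k * N) = v i := by
  intro i
  induction k with
  | zero => simp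
  | succ k ih =>
    have : i + (k + 1) * N = (i + k * N) + N := by ring
    rw [this, hper, ih]

private lemma net_red {α : Type*} (N : ℕ) (v : ℕ → α) (hper : ∀ i, v (i + N) = v i) (j : ℕ) :
    v (j % N) = v j ∧ v (j % N + 1) = v (j + 1) := by
  have h := Nat.mod_add_div j N
  constructor
  · conv_rhs => rw [← h, mul_comm N]
    rw [net_mod N v hper]
  · have e : j + 1 = (j % N + 1) + j / N * N := by
      rw [mul_comm (j / N)]; omega
    rw [e, net_mod N v hper]

/-- the core of the argument, after the shifts -/
private lemma net_core {α : Type*} (B : SimpleGraph α) (g N r : ℕ) (hN : 1 ≤ N) (v : ℕ → α)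
    (hper : ∀ i, v (i + N) = v i) (hadj : ∀ i, B.Adj (v i) (v (i + 1)))
    (hnb : ∀ i, v (i + 2) ≠ v i)
    (H : ∀ i, ∃ j, v j = v (i + 1) ∧ v (j + 1) = v i)
    (hg : Girth B g) (hr : 3 ≤ r) (hmin : ∀ i j, 1 ≤ j → j < r → v (i + j) ≠ v i)
    (h0 : v r = v 0) (h1 : v (r + 1) ≠ v 1) : 3 * g ≤ N := by
  -- `r < N`
  have hrN : r < N := by
    rcases lt_trichotomy N r with h | h | h
    · exact absurd (hper 0) (hmin 0 N hN h)
    · exfalso
      apply h1
      rw [← h, add_comm N 1]
      exact hper 1
    · exact h
  -- distinctness of the first `r` vertices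
  have hd0 : ∀ a b, a < b → b < r → v a ≠ v b := by
    intro a b hab hb h
    have := hmin a (b - a) (by omega) (by omega)
    apply this
    rw [show a + (b - a) = b by omega]
    exact h.symm
  have hgr : g ≤ r := by
    apply hg r v hr (fun i _ => hadj i) h0
    intro i hi j hj hij
    rcases lt_trichotomy i j with h | h | h
    · exact absurd hij (hd0 i j h hj)
    · exact h
    · exact absurd hij.symm (hd0 j i h hi)
  -- the first repeated vertex after `r`
  have hex : ∃ m, r < m ∧ ∃ l, l < m ∧ v m = v l := ⟨N, hrN, 0, by omega, by
    have := hper 0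
    rwa [zero_add] at this⟩
  classical
  obtain ⟨m, ⟨hrm, l, hlm, hml⟩, hmm⟩ :
      ∃ m, (r < m ∧ ∃ l, l < m ∧ v m = v l) ∧ ∀ m' < m, ¬ (r < m' ∧ ∃ l, l < m' ∧ v m' = v l) :=
    ⟨Nat.find hex, Nat.find_spec hex, fun m' h => Nat.find_min hex h⟩
  have hmN : m ≤ N := by
    by_contra h
    exact hmm N (by omega) ⟨hrN, 0, by omega, by
      have := hper 0
      rwa [zero_add] at this⟩
  have hD : ∀ a b, a < b → b < m → v a = v b → a = 0 ∧ b = r := by
    intro a b hab hb h
    rcases lt_trichotomy b r with hbr | hbr | hbr
    · exact absurd h (hd0 a b hab hbr)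
    · subst hbr
      refine ⟨?_, rfl⟩
      by_contra ha
      exact hd0 0 a (by omega) hab (h0.symm.trans h.symm)
    · exact absurd ⟨hbr, a, hab, h.symm⟩ (hmm b hb)
  have hD' : ∀ a b, a < m → b < m → a ≠ r → b ≠ r → v a = v b → a = b := by
    intro a b ha hb har hbr h
    rcases lt_trichotomy a b with h' | h' | h'
    · exact absurd (hD a b h' hb h).2 hbr
    · exact h'
    · exact absurd (hD b a h' ha h.symm).2 har
  -- darts at positions `< m` are different
  have hE1 : ∀ i j, i < j → j < m → v i = v j → v (i + 1) ≠ v (j + 1) := by
    intro i j hij hj h h'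
    obtain ⟨hi0, hjr⟩ := hD i j hij hj h
    subst hi0 hjr
    exact h1 (by rw [← h', zero_add])
  have hE2 : ∀ i j, i < j → j < m → v i = v (j + 1) → v (i + 1) ≠ v j := by
    intro i j hij hj h h'
    rcases Nat.lt_or_ge (i + 1) j with h2 | h2
    · have := (hD (i + 1) j h2 hj h').1
      omega
    · have : j = i + 1 := by omega
      subst this
      exact hnb i h.symm
  -- the reverse darts
  have hrev : ∀ i, i < m → ∃ j, m ≤ j ∧ j < N ∧ v j = v (i + 1) ∧ v (j + 1) = v i := by
    intro i hi
    obtain ⟨j, hj1, hj2⟩ := H i
    obtain ⟨hr1, hr2⟩ := net_red N v hper j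
    refine ⟨j % N, ?_, Nat.mod_lt _ (by omega), hr1.trans hj1, hr2.trans hj2⟩
    by_contra hlt
    have hlt' : j % N < m := by omega
    have e1 : v (j % N) = v (i + 1) := hr1.trans hj1
    have e2 : v (j % N + 1) = v i := hr2.trans hj2
    rcases lt_trichotomy i (j % N) with h | h | h
    · exact hE2 i (j % N) h hlt' e2.symm e1.symm
    · rw [← h] at e1
      exact (hadj i).ne e1
    · exact hE2 (j % N) i h hi e1 e2
  have h2m : 2 * m ≤ N := by
    choose! f hf using hrev
    have hinj : Set.InjOn f (Finset.range m : Set ℕ) := by
      intro a ha b hb hab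
      have ha' : a < m := by simpa using ha
      have hb' : b < m := by simpa using hb
      obtain ⟨-, -, fa1, fa2⟩ := hf a ha'
      obtain ⟨-, -, fb1, fb2⟩ := hf b hb'
      rw [hab] at fa1 fa2
      have e1 : v (a + 1) = v (b + 1) := fa1.symm.trans fb1
      have e2 : v a = v b := fa2.symm.trans fb2
      rcases lt_trichotomy a b with h | h | h
      · exact absurd e1 (hE1 a b h hb' e2)
      · exact h
      · exact absurd e1.symm (hE1 b a h ha' e2.symm)
    have hmaps : ∀ a ∈ Finset.range m, f a ∈ Finset.Ico m N := by
      intro a ha
      obtain ⟨h1', h2', -, -⟩ := hf a (Finset.mem_range.1 ha)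
      exact Finset.mem_Ico.2 ⟨h1', h2'⟩
    have := Finset.card_le_card_of_injOn f hmaps hinj
    rw [Finset.card_range, Nat.card_Ico] at this
    omega
  -- the case distinction
  have key : 3 * g ≤ 2 * m := by
    -- a cycle `v a, …, v (m - 1)` with `v m = v a`, `a ≥ r`
    have hcyc : ∀ a, r ≤ a → a < m → v m = v a → g ≤ m - a ∧ r ≤ m - a := by
      intro a ha ham h
      have hra : r ≤ m - a := by
        by_contra hlt
        refine hmin a (m - a) (by omega) (by omega) ?_
        rw [show a + (m - a) = m by omega]
        exact h
      refine ⟨?_, hra⟩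
      apply hg (m - a) (fun i => v (a + i)) (by omega) (fun i _ => hadj (a + i))
      · show v (a + (m - a)) = v (a + 0)
        rw [show a + (m - a) = m by omega, h, add_zero]
      · intro i hi j hj hij
        have hij' : v (a + i) = v (a + j) := hij
        rcases lt_trichotomy i j with h' | h' | h'
        · have := (hD (a + i) (a + j) (by omega) (by omega) hij').1
          omega
        · exact h'
        · have := (hD (a + j) (a + i) (by omega) (by omega) hij'.symm).1
          omega
    rcases Nat.lt_or_ge l r with hlr | hlr
    · rcases Nat.eq_zero_or_pos l with hl0 | hl0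
      · subst hl0
        have := hcyc r le_rfl hrm (hml.trans h0.symm)
        omega
      · -- `0 < l < r`
        obtain ⟨e, he⟩ : ∃ e, m = r + e := ⟨m - r, by omega⟩
        have he1 : 1 ≤ e := by omega
        have hlen1 : 3 ≤ e + l := by
          rcases Nat.lt_or_ge 1 e with h | h
          · omega
          · have e1 : e = 1 := by omega
            subst e1
            by_contra hlt
            have : l = 1 := by omega
            subst this
            exact h1 (he ▸ hml)
        have hlen2 : 3 ≤ e + (r - l) := by
          rcases Nat.lt_or_ge 1 e with h | h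
          · omega
          · have e1 : e = 1 := by omega
            subst e1
            by_contra hlt
            have : l = r - 1 := by omega
            have h3 := hnb (r - 1)
            rw [show r - 1 + 2 = r + 1 by omega] at h3
            apply h3
            rw [← this, ← hml, he]
        have hc1 : g ≤ e + l := by
          apply hg (e + l) (fun i => v (if i = 0 then 0 else if i < e then r + i else l - (i - e)))
            hlen1
          · intro i hi
            show B.Adj (v (if i = 0 then 0 else if i < e then r + i else l - (i - e)))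
              (v (if i + 1 = 0 then 0 else if i + 1 < e then r + (i + 1) else l - (i + 1 - e)))
            rw [if_neg (by omega : ¬ (i + 1 = 0))]
            rcases Nat.eq_zero_or_pos i with hi0 | hi0
            · subst hi0
              rw [if_pos rfl, ← h0]
              by_cases h : 0 + 1 < e
              · rw [if_pos h]
                exact hadj r
              · rw [if_neg h]
                have : e = 1 := by omega
                subst this
                have h2 := hadj r
                rw [show r + 1 = m by omega, hml] at h2
                simpa using h2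
            · rw [if_neg (by omega : ¬ (i = 0))]
              by_cases h : i < e
              · rw [if_pos h]
                by_cases h' : i + 1 < e
                · rw [if_pos h']
                  exact hadj (r + i)
                · rw [if_neg h']
                  have h2 := hadj (r + i)
                  rw [show r + i + 1 = m by omega, hml] at h2
                  rw [show l - (i + 1 - e) = l by omega]
                  exact h2
              · rw [if_neg h, if_neg (by omega : ¬ (i + 1 < e))]
                have h2 := hadj (l - (i + 1 - e))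
                rw [show l - (i + 1 - e) + 1 = l - (i - e) by omega] at h2
                exact h2.symm
          · show v (if e + l = 0 then 0 else if e + l < e then r + (e + l) else l - (e + l - e)) =
              v (if 0 = 0 then 0 else _)
            rw [if_neg (by omega : ¬ (e + l = 0)), if_neg (by omega : ¬ (e + l < e)), if_pos rfl]
            congr 1
            omega
          · intro i hi j hj hij
            have hij' := hD' _ _ ?_ ?_ ?_ ?_ hij
            · split_ifs at hij' <;> omega
            all_goals split_ifs <;> omega
        have hc2 : g ≤ e + (r - l) := by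
          apply hg (e + (r - l))
            (fun i => v (if i = 0 then 0 else if i < e then r + i else l + (i - e))) hlen2
          · intro i hi
            show B.Adj (v (if i = 0 then 0 else if i < e then r + i else l + (i - e)))
              (v (if i + 1 = 0 then 0 else if i + 1 < e then r + (i + 1) else l + (i + 1 - e)))
            rw [if_neg (by omega : ¬ (i + 1 = 0))]
            rcases Nat.eq_zero_or_pos i with hi0 | hi0
            · subst hi0
              rw [if_pos rfl, ← h0]
              by_cases h : 0 + 1 < e
              · rw [if_pos h]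
                exact hadj r
              · rw [if_neg h]
                have : e = 1 := by omega
                subst this
                have h2 := hadj r
                rw [show r + 1 = m by omega, hml] at h2
                simpa using h2
            · rw [if_neg (by omega : ¬ (i = 0))]
              by_cases h : i < e
              · rw [if_pos h]
                by_cases h' : i + 1 < e
                · rw [if_pos h']
                  exact hadj (r + i)
                · rw [if_neg h']
                  have h2 := hadj (r + i)
                  rw [show r + i + 1 = m by omega, hml] at h2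
                  rw [show l + (i + 1 - e) = l by omega]
                  exact h2
              · rw [if_neg h, if_neg (by omega : ¬ (i + 1 < e))]
                have h2 := hadj (l + (i - e))
                rw [show l + (i - e) + 1 = l + (i + 1 - e) by omega] at h2
                exact h2
          · show v (if e + (r - l) = 0 then 0 else if e + (r - l) < e then r + (e + (r - l))
              else l + (e + (r - l) - e)) = v (if 0 = 0 then 0 else _)
            rw [if_neg (by omega : ¬ (e + (r - l) = 0)),
              if_neg (by omega : ¬ (e + (r - l) < e)), if_pos rfl, ← h0]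
            congr 1
            omega
          · intro i hi j hj hij
            have hij' := hD' _ _ ?_ ?_ ?_ ?_ hij
            · split_ifs at hij' <;> omega
            all_goals split_ifs <;> omega
        omega
    · have := hcyc l hlr hlm hml
      omega
  omega

theorem net {α : Type*} [DecidableEq α] (B : SimpleGraph α) (g N : ℕ) (hN : 1 ≤ N) (v : ℕ → α)
    (hper : ∀ i, v (i + N) = v i) (hadj : ∀ i, B.Adj (v i) (v (i + 1)))
    (hnb : ∀ i, v (i + 2) ≠ v i)
    (hnet : ∀ a b, ((range N).filter (fun i => v i = a ∧ v (i + 1) = b)).card =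
      ((range N).filter (fun i => v i = b ∧ v (i + 1) = a)).card)
    (hg : Girth B g) : 3 * g ≤ N := by
  -- every dart has its reverse
  have H : ∀ i, ∃ j, v j = v (i + 1) ∧ v (j + 1) = v i := by
    intro i
    obtain ⟨hr1, hr2⟩ := net_red N v hper i
    have hpos : 0 < ((range N).filter (fun k => v k = v i ∧ v (k + 1) = v (i + 1))).card := by
      apply Finset.card_pos.2
      exact ⟨i % N, Finset.mem_filter.2 ⟨Finset.mem_range.2 (Nat.mod_lt _ (by omega)), hr1, hr2⟩⟩
    rw [hnet] at hpos
    obtain ⟨j, hj⟩ := Finset.card_pos.1 hpos
    exact ⟨j, (Finset.mem_filter.1 hj).2⟩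
  classical
  -- the shortest return
  have hex : ∃ r, 1 ≤ r ∧ ∃ i, v (i + r) = v i := ⟨N, hN, 0, hper 0⟩
  obtain ⟨r, ⟨hr1, i0, hi0⟩, hrm⟩ :
      ∃ r, (1 ≤ r ∧ ∃ i, v (i + r) = v i) ∧ ∀ r' < r, ¬ (1 ≤ r' ∧ ∃ i, v (i + r') = v i) :=
    ⟨Nat.find hex, Nat.find_spec hex, fun m' h => Nat.find_min hex h⟩
  have hmin : ∀ i j, 1 ≤ j → j < r → v (i + j) ≠ v i := fun i j hj hjr h => hrm j hjr ⟨hj, i, h⟩
  have hr3 : 3 ≤ r := by
    by_contra hlt
    have : r = 1 ∨ r = 2 := by omega
    rcases this with h | h
    · subst h
      exact (hadj i0).ne hi0.symm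
    · subst h
      exact hnb i0 hi0
  -- the reverse darts survive the shift
  have Hs : ∀ c i, ∃ j, v (j + c) = v (i + c + 1) ∧ v (j + c + 1) = v (i + c) := by
    intro c i
    obtain ⟨j, hj1, hj2⟩ := H (i + c)
    refine ⟨j + c * N - c, ?_, ?_⟩
    · have hcN : c ≤ c * N := Nat.le_mul_of_pos_right c (by omega)
      rw [show j + c * N - c + c = j + c * N by omega, net_mod N v hper, hj1]
    · have hcN : c ≤ c * N := Nat.le_mul_of_pos_right c (by omega)
      rw [show j + c * N - c + c + 1 = j + 1 + c * N by omega, net_mod N v hper, hj2]
  -- the first `s ≥ i0 + r` with `v s ≠ v (s - r)`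
  have hex2 : ∃ t, v (i0 + r + t) ≠ v (i0 + t) := by
    by_contra hcon
    push Not at hcon
    have hp : ∀ i, v (i0 + (i + r)) = v (i0 + i) := by
      intro i
      rw [show i0 + (i + r) = i0 + r + i by ring]
      exact hcon i
    obtain ⟨j, hj1, hj2⟩ := Hs i0 0
    obtain ⟨q1, q2⟩ := net_red r (fun i => v (i0 + i)) hp j
    have q1' : v (i0 + j % r) = v (i0 + j) := q1
    have q2' : v (i0 + (j % r + 1)) = v (i0 + (j + 1)) := q2
    have hlt : j % r < r := Nat.mod_lt _ (by omega)
    have e1 : v (i0 + j % r) = v (i0 + 1) := by
      rw [q1', show i0 + j = j + i0 by ring, hj1, show 0 + i0 + 1 = i0 + 1 by ring]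
    have e2 : v (i0 + (j % r + 1)) = v i0 := by
      rw [q2', show i0 + (j + 1) = j + i0 + 1 by ring, hj2, zero_add]
    have hj : j % r = 1 := by
      rcases lt_trichotomy (j % r) 1 with h | h | h
      · have h0 : j % r = 0 := by omega
        rw [h0, add_zero] at e1
        exact absurd e1 (hadj i0).ne
      · exact h
      · exfalso
        refine hmin (i0 + 1) (j % r - 1) (by omega) (by omega) ?_
        rw [show i0 + 1 + (j % r - 1) = i0 + j % r by omega]
        exact e1
    rw [hj] at e2
    exact hnb i0 e2
  obtain ⟨t, ht, htm⟩ : ∃ t, v (i0 + r + t) ≠ v (i0 + t) ∧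
      ∀ t' < t, ¬ (v (i0 + r + t') ≠ v (i0 + t')) :=
    ⟨Nat.find hex2, Nat.find_spec hex2, fun m' h => Nat.find_min hex2 h⟩
  have ht0 : 1 ≤ t := by
    by_contra h
    have : t = 0 := by omega
    subst this
    exact ht hi0
  have htp : v (i0 + r + (t - 1)) = v (i0 + (t - 1)) := by
    have := htm (t - 1) (by omega)
    push Not at this
    exact this
  refine net_core B g N r hN (fun i => v (i + (i0 + (t - 1)))) ?_ ?_ ?_ ?_ hg hr3 ?_ ?_ ?_
  · intro i
    show v (i + N + (i0 + (t - 1))) = v (i + (i0 + (t - 1)))
    rw [show i + N + (i0 + (t - 1)) = i + (i0 + (t - 1)) + N by ring, hper]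
  · intro i
    show B.Adj (v (i + (i0 + (t - 1)))) (v (i + 1 + (i0 + (t - 1))))
    rw [show i + 1 + (i0 + (t - 1)) = i + (i0 + (t - 1)) + 1 by ring]
    exact hadj _
  · intro i
    show v (i + 2 + (i0 + (t - 1))) ≠ v (i + (i0 + (t - 1)))
    rw [show i + 2 + (i0 + (t - 1)) = i + (i0 + (t - 1)) + 2 by ring]
    exact hnb _
  · intro i
    obtain ⟨j, h1, h2⟩ := Hs (i0 + (t - 1)) i
    refine ⟨j, ?_, ?_⟩
    · show v (j + (i0 + (t - 1))) = v (i + 1 + (i0 + (t - 1)))
      rw [h1]
      congr 1
      ring
    · show v (j + 1 + (i0 + (t - 1))) = v (i + (i0 + (t - 1)))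
      rw [← h2]
      congr 1
      ring
  · intro i j hj hjr
    show v (i + j + (i0 + (t - 1))) ≠ v (i + (i0 + (t - 1)))
    rw [show i + j + (i0 + (t - 1)) = i + (i0 + (t - 1)) + j by ring]
    exact hmin _ j hj hjr
  · show v (r + (i0 + (t - 1))) = v (0 + (i0 + (t - 1)))
    rw [show r + (i0 + (t - 1)) = i0 + r + (t - 1) by ring, htp, zero_add]
  · show v (r + 1 + (i0 + (t - 1))) ≠ v (1 + (i0 + (t - 1)))
    rw [show r + 1 + (i0 + (t - 1)) = i0 + r + t by omega,
      show 1 + (i0 + (t - 1)) = i0 + t by omega]
    exact ht

end Pool.Agent.helper20.AL
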