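import Pool.Agent.helper20.AL.Defs

/-!
# AL-Quot: from a free action to a lift (author of the proof: helper59)

`α = MulAction.orbitRel.Quotient A X` (notation `Ω`), `σ : Ω → X` a section (`Quotient.out`).  Every `v : X` is `g • σ [v]` for exactly one `g`.
`B`: `O ≠ O'` are adjacent if there is `g` with `Γ.Adj (σ O) (g • σ O')`.  `φ O O'`: choose such a `g` for one order of every pair (take any linear order on `Ω`,
e.g. from a well-order or `Fintype.equivFin`) and the inverse for the other order (`Γ.Adj (σ O) (g • σ O')` iff `Γ.Adj (σ O') (g⁻¹ • σ O)`); `φ O O' = 1` if `O = O'` or not adjacent.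
The map `(O, g) ↦ g • σ O` is an injective homomorphism `Lift B φ → Γ`: `(O', g * φ O O') ↦ g • (φ O O' • σ O')`.
COUNT.  If `X` is empty everything is `0`.  Otherwise `A` is finite and every orbit has `Nat.card A` elements, so `card X = card Ω * Nat.card A`.
Every `x : X` has at most `R * (1 + degree of its orbit in B)` neighbours: for every orbit `O'` equal or adjacent to `[x]` at most `R` neighbours
in `O'` (`hR` with `y = x` or `y = σ O'`; the neighbours are `a • y`, different `a` for different neighbours).  Sum over `x`:
`2 * e(Γ) = ∑ x, deg x ≤ R * (card X + ∑ O, Nat.card A * deg_B O) = R * (card X + Nat.card A * 2 * e(B))`; multiply by `card Ω`.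
-/

set_option autoImplicit false

namespace Pool.Agent.helper20.AL

section Quot_aux

universe u v

variable {X : Type u} {A : Type v} [Group A] [MulAction A X]

/-- The orbit of a point. -/
private def Quot_c (A : Type v) {X : Type u} [Group A] [MulAction A X] (x : X) :
    MulAction.orbitRel.Quotient A X := Quotient.mk (MulAction.orbitRel A X) x

/-- The representative of an orbit. -/
private noncomputable def Quot_s (O : MulAction.orbitRel.Quotient A X) : X :=
  Quotient.out (s := MulAction.orbitRel A X) O

private theorem Quot_c_s (O : MulAction.orbitRel.Quotient A X) : Quot_c A (Quot_s O) = O :=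
  Quotient.out_eq (s := MulAction.orbitRel A X) O

private theorem Quot_c_smul (g : A) (x : X) : Quot_c A (g • x) = Quot_c A x := by
  unfold Quot_c
  apply Quotient.sound (s := MulAction.orbitRel A X)
  exact ⟨g, rfl⟩

private theorem Quot_ex {x y : X} (h : Quot_c A x = Quot_c A y) : ∃ g : A, g • y = x := by
  have h1 := Quotient.exact (s := MulAction.orbitRel A X) h
  exact h1

private theorem Quot_inj (hfree : ∀ (g : A) (u : X), g • u = u → g = 1) {g g' : A} {x : X}
    (h : g • x = g' • x) : g = g' := by
  have h1 : (g'⁻¹ * g) • x = x := by rw [mul_smul, h, inv_smul_smul]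
  have h2 := hfree _ _ h1
  rw [inv_mul_eq_one] at h2
  exact h2.symm

private theorem Quot_g (x : X) : ∃ g : A, g • Quot_s (Quot_c A x) = x := by
  refine Quot_ex ?_
  rw [Quot_c_s]

/-- Points are pairs (orbit, group element). -/
private noncomputable def Quot_E (hfree : ∀ (g : A) (u : X), g • u = u → g = 1) :
    X ≃ MulAction.orbitRel.Quotient A X × A where
  toFun x := (Quot_c A x, (Quot_g x).choose)
  invFun p := p.2 • Quot_s p.1
  left_inv x := (Quot_g x).choose_spec
  right_inv p := by
    obtain ⟨O, g⟩ := p
    have h1 : Quot_c A (g • Quot_s O) = O := by rw [Quot_c_smul, Quot_c_s]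
    refine Prod.ext h1 ?_
    have h2 := (Quot_g (A := A) (g • Quot_s O)).choose_spec
    have h3 : Quot_s (Quot_c A (g • Quot_s O)) = Quot_s O := congrArg Quot_s h1
    have h4 := (congrArg (fun z : X => (Quot_g (A := A) (g • Quot_s O)).choose • z) h3.symm).trans h2
    exact Quot_inj hfree h4

/-- The quotient graph. -/
private def Quot_B (Γ : SimpleGraph X)
    (hact : ∀ (g : A) (u v : X), Γ.Adj u v → Γ.Adj (g • u) (g • v)) :
    SimpleGraph (MulAction.orbitRel.Quotient A X) where
  Adj O O' := O ≠ O' ∧ ∃ g : A, Γ.Adj (Quot_s O) (g • Quot_s O')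
  symm := ⟨by
    rintro O O' ⟨hne, g, hg⟩
    refine ⟨hne.symm, g⁻¹, ?_⟩
    have h1 := hact g⁻¹ _ _ hg
    rw [inv_smul_smul] at h1
    exact h1.symm⟩
  loopless := ⟨fun _ h => h.1 rfl⟩

end Quot_aux

theorem quot.{u, v} {X : Type u} [Fintype X] (Γ : SimpleGraph X) {A : Type v} [Group A] [MulAction A X]
    (hact : ∀ (g : A) (u v : X), Γ.Adj u v → Γ.Adj (g • u) (g • v))
    (hfree : ∀ (g : A) (u : X), g • u = u → g = 1) (R : ℕ)
    (hR : ∀ (x y : X) (T : Finset A), (x = y ∨ ∀ a : A, a • x ≠ y) →
      (∀ a ∈ T, Γ.Adj x (a • y)) → T.card ≤ R) :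
    ∃ (α : Type u) (_ : Fintype α) (B : SimpleGraph α) (φ : α → α → A),
      (∀ a b, φ b a = (φ a b)⁻¹) ∧
      Fintype.card α = Nat.card (MulAction.orbitRel.Quotient A X) ∧ (Lift B φ).IsContained Γ ∧
      2 * Fintype.card α * Γ.edgeSet.ncard ≤
        R * Fintype.card X * (Fintype.card α + 2 * B.edgeSet.ncard) := by
  classical
  let B := Quot_B Γ hact
  have : Finite (MulAction.orbitRel.Quotient A X) := Quotient.finite _
  let FO : Fintype (MulAction.orbitRel.Quotient A X) := Fintype.ofFinite _
  let e : MulAction.orbitRel.Quotient A X → ℕ := fun O => (Fintype.equivFin _ O : ℕ)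
  have he : ∀ O O', e O = e O' → O = O' := fun O O' h => (Fintype.equivFin _).injective (Fin.ext h)
  let ψ : MulAction.orbitRel.Quotient A X → MulAction.orbitRel.Quotient A X → A := fun O O' =>
    if h : B.Adj O O' then h.2.choose else 1
  have hψ : ∀ O O', B.Adj O O' → Γ.Adj (Quot_s O) (ψ O O' • Quot_s O') := by
    intro O O' h
    have h1 : ψ O O' = h.2.choose := dif_pos h
    rw [h1]
    exact h.2.choose_spec
  let φ : MulAction.orbitRel.Quotient A X → MulAction.orbitRel.Quotient A X → A := fun O O' =>
    if e O < e O' then ψ O O' else if e O' < e O then (ψ O' O)⁻¹ else 1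
  have hanti : ∀ O O', φ O' O = (φ O O')⁻¹ := by
    intro O O'
    rcases lt_trichotomy (e O) (e O') with h | h | h
    · have h1 : φ O O' = ψ O O' := if_pos h
      have h2 : φ O' O = (ψ O O')⁻¹ := by
        have h3 : ¬ e O' < e O := by omega
        change (if e O' < e O then _ else if e O < e O' then _ else _) = _
        rw [if_neg h3, if_pos h]
      rw [h1, h2]
    · have h1 : φ O O' = 1 := by
        change (if e O < e O' then _ else if e O' < e O then _ else _) = _
        rw [if_neg (by omega), if_neg (by omega)]
      have h2 : φ O' O = 1 := by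
        change (if e O' < e O then _ else if e O < e O' then _ else _) = _
        rw [if_neg (by omega), if_neg (by omega)]
      rw [h1, h2, inv_one]
    · have h1 : φ O' O = ψ O' O := if_pos h
      have h2 : φ O O' = (ψ O' O)⁻¹ := by
        have h3 : ¬ e O < e O' := by omega
        change (if e O < e O' then _ else if e O' < e O then _ else _) = _
        rw [if_neg h3, if_pos h]
      rw [h1, h2, inv_inv]
  have hφ : ∀ O O', B.Adj O O' → Γ.Adj (Quot_s O) (φ O O' • Quot_s O') := by
    intro O O' h
    rcases lt_trichotomy (e O) (e O') with h' | h' | h'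
    · have h1 : φ O O' = ψ O O' := if_pos h'
      rw [h1]
      exact hψ O O' h
    · exact absurd (he _ _ h') h.ne
    · have h2 : φ O O' = (ψ O' O)⁻¹ := by
        have h3 : ¬ e O < e O' := by omega
        change (if e O < e O' then _ else if e O' < e O then _ else _) = _
        rw [if_neg h3, if_pos h']
      rw [h2]
      have h4 := hact (ψ O' O)⁻¹ _ _ (hψ O' O h.symm)
      rw [inv_smul_smul] at h4
      exact h4.symm
  refine ⟨MulAction.orbitRel.Quotient A X, FO, B, φ, hanti, (Nat.card_eq_fintype_card).symm, ?_, ?_⟩
  · refine ⟨⟨⟨fun p => p.2 • Quot_s p.1, ?_⟩, ?_⟩⟩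
    · rintro ⟨O, g⟩ ⟨O', g'⟩ ⟨h1, h2, -⟩
      have h3 : g' = g * φ O O' := h2
      change Γ.Adj (g • Quot_s O) (g' • Quot_s O')
      rw [h3, mul_smul]
      exact hact g _ _ (hφ O O' h1)
    · exact (Quot_E hfree).symm.injective
  · rcases isEmpty_or_nonempty X with hX | hX
    · have : IsEmpty (MulAction.orbitRel.Quotient A X) := ⟨fun O => hX.elim (Quot_s O)⟩
      have h0 : Fintype.card (MulAction.orbitRel.Quotient A X) = 0 := Fintype.card_eq_zero
      rw [h0]
      omega
    · obtain ⟨x0⟩ := hX
      have : Finite A := Finite.of_injective (fun g : A => g • x0) fun g g' h => Quot_inj hfree h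
      let FA : Fintype A := Fintype.ofFinite A
      have hcard : Fintype.card X = Fintype.card (MulAction.orbitRel.Quotient A X) * Fintype.card A := by
        rw [← Fintype.card_prod]
        exact Fintype.card_congr (Quot_E hfree)
      -- the degree bound
      have hdeg : ∀ x : X, Γ.degree x ≤ R * (1 + B.degree (Quot_c A x)) := by
        intro x
        set O := Quot_c A x with hO
        have h1 : ∀ y ∈ Γ.neighborFinset x, Quot_c A y ∈ insert O (B.neighborFinset O) := by
          intro y hy
          rw [SimpleGraph.mem_neighborFinset] at hy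
          rw [Finset.mem_insert, SimpleGraph.mem_neighborFinset]
          by_cases hc : Quot_c A y = O
          · exact Or.inl hc
          · refine Or.inr ⟨fun h => hc h.symm, ?_⟩
            obtain ⟨gx, hgx⟩ := Quot_g (A := A) x
            obtain ⟨gy, hgy⟩ := Quot_g (A := A) y
            refine ⟨gx⁻¹ * gy, ?_⟩
            rw [mul_smul, hgy]
            have h2 := hact gx⁻¹ _ _ hy
            have h3 : gx⁻¹ • x = Quot_s (Quot_c A x) := by
              rw [inv_smul_eq_iff]
              exact hgx.symm
            rw [h3] at h2
            exact h2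
        have h2 : ∀ O' ∈ insert O (B.neighborFinset O),
            ((Γ.neighborFinset x).filter fun y => Quot_c A y = O').card ≤ R := by
          intro O' _
          -- a base point
          obtain ⟨y0, hy0, hy1⟩ : ∃ y0 : X, Quot_c A y0 = O' ∧ (x = y0 ∨ ∀ a : A, a • x ≠ y0) := by
            by_cases hc : O' = O
            · exact ⟨x, by rw [hc], Or.inl rfl⟩
            · refine ⟨Quot_s O', Quot_c_s O', Or.inr ?_⟩
              intro a ha
              apply hc
              have h3 := congrArg (Quot_c A) ha
              rw [Quot_c_smul, Quot_c_s] at h3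
              exact h3.symm
          have h3 := hR x y0 (Finset.univ.filter fun a : A => Γ.Adj x (a • y0)) hy1
            (fun a ha => (Finset.mem_filter.1 ha).2)
          refine le_trans ?_ h3
          refine le_trans (Finset.card_le_card (t := (Finset.univ.filter
            fun a : A => Γ.Adj x (a • y0)).image fun a => a • y0) ?_) Finset.card_image_le
          intro y hy
          rw [Finset.mem_filter, SimpleGraph.mem_neighborFinset] at hy
          obtain ⟨g, hg⟩ := Quot_ex (A := A) (hy.2.trans hy0.symm)
          refine Finset.mem_image.2 ⟨g, Finset.mem_filter.2 ⟨Finset.mem_univ _, ?_⟩, hg⟩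
          rw [hg]
          exact hy.1
        have h4 := Finset.card_le_mul_card_image_of_maps_to h1 R h2
        have h5 : (insert O (B.neighborFinset O)).card ≤ B.degree O + 1 := by
          refine (Finset.card_insert_le _ _).trans ?_
          rw [SimpleGraph.card_neighborFinset_eq_degree]
        rw [SimpleGraph.card_neighborFinset_eq_degree] at h4
        refine h4.trans ?_
        rw [add_comm 1]
        exact Nat.mul_le_mul_left _ h5
      -- sums
      have hsum1 : ∑ x : X, Γ.degree x = 2 * Γ.edgeSet.ncard := by
        rw [SimpleGraph.sum_degrees_eq_twice_card_edges, ← SimpleGraph.coe_edgeFinset,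
          Set.ncard_coe_finset]
      have hsum2 : ∑ O : MulAction.orbitRel.Quotient A X, B.degree O = 2 * B.edgeSet.ncard := by
        rw [SimpleGraph.sum_degrees_eq_twice_card_edges, ← SimpleGraph.coe_edgeFinset,
          Set.ncard_coe_finset]
      have hsum3 : ∑ x : X, B.degree (Quot_c A x) =
          Fintype.card A * ∑ O : MulAction.orbitRel.Quotient A X, B.degree O := by
        rw [← Equiv.sum_comp (Quot_E hfree).symm, Fintype.sum_prod_type, Finset.mul_sum]
        refine Finset.sum_congr rfl fun O _ => ?_
        have h6 : ∀ g : A, B.degree (Quot_c A ((Quot_E hfree).symm (O, g))) = B.degree O := by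
          intro g
          have h7 : Quot_c A ((Quot_E hfree).symm (O, g)) = O := by
            change Quot_c A (g • Quot_s O) = O
            rw [Quot_c_smul, Quot_c_s]
          rw [h7]
        rw [Finset.sum_congr rfl fun g _ => h6 g, Finset.sum_const, smul_eq_mul, Finset.card_univ]
      have hmain : 2 * Γ.edgeSet.ncard ≤
          R * (Fintype.card X + Fintype.card A * (2 * B.edgeSet.ncard)) := by
        rw [← hsum1, ← hsum2, ← hsum3]
        refine (Finset.sum_le_sum fun x _ => hdeg x).trans (le_of_eq ?_)
        rw [← Finset.mul_sum, Finset.sum_add_distrib, Finset.sum_const, smul_eq_mul, mul_one,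
          Finset.card_univ]
      calc 2 * Fintype.card (MulAction.orbitRel.Quotient A X) * Γ.edgeSet.ncard
          = Fintype.card (MulAction.orbitRel.Quotient A X) * (2 * Γ.edgeSet.ncard) := by ring
        _ ≤ Fintype.card (MulAction.orbitRel.Quotient A X) *
            (R * (Fintype.card X + Fintype.card A * (2 * B.edgeSet.ncard))) :=
            Nat.mul_le_mul_left _ hmain
        _ = R * Fintype.card X * (Fintype.card (MulAction.orbitRel.Quotient A X) +
            2 * B.edgeSet.ncard) := by
            rw [hcard]
            ring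

end Pool.Agent.helper20.AL
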