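import Pool.Agent.helper20.AL.Path
import Pool.Agent.helper20.AL.Hex

/-!
# AL-Theta: a core in an abelian lift gives a cycle of length `2 k`

Let `3 h + 3 ≤ k`.
Case II: `k = 3 h + 3 + 2 i`.  Take `z ∈ Z`.  Three arcs from `z` to `p` from `arcZ`: `L₁` (`n = 0`, `Fb = ∅`, `Fz = {z}`, `Fc = ∅`),
`L₂` (`n = 0`, with the sets `Fb', Fz'` of `L₁`, `Fc = {hol of L₁}`), `L₃` (`n = i`, with the sets of `L₂`, `Fc = {hol L₁, hol L₂}`).
Lengths `h, h, h + 2 i`, sum `+ 3 = k`.  Disjoint: `Free` for `Fb', Fz'` contradicts `Used` for `Fb', Fz'` (and for smaller sets);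
`z ∉ L` (`z ∈ Fz`, level `j + 1`), `p ∉ L` (`lev p = j - h` is not larger than `j - h`).  `hex` with `q = z`.
Case I: `k = 3 h + 4 + 2 n`.  Take `v ∈ W` (from `zw` for an element of `Z`).
* `L₁ = (tw par h v).tail` (`h - 1` vertices `par v, …`), the arc `v, par v, …, p` with holonomy `1` (`hol φ v (L₁ ++ [p]) = 1`: all its voltages
  are `1`; e.g. `hol φ z (tw par h v ++ [p]) = φ z v * hol φ v (L₁ ++ [p])` and `hol_tw`);
  all its vertices and `v` are `Used` for `Fb₁ = {par^[h-1] v}`, `Fz = ∅` (`tw_brx`).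
* `L₂ = z' :: L'` with `z' ∈ Z` adjacent to `v`, `L'` from `arcZ` for `z'`, `n = 0`, `Fb₁`, `Fz = {z'}`, `Fc = {(φ v z')⁻¹}`:
  holonomy `φ v z' * hol L' ≠ 1`; length `h + 1`.
* `L₃ = z'' :: L''` with `z'' ∈ Z` adjacent to `v`, not in the set `Fz'` of `L'`, `L''` from `arcZ` for `z''`, `n`, `Fb'`, `insert z'' Fz'`,
  `Fc = {(φ v z'')⁻¹, (φ v z'')⁻¹ * hol L₂}`; length `h + 1 + 2 n`.
Sum of the lengths `3 h + 1 + 2 n`, `+ 3 = k`.  `v ∉ L₂, L₃` as `v` has level `j` and branch in `Fb₁`.  `hex` with `q = v`.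
-/

set_option autoImplicit false

namespace Pool.Agent.helper20.AL

private theorem theta_disj {α : Type*} {lev : α → ℕ} {par : α → α} {m j : ℕ}
    {Fb Fz Fb' Fz' : Finset α} {x : α} (hU : Used lev par m j Fb Fz x)
    (hF : Free lev par m j Fb' Fz' x) (h1 : Fb ⊆ Fb') (h2 : Fz ⊆ Fz') : False := by
  rcases hU with ⟨_, hu2, hu3⟩ | ⟨hu1, hu2⟩
  · rcases hF with ⟨_, _, hf3⟩ | ⟨hf1, _⟩
    · exact hf3 (h1 hu3)
    · omega
  · rcases hF with ⟨_, hf2, _⟩ | ⟨_, hf2⟩
    · omega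
    · exact hf2 (h2 hu2)

private theorem theta_free_mono {α : Type*} {lev : α → ℕ} {par : α → α} {m j : ℕ}
    {Fb Fz Fb' Fz' : Finset α} {x : α} (hF : Free lev par m j Fb' Fz' x)
    (h1 : Fb ⊆ Fb') (h2 : Fz ⊆ Fz') : Free lev par m j Fb Fz x := by
  rcases hF with ⟨h3, h4, h5⟩ | ⟨h3, h4⟩
  · exact Or.inl ⟨h3, h4, fun h => h5 (h1 h)⟩
  · exact Or.inr ⟨h3, fun h => h4 (h2 h)⟩

private theorem theta_used_mono {α : Type*} {lev : α → ℕ} {par : α → α} {m j : ℕ}
    {Fb Fz Fb' Fz' : Finset α} {x : α} (hF : Used lev par m j Fb Fz x)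
    (h1 : Fb ⊆ Fb') (h2 : Fz ⊆ Fz') : Used lev par m j Fb' Fz' x := by
  rcases hF with ⟨h3, h4, h5⟩ | ⟨h3, h4⟩
  · exact Or.inl ⟨h3, h4, h1 h5⟩
  · exact Or.inr ⟨h3, h2 h4⟩

private theorem theta_used_lev {α : Type*} {lev : α → ℕ} {par : α → α} {m j : ℕ} (hmj : m ≤ j)
    {Fb Fz : Finset α} {x : α} (hF : Used lev par m j Fb Fz x) : m < lev x := by
  rcases hF with ⟨h3, _, _⟩ | ⟨h3, _⟩
  · exact h3
  · omega

private theorem theta_free_lev {α : Type*} {lev : α → ℕ} {par : α → α} {m j : ℕ} (hmj : m ≤ j)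
    {Fb Fz : Finset α} {x : α} (hF : Free lev par m j Fb Fz x) : m < lev x := by
  rcases hF with ⟨h3, _, _⟩ | ⟨h3, _⟩
  · exact h3
  · omega

private theorem theta_lev {α V : Type*} [Group V] {B : SimpleGraph α} {φ : α → α → V}
    {lev : α → ℕ} {par : α → α} (hT : TreeOn B φ lev par) (w : α) (r : ℕ) (hr : r ≤ lev w) :
    lev (par^[r] w) = lev w - r := by
  induction r with
  | zero => simp
  | succ r ih =>
    have h1 := ih (by omega)
    rw [Function.iterate_succ_apply']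
    have h2 := hT.lv (par^[r] w) (by omega)
    omega

private theorem theta_nodup {α : Type*} {lev : α → ℕ} {par : α → α} {m j : ℕ} {q p : α}
    {L0 L1 L2 : List α} {Fb1 Fz1 Fb2 Fz2 : Finset α} (hmj : m ≤ j) (hp : lev p ≤ m)
    (hq : Used lev par m j Fb1 Fz1 q) (hq0 : q ∉ L0) (n0 : L0.Nodup) (n1 : L1.Nodup)
    (n2 : L2.Nodup) (h0 : ∀ x ∈ L0, Used lev par m j Fb1 Fz1 x)
    (h1 : ∀ x ∈ L1, Free lev par m j Fb1 Fz1 x ∧ Used lev par m j Fb2 Fz2 x)
    (h2 : ∀ x ∈ L2, Free lev par m j Fb2 Fz2 x) (hb : Fb1 ⊆ Fb2) (hz : Fz1 ⊆ Fz2) :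
    (q :: p :: (L0 ++ (L1 ++ L2))).Nodup := by
  have hq1 : q ∉ L1 := fun h => theta_disj hq (h1 q h).1 (Finset.Subset.refl _)
    (Finset.Subset.refl _)
  have hq2 : q ∉ L2 := fun h => theta_disj hq (h2 q h) hb hz
  have hqp : q ≠ p := by
    intro h
    have := theta_used_lev hmj hq
    rw [h] at this
    omega
  have hp0 : p ∉ L0 := fun h => by
    have := theta_used_lev hmj (h0 p h)
    omega
  have hp1 : p ∉ L1 := fun h => by
    have := theta_used_lev hmj (h1 p h).2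
    omega
  have hp2 : p ∉ L2 := fun h => by
    have := theta_free_lev hmj (h2 p h)
    omega
  rw [List.nodup_cons, List.nodup_cons, List.nodup_append, List.nodup_append]
  refine ⟨?_, ?_, n0, ⟨n1, n2, ?_⟩, ?_⟩
  · simp only [List.mem_cons, List.mem_append, not_or]
    exact ⟨hqp, hq0, hq1, hq2⟩
  · simp only [List.mem_append, not_or]
    exact ⟨hp0, hp1, hp2⟩
  · rintro a ha b hb' rfl
    exact theta_disj (h1 a ha).2 (h2 a hb') (Finset.Subset.refl _) (Finset.Subset.refl _)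
  · rintro a ha b hb' rfl
    rw [List.mem_append] at hb'
    rcases hb' with hb' | hb'
    · exact theta_disj (h0 a ha) (h1 a hb').1 (Finset.Subset.refl _) (Finset.Subset.refl _)
    · exact theta_disj (h0 a ha) (h2 a hb') hb hz

theorem coreCyc_comm.{u, v} (V : Type v) [CommGroup V] (k H M : ℕ) (hH : 3 * H + 3 ≤ k)
    (hM : 4 * k + 40 ≤ M) : CoreCyc.{u, v} V k H M := by
  classical
  intro α B φ lev par hT h j p W Z h1 hhH hj hW hZ hZne hC
  obtain ⟨z, hz⟩ := hZne
  obtain ⟨v, hvW, hvz, -, -⟩ := hC.zw z hz ∅ ∅ (by simp; omega)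
  have hlv : lev v = j := (hW v hvW).1
  have hvp : par^[h] v = p := (hW v hvW).2
  have hlp : lev p = j - h := by
    rw [← hvp, theta_lev hT v h (by omega), hlv]
  have hmj : j - h ≤ j := Nat.sub_le _ _
  rcases Nat.even_or_odd' (k - (3 * h + 3)) with ⟨i, hi | hi⟩
  · -- Case II
    obtain ⟨L1, Fb1, Fz1, hl1, hc1, hn1, -, -, hz1, hcb1, hcz1, ha1⟩ :=
      arcZ hT h1 hj hW hZ hC 0 ∅ {z} ∅ z hz (by simp) (by simp; omega)
    have hzF1 : z ∈ Fz1 := hz1 (by simp)
    rw [Finset.card_empty] at hcb1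
    rw [Finset.card_singleton] at hcz1
    obtain ⟨L2, Fb2, Fz2, hl2, hc2, hn2, hh2, hb2, hz2, hcb2, hcz2, ha2⟩ :=
      arcZ hT h1 hj hW hZ hC 0 Fb1 Fz1 {hol φ z (L1 ++ [p])} z hz hzF1
        (by rw [Finset.card_singleton]; omega)
    have hzF2 : z ∈ Fz2 := hz2 hzF1
    obtain ⟨L3, Fb3, Fz3, hl3, hc3, hn3, hh3, hb3, hz3, hcb3, hcz3, ha3⟩ :=
      arcZ hT h1 hj hW hZ hC i Fb2 Fz2 {hol φ z (L1 ++ [p]), hol φ z (L2 ++ [p])} z hz hzF2
        (by
          have := Finset.card_le_two (a := hol φ z (L1 ++ [p])) (b := hol φ z (L2 ++ [p]))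
          omega)
    have hzU : Used lev par (j - h) j Fb1 Fz1 z := Or.inr ⟨hZ z hz, hzF1⟩
    have hz0 : z ∉ L1 := fun hmem => by
      rcases (ha1 z hmem).1 with ⟨_, h4, _⟩ | ⟨_, h4⟩
      · have := hZ z hz
        omega
      · exact h4 (by simp)
    have hnd : (z :: p :: (L1 ++ (L2 ++ L3))).Nodup :=
      theta_nodup hmj (le_of_eq hlp) hzU hz0 hn1 hn2 hn3 (fun x hx => (ha1 x hx).2) ha2
        (fun x hx => (ha3 x hx).1) hb2 hz2
    have hcyc := hex hT.anti z p L1 L2 L3 hc1 hc2 hc3 hnd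
      (fun he => hh2 (by rw [Finset.mem_singleton]; exact he.symm))
      (fun he => hh3 (by rw [Finset.mem_insert]; exact Or.inl he.symm))
      (fun he => hh3 (by rw [Finset.mem_insert, Finset.mem_singleton]; exact Or.inr he.symm))
    have hlen : L1.length + L2.length + L3.length + 3 = k := by omega
    rw [hlen] at hcyc
    exact hcyc
  · -- Case I
    obtain ⟨L1, hL1⟩ : ∃ L1, tw par h v = v :: L1 := by
      obtain ⟨h', rfl⟩ : ∃ h', h = h' + 1 := ⟨h - 1, by omega⟩
      refine ⟨(tw par (h' + 1) v).tail, ?_⟩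
      unfold tw
      rw [List.range_succ_eq_map]
      simp
    have hl1 : L1.length + 1 = h := by
      have : (tw par h v).length = h := by simp [tw]
      rw [hL1, List.length_cons] at this
      exact this
    have hc1 : (v :: (L1 ++ [p])).IsChain B.Adj := by
      have := tw_chain hT h h1 v p (by omega) hvp
      rw [hL1] at this
      exact this
    have hh1 : hol φ v (L1 ++ [p]) = 1 := by
      have := hol_tw hT h h1 v p (by omega) hvp z
      rw [hL1, List.cons_append] at this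
      change φ z v * hol φ v (L1 ++ [p]) = φ z v at this
      exact mul_eq_left.mp this
    have hn1 : (v :: L1).Nodup := by
      have := tw_nodup hT h v (by omega)
      rw [hL1] at this
      exact this
    rw [List.nodup_cons] at hn1
    have hU1 : ∀ x ∈ tw par h v, Used lev par (j - h) j {par^[h - 1] v} ∅ x := by
      intro x hx
      have := tw_brx hT h v (by omega) x hx
      rw [hlv] at this
      exact Or.inl ⟨this.1, this.2.1, by rw [this.2.2]; simp⟩
    have hvU : Used lev par (j - h) j {par^[h - 1] v} ∅ v := hU1 v (by rw [hL1]; simp)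
    obtain ⟨L2, Fb2, Fz2, hl2, hc2, hn2, hh2, hb2, hz2, hcb2, hcz2, ha2⟩ :=
      arcZ hT h1 hj hW hZ hC 0 {par^[h - 1] v} {z} {(φ v z)⁻¹} z hz (by simp)
        (by rw [Finset.card_singleton, Finset.card_singleton, Finset.card_singleton]; omega)
    rw [Finset.card_singleton] at hcb2 hcz2
    have hzF2 : z ∈ Fz2 := hz2 (by simp)
    obtain ⟨y, hyZ, hvy, hyF⟩ := hC.wz v hvW Fz2 (by omega)
    have hci : (insert y Fz2).card ≤ 2 := by
      have := Finset.card_insert_le y Fz2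
      omega
    obtain ⟨L3, Fb3, Fz3, hl3, hc3, hn3, hh3, hb3, hz3, hcb3, hcz3, ha3⟩ :=
      arcZ hT h1 hj hW hZ hC i Fb2 (insert y Fz2)
        {(φ v y)⁻¹, (φ v y)⁻¹ * (φ v z * hol φ z (L2 ++ [p]))} y hyZ (by simp)
        (by
          have := Finset.card_le_two (a := (φ v y)⁻¹)
            (b := (φ v y)⁻¹ * (φ v z * hol φ z (L2 ++ [p])))
          omega)
    have hlz := hZ z hz
    have hly := hZ y hyZ
    have hz2' : z ∉ L2 := fun hmem => by
      rcases (ha2 z hmem).1 with ⟨_, h4, _⟩ | ⟨_, h4⟩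
      · omega
      · exact h4 (by simp)
    have hy3' : y ∉ L3 := fun hmem => by
      rcases (ha3 y hmem).1 with ⟨_, h4, _⟩ | ⟨_, h4⟩
      · omega
      · exact h4 (by simp)
    have hnd : (v :: p :: (L1 ++ ((z :: L2) ++ (y :: L3)))).Nodup := by
      refine theta_nodup (Fb1 := {par^[h - 1] v}) (Fz1 := ∅) (Fb2 := Fb2) (Fz2 := Fz2)
        hmj (le_of_eq hlp) hvU hn1.1 hn1.2 (List.nodup_cons.mpr ⟨hz2', hn2⟩)
        (List.nodup_cons.mpr ⟨hy3', hn3⟩) (fun x hx => hU1 x (by rw [hL1]; simp [hx])) ?_ ?_ hb2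
        (Finset.empty_subset _)
      · intro x hx
        rcases List.mem_cons.mp hx with rfl | hx
        · exact ⟨Or.inr ⟨hlz, by simp⟩, Or.inr ⟨hlz, hzF2⟩⟩
        · exact ⟨theta_free_mono (ha2 x hx).1 (Finset.Subset.refl _) (Finset.empty_subset _),
            (ha2 x hx).2⟩
      · intro x hx
        rcases List.mem_cons.mp hx with rfl | hx
        · exact Or.inr ⟨hly, hyF⟩
        · exact theta_free_mono (ha3 x hx).1 (Finset.Subset.refl _) (Finset.subset_insert _ _)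
    have hc2' : (v :: ((z :: L2) ++ [p])).IsChain B.Adj := by
      rw [List.cons_append, List.isChain_cons_cons]
      exact ⟨hvz, hc2⟩
    have hc3' : (v :: ((y :: L3) ++ [p])).IsChain B.Adj := by
      rw [List.cons_append, List.isChain_cons_cons]
      exact ⟨hvy, hc3⟩
    have e2 : hol φ v ((z :: L2) ++ [p]) = φ v z * hol φ z (L2 ++ [p]) := rfl
    have e3 : hol φ v ((y :: L3) ++ [p]) = φ v y * hol φ y (L3 ++ [p]) := rfl
    have hcyc := hex hT.anti v p L1 (z :: L2) (y :: L3) hc1 hc2' hc3' hnd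
      (fun he => hh2 (by
        rw [hh1, e2] at he
        rw [Finset.mem_singleton]
        exact eq_inv_of_mul_eq_one_right he.symm))
      (fun he => hh3 (by
        rw [hh1, e3] at he
        rw [Finset.mem_insert]
        exact Or.inl (eq_inv_of_mul_eq_one_right he.symm)))
      (fun he => hh3 (by
        rw [e2, e3] at he
        rw [Finset.mem_insert, Finset.mem_singleton]
        right
        rw [he, inv_mul_cancel_left]))
    have hlen : L1.length + (z :: L2).length + (y :: L3).length + 3 = k := by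
      rw [List.length_cons, List.length_cons]
      omega
    rw [hlen] at hcyc
    exact hcyc

end Pool.Agent.helper20.AL
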