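import Pool.Agent.helper20.AL.Net

/-!
# AL-Univ: the universal abelian lift (modulo `m`) of a graph of girth `g` has no cycle of length `2 k < 3 g`

proofs: helper51

`V = Multiplicative (α × α → ZMod m)`, `φ a b = e_(a, b) - e_(b, a)`.
PROOF.  Let `f : Fin (2 k) → α × V` be a copy of the cycle graph in the lift (`SimpleGraph.IsContained`), `v i = (f (i mod 2 k)).1`.  `v` is periodic with period `N = 2 k`, `hadj`
clear.  `hnb`: if `v (i + 2) = v i` then the voltage of `f (i + 2)` is that of `f i` times `φ (v i) (v (i + 1)) * φ (v (i + 1)) (v i) = 1`, so `f (i + 2) = f i`, but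
`i + 2` and `i` are different modulo `2 k ≥ 3`.  `hnet`: the product of the voltages around the cycle is `1`; its coordinate `(a, b)`, `a ≠ b`, is the number of the uses of
`(a, b)` minus the number of uses of `(b, a)` in `ZMod m`; both numbers are at most `2 k < m`, so they are equal (for `a = b` trivial).  Apply `net`.
-/

set_option autoImplicit false

namespace Pool.Agent.helper20.AL

/-- The universal voltages. -/
def uv {α : Type*} [DecidableEq α] (m : ℕ) (a b : α) : Multiplicative (α × α → ZMod m) :=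
  Multiplicative.ofAdd (Pi.single (a, b) 1 - Pi.single (b, a) 1)

theorem uv_anti {α : Type*} [DecidableEq α] (m : ℕ) (a b : α) : uv m b a = (uv m a b)⁻¹ := by
  unfold uv
  rw [← ofAdd_neg, neg_sub]

private theorem Univ_mod_succ (N i : ℕ) (hN : 3 ≤ N) :
    (SimpleGraph.cycleGraph N).Adj ⟨i % N, Nat.mod_lt _ (by omega)⟩
      ⟨(i + 1) % N, Nat.mod_lt _ (by omega)⟩ := by
  rw [SimpleGraph.cycleGraph_adj']
  right
  rw [Fin.val_sub]
  simp only
  have hr : i % N < N := Nat.mod_lt _ (by omega)
  have h1 : (i + 1) % N = (i % N + 1) % N := by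
    rw [Nat.add_mod, Nat.mod_eq_of_lt (show 1 < N by omega)]
  rw [h1]
  generalize i % N = r at hr
  rcases Nat.lt_or_ge (r + 1) N with h | h
  · rw [Nat.mod_eq_of_lt h]
    have h2 : N - r + (r + 1) = N + 1 := by omega
    rw [h2, Nat.add_mod_left]
    exact Nat.mod_eq_of_lt (by omega)
  · have h2 : r + 1 = N := by omega
    rw [h2, Nat.mod_self]
    have h3 : N - r + 0 = 1 := by omega
    rw [h3]
    exact Nat.mod_eq_of_lt (by omega)

private theorem Univ_prod {α V : Type*} [CommGroup V] (φ : α → α → V) (F : ℕ → α × V)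
    (hF : ∀ i, (F (i + 1)).2 = (F i).2 * φ (F i).1 (F (i + 1)).1) (n : ℕ) :
    (F n).2 = (F 0).2 * ∏ i ∈ Finset.range n, φ (F i).1 (F (i + 1)).1 := by
  induction n with
  | zero => simp
  | succ n ih => rw [Finset.prod_range_succ, hF, ih, mul_assoc]

theorem univ_free {α : Type*} [DecidableEq α] (B : SimpleGraph α) (g k m : ℕ) (hg : Girth B g)
    (hk : 2 * k < 3 * g) (hk3 : 2 ≤ k) (hm : 2 * k < m) : ¬ HasC (Lift B (uv m)) (2 * k) := by
  rintro ⟨f⟩
  have hN : 3 ≤ 2 * k := by omega
  set F : ℕ → α × Multiplicative (α × α → ZMod m) :=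
    fun i => f ⟨i % (2 * k), Nat.mod_lt _ (by omega)⟩ with hFdef
  have hFadj : ∀ i, (Lift B (uv m)).Adj (F i) (F (i + 1)) := fun i =>
    f.toHom.map_adj (Univ_mod_succ (2 * k) i hN)
  have hFper : ∀ i, F (i + 2 * k) = F i := by
    intro i
    simp only [hFdef, Nat.add_mod_right]
  have hFinj : ∀ i j, F i = F j → i % (2 * k) = j % (2 * k) := by
    intro i j h
    have h1 := f.injective h
    exact congrArg Fin.val h1
  have hstep : ∀ i, (F (i + 1)).2 = (F i).2 * uv m (F i).1 (F (i + 1)).1 := fun i =>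
    (hFadj i).2.1
  have hnb : ∀ i, (F (i + 2)).1 ≠ (F i).1 := by
    intro i h
    have h1 : (F (i + 2)).2 = (F i).2 := by
      have h2 := hstep (i + 1)
      have h3 := hstep i
      rw [show i + 1 + 1 = i + 2 by ring] at h2
      rw [h2, h3, h, uv_anti m (F i).1 (F (i + 1)).1, mul_assoc, mul_inv_cancel, mul_one]
    have h4 : F (i + 2) = F i := Prod.ext h h1
    have h5 := hFinj _ _ h4
    have h6 : i ≡ i + 2 [MOD (2 * k)] := h5.symm
    have h7 := (Nat.modEq_iff_dvd' (by omega)).mp h6
    have h8 : i + 2 - i = 2 := by omega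
    rw [h8] at h7
    have := Nat.le_of_dvd (by norm_num) h7
    omega
  have hprod : ∏ i ∈ Finset.range (2 * k), uv m (F i).1 (F (i + 1)).1 = 1 := by
    have h1 := Univ_prod (uv m) F hstep (2 * k)
    have h2 : F (2 * k) = F 0 := by
      have := hFper 0
      rwa [zero_add] at this
    rw [h2] at h1
    exact (left_eq_mul.mp h1)
  have hsum : ∑ i ∈ Finset.range (2 * k),
      ((Pi.single ((F i).1, (F (i + 1)).1) 1 - Pi.single ((F (i + 1)).1, (F i).1) 1 :
        α × α → ZMod m)) = 0 := by
    have h1 := congrArg Multiplicative.toAdd hprod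
    rw [toAdd_prod] at h1
    simpa [uv] using h1
  have hnet : ∀ a b, ((Finset.range (2 * k)).filter
      (fun i => (F i).1 = a ∧ (F (i + 1)).1 = b)).card =
      ((Finset.range (2 * k)).filter (fun i => (F i).1 = b ∧ (F (i + 1)).1 = a)).card := by
    intro a b
    have h1 := congrFun hsum (a, b)
    rw [Finset.sum_apply] at h1
    simp only [Pi.sub_apply, Pi.single_apply, Prod.mk.injEq, Pi.zero_apply] at h1
    rw [Finset.sum_sub_distrib, sub_eq_zero] at h1
    rw [Finset.sum_boole, Finset.sum_boole] at h1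
    have h2 : ((Finset.range (2 * k)).filter
        (fun i => a = (F i).1 ∧ b = (F (i + 1)).1)).card =
        ((Finset.range (2 * k)).filter (fun i => a = (F (i + 1)).1 ∧ b = (F i).1)).card := by
      rw [ZMod.natCast_eq_natCast_iff'] at h1
      have h3 : ∀ p : ℕ → Prop, ∀ [DecidablePred p],
          ((Finset.range (2 * k)).filter p).card < m := by
        intro p _
        refine lt_of_le_of_lt (Finset.card_filter_le _ _) ?_
        rw [Finset.card_range]
        exact hm
      rwa [Nat.mod_eq_of_lt (h3 _), Nat.mod_eq_of_lt (h3 _)] at h1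
    have h4 : (Finset.range (2 * k)).filter (fun i => (F i).1 = a ∧ (F (i + 1)).1 = b) =
        (Finset.range (2 * k)).filter (fun i => a = (F i).1 ∧ b = (F (i + 1)).1) := by
      refine Finset.filter_congr fun i _ => ?_
      constructor
      · rintro ⟨h5, h6⟩
        exact ⟨h5.symm, h6.symm⟩
      · rintro ⟨h5, h6⟩
        exact ⟨h5.symm, h6.symm⟩
    have h5 : (Finset.range (2 * k)).filter (fun i => (F i).1 = b ∧ (F (i + 1)).1 = a) =
        (Finset.range (2 * k)).filter (fun i => a = (F (i + 1)).1 ∧ b = (F i).1) := by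
      refine Finset.filter_congr fun i _ => ?_
      constructor
      · rintro ⟨h5, h6⟩
        exact ⟨h6.symm, h5.symm⟩
      · rintro ⟨h5, h6⟩
        exact ⟨h6.symm, h5.symm⟩
    rw [h4, h5, h2]
  have hfin := net B g (2 * k) (by omega) (fun i => (F i).1)
    (fun i => congrArg Prod.fst (hFper i)) (fun i => (hFadj i).1) hnb hnet hg
  omega

end Pool.Agent.helper20.AL
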