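import Pool.Agent.helper20.AL.Base
import Pool.Agent.helper20.AL.Theta
import Pool.Agent.helper20.AL.Mult
import Pool.Agent.helper20.AL.Quot

/-! # AL-Upper (helper20): the upper bound for free actions of abelian groups -/

set_option autoImplicit false

namespace Pool.Agent.helper20.AL

theorem two_mul_pow (a b ℓ : ℕ) : (a + b) ^ ℓ ≤ 2 ^ ℓ * (a ^ ℓ + b ^ ℓ) := by
  rcases le_total a b with h | h
  · calc (a + b) ^ ℓ ≤ (2 * b) ^ ℓ := Nat.pow_le_pow_left (by omega) _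
      _ = 2 ^ ℓ * b ^ ℓ := by rw [mul_pow]
      _ ≤ 2 ^ ℓ * (a ^ ℓ + b ^ ℓ) := Nat.mul_le_mul_left _ (Nat.le_add_left _ _)
  · calc (a + b) ^ ℓ ≤ (2 * a) ^ ℓ := Nat.pow_le_pow_left (by omega) _
      _ = 2 ^ ℓ * a ^ ℓ := by rw [mul_pow]
      _ ≤ 2 ^ ℓ * (a ^ ℓ + b ^ ℓ) := Nat.mul_le_mul_left _ (Nat.le_add_right _ _)

theorem upper.{u, v} (k : ℕ) (hk : 3 ≤ k) : ∃ C : ℕ, ∀ (X : Type u) [Fintype X]
    (Γ : SimpleGraph X) (A : Type v) [CommGroup A] [MulAction A X],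
    (∀ (g : A) (u v : X), Γ.Adj u v → Γ.Adj (g • u) (g • v)) →
    (∀ (g : A) (u : X), g • u = u → g = 1) →
    ¬ (SimpleGraph.cycleGraph (2 * k)).IsContained Γ →
    Γ.edgeSet.ncard ^ (k / 3) ≤
      C * Fintype.card X ^ (k / 3) * Nat.card (MulAction.orbitRel.Quotient A X) := by
  classical
  set ℓ := k / 3 with hℓ
  have hℓ1 : 1 ≤ ℓ := by omega
  set M := 4 * k + 40 with hM
  set s := 12 * sc M (ℓ - 1) with hs
  refine ⟨(3 ^ k) ^ ℓ * (1 + (2 * s) ^ ℓ), ?_⟩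
  intro X _ Γ A _ _ hact hfree hno
  obtain ⟨α, hα, B, φ, anti, hcard, hcont, hcount⟩ := quot Γ hact hfree (3 ^ k) (by
    intro x y T hxy hT
    by_contra hcon
    push Not at hcon
    exact hno (mult Γ hact hfree k hk x y hxy T hT hcon.le))
  have hno' : ¬ HasC (Lift B φ) (2 * k) := fun h => hno (h.trans hcont)
  have hbase := base (ℓ := ℓ) hℓ1 (coreCyc_comm A k (ℓ - 1) M (by omega) le_rfl) (by omega)
    (by omega) B φ anti hno'
  rw [← hs] at hbase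
  rw [← hcard]
  set t := Fintype.card α with ht
  set n := Fintype.card X with hn
  set e := Γ.edgeSet.ncard with he
  set m := B.edgeSet.ncard with hm
  rcases Nat.eq_zero_or_pos t with ht0 | ht0
  · -- no orbits
    have hXe : IsEmpty X := by
      by_contra hne
      rw [not_isEmpty_iff] at hne
      have h1 : Nat.card (MulAction.orbitRel.Quotient A X) ≠ 0 := by
        have : Finite (MulAction.orbitRel.Quotient A X) := Quotient.finite _
        have : Nonempty (MulAction.orbitRel.Quotient A X) :=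
          hne.map (fun x => (Quotient.mk _ x : MulAction.orbitRel.Quotient A X))
        exact Nat.card_pos.ne'
      omega
    have h0 : e = 0 := by
      rw [he, Set.ncard_eq_zero (Set.toFinite _)]
      ext x
      induction x using Sym2.ind with
      | _ a b => exact (hXe.false a).elim
    rw [h0, zero_pow (by omega)]
    exact Nat.zero_le _
  have h1 : t ^ ℓ * e ^ ℓ ≤ t ^ ℓ * ((3 ^ k) ^ ℓ * (1 + (2 * s) ^ ℓ) * n ^ ℓ * t) := by
    have h2 : 2 ^ ℓ * (t ^ ℓ * e ^ ℓ) ≤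
        2 ^ ℓ * (t ^ ℓ * ((3 ^ k) ^ ℓ * (1 + (2 * s) ^ ℓ) * n ^ ℓ * t)) := by
      calc 2 ^ ℓ * (t ^ ℓ * e ^ ℓ) = (2 * t * e) ^ ℓ := by rw [mul_pow, mul_pow]; ring
        _ ≤ (3 ^ k * n * (t + 2 * m)) ^ ℓ := Nat.pow_le_pow_left hcount _
        _ = (3 ^ k) ^ ℓ * n ^ ℓ * (t + 2 * m) ^ ℓ := by rw [mul_pow, mul_pow]
        _ ≤ (3 ^ k) ^ ℓ * n ^ ℓ * (2 ^ ℓ * (t ^ ℓ + (2 * m) ^ ℓ)) :=
          Nat.mul_le_mul_left _ (two_mul_pow _ _ _)
        _ ≤ (3 ^ k) ^ ℓ * n ^ ℓ * (2 ^ ℓ * (t ^ (ℓ + 1) + 2 ^ ℓ * (s ^ ℓ * t ^ (ℓ + 1)))) := by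
          refine Nat.mul_le_mul_left _ (Nat.mul_le_mul_left _ (Nat.add_le_add ?_ ?_))
          · exact Nat.pow_le_pow_right ht0 (by omega)
          · rw [mul_pow]
            exact Nat.mul_le_mul_left _ hbase
        _ = 2 ^ ℓ * (t ^ ℓ * ((3 ^ k) ^ ℓ * (1 + (2 * s) ^ ℓ) * n ^ ℓ * t)) := by
          rw [mul_pow 2 s, pow_succ]
          ring
    exact Nat.le_of_mul_le_mul_left h2 (by positivity)
  exact Nat.le_of_mul_le_mul_left h1 (by positivity)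

end Pool.Agent.helper20.AL
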